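import Pool.Agent.Y994.KW.Stm

/-!
# Project KW, part two: the functional limit theorem
-/

set_option autoImplicit false

namespace Y994.KW

open Filter Topology MeasureTheory ProbabilityTheory

/-! ## concrete steps -/

/-- the displacement is not degenerate -/
def S_DPOS : Prop := ∀ n M : ℕ, 1 ≤ n →
  2 * (M : ℝ) / 2 ^ (2 * n + 1) ≤ H906K.Ex n M (fun c => (H906K.Xd n M c : ℝ) ^ 2)

/-- adjacency of the corners in the strip of `M` rows: open diagonals, and the wired corners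
`2i`, `2i+2`, `i < n`, of every period of the bottom level -/
def Adj (n M : ℕ) (c : Fin M → Fin (2 * n + 1) → Bool) (x y : ℤ × ℤ) : Prop :=
  (∃ (j : ℤ) (t : Fin M), (c t (H906K.jx (2 * n) j) = false ∧ x = (j, (t : ℤ)) ∧ y = (j + 1, (t : ℤ) + 1)) ∨
    (c t (H906K.jx (2 * n) j) = true ∧ x = (j + 1, (t : ℤ)) ∧ y = (j, (t : ℤ) + 1))) ∨
  ∃ (k : ℤ) (i : ℕ), i < n ∧ x = (k * (2 * n + 1) + 2 * i, 0) ∧ y = (k * (2 * n + 1) + 2 * i + 2, 0)

/-- connection of corners by open paths -/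
def Con (n M : ℕ) (c : Fin M → Fin (2 * n + 1) → Bool) (x y : ℤ × ℤ) : Prop :=
  Relation.EqvGen (Adj n M c) x y

/-- **crossings and the interface**: the cluster of the wired arc `[0, 2n]` of the bottom meets the top
between `X` and `X + 2n`, and it contains both end points -/
def S_CRS : Prop := ∀ (n M : ℕ) (c : Fin M → Fin (2 * n + 1) → Bool), 1 ≤ n →
  Con n M c (0, 0) (X n M c, M) ∧ Con n M c (0, 0) (X n M c + 2 * n, M) ∧
  ∀ p : ℤ, Con n M c (0, 0) (p, M) → X n M c ≤ p ∧ p ≤ X n M c + 2 * n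

/-- tail of the oscillation of the displacement in windows of `2n+1` rows -/
def S_OSCT : Prop := ∃ C κ : ℝ, 0 < C ∧ 0 < κ ∧ ∀ (n m : ℕ) (x : ℝ), 1 ≤ n → 0 ≤ x →
  pr n (m + (2 * n + 1)) (fun c => ∃ l : ℕ, l ≤ 2 * n + 1 ∧ x * (2 * n + 1) ≤
    |(dsp n 0 ((m + l : ℕ) : ℤ) (cfg n (m + (2 * n + 1)) c) : ℝ)
      - dsp n 0 (m : ℤ) (cfg n (m + (2 * n + 1)) c)|) ≤ C * Real.exp (-κ * √x)

/-! ## the abstract setting -/

/-- restriction of a word to its first `m` letters (padded by an arbitrary letter) -/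
noncomputable def rst {α : Type} [Nonempty α] {M : ℕ} (m : ℕ) (c : Fin M → α) : Fin m → α :=
  fun i => if h : (i : ℕ) < M then c ⟨i, h⟩ else Classical.arbitrary α

/-- the functional along the prefixes of a word -/
noncomputable def Yr {α : Type} [Nonempty α] (Y : ∀ M : ℕ, (Fin M → α) → ℝ) {M : ℕ}
    (c : Fin M → α) (m : ℕ) : ℝ := Y m (rst m c)

/-- the oscillation in windows of length `m0` has fourth moment at most `B ^ 4` -/
def Osc {α : Type} [Fintype α] [Nonempty α] (Y : ∀ M : ℕ, (Fin M → α) → ℝ) (B : ℝ) (m0 : ℕ) : Prop :=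
  ∀ m : ℕ, ∃ g : (Fin (m + m0) → α) → ℝ,
    (∀ c, ∀ l : ℕ, l ≤ m0 → |Yr Y c (m + l) - Yr Y c m| ≤ g c) ∧
    Ea (m + m0) (fun c => g c ^ 4) ≤ B ^ 4

/-- oscillation of the displacement -/
def S_OSC : Prop := ∃ B : ℝ, 0 < B ∧ ∀ n : ℕ, 1 ≤ n →
  Osc (fun M (c : Fin M → Fin (2 * n + 1) → Bool) => (X n M c : ℝ)) (B * (2 * n + 1)) (2 * n + 1)

/-- convergence of the characteristic functions of the increments -/
def S_FDD : Prop := ∀ (δ ε : ℝ) (k : ℕ) (t : Fin (k + 1) → ℝ) (θ : Fin k → ℝ), 0 < δ → 0 < ε →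
  Monotone t → 0 ≤ t 0 → t (Fin.last k) ≤ 1 → ∃ A : ℝ, 0 < A ∧ ∀ (α : Type) [Fintype α]
  [Nonempty α] (Y : ∀ M : ℕ, (Fin M → α) → ℝ) (B D : ℝ) (m0 : ℕ), Qa Y B D m0 →
  δ * B ^ 2 ≤ D * m0 → ∀ M : ℕ, A * m0 ≤ M →
  ‖Ec M (fun c => Complex.exp (((∑ j : Fin k, θ j * ((Yr Y c ⌊t j.succ * M⌋₊
      - Yr Y c ⌊t j.castSucc * M⌋₊) / √(D * M)) : ℝ) : ℂ) * Complex.I))
    - Complex.exp (((-∑ j : Fin k, θ j ^ 2 * (t j.succ - t j.castSucc) / 2 : ℝ) : ℂ))‖ ≤ ε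

open Classical in
/-- modulus of continuity of the functional along the prefixes -/
def S_MODU : Prop := ∀ δ0 ε η : ℝ, 0 < δ0 → 0 < ε → 0 < η → ∃ δ A : ℝ, 0 < δ ∧ 0 < A ∧
  ∀ (α : Type) [Fintype α] [Nonempty α] (Y : ∀ M : ℕ, (Fin M → α) → ℝ) (B D : ℝ) (m0 : ℕ),
  Qa Y B D m0 → Osc Y B m0 → δ0 * B ^ 2 ≤ D * m0 → ∀ M : ℕ, A * m0 ≤ M →
  Ea M (fun c : Fin M → α => if ∃ m m' : ℕ, m ≤ M ∧ m' ≤ M ∧ |(m : ℝ) - m'| ≤ δ * M ∧
    ε * √(D * M) ≤ |Yr Y c m - Yr Y c m'| then (1 : ℝ) else 0) ≤ η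

/-! ## paths -/

/-- the space of continuous paths on `[0,1]` -/
abbrev Pa : Type := C(unitInterval, ℝ)

noncomputable instance instPaM : MeasurableSpace Pa := borel _

instance instPaB : BorelSpace Pa := ⟨rfl⟩

/-- the polygonal path through the points `(i/M, a y_i)`, `i ≤ M` -/
noncomputable def pth (a : ℝ) (y : ℕ → ℝ) (M : ℕ) : Pa :=
  ⟨fun s => a * (y 0 + ∑ i ∈ Finset.range M, (y (i + 1) - y i) * max 0 (min 1 ((s : ℝ) * M - i))),
    by fun_prop⟩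

/-- `W` is the law of Brownian motion on `[0,1]` with variance `v` per unit of time -/
def IsBM (v : NNReal) (W : Measure Pa) : Prop :=
  IsProbabilityMeasure W ∧ (∀ᵐ w ∂W, w 0 = 0) ∧
  ∀ (k : ℕ) (t : Fin (k + 1) → unitInterval), Monotone t →
    W.map (fun w (j : Fin k) => w (t j.succ) - w (t j.castSucc)) =
      Measure.pi (fun j : Fin k =>
        gaussianReal 0 (v * Real.toNNReal ((t j.succ : ℝ) - t j.castSucc)))

open Classical in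
/-- modulus of continuity of the polygonal paths -/
def S_MODP : Prop := ∀ δ0 ε η : ℝ, 0 < δ0 → 0 < ε → 0 < η → ∃ δ A : ℝ, 0 < δ ∧ 0 < A ∧
  ∀ (α : Type) [Fintype α] [Nonempty α] (Y : ∀ M : ℕ, (Fin M → α) → ℝ) (B D : ℝ) (m0 : ℕ),
  Qa Y B D m0 → Osc Y B m0 → δ0 * B ^ 2 ≤ D * m0 → ∀ M : ℕ, A * m0 ≤ M →
  Ea M (fun c : Fin M → α => if ∃ s t : unitInterval, |(s : ℝ) - t| ≤ δ ∧
    ε ≤ |pth (1 / √(D * M)) (Yr Y c) M s - pth (1 / √(D * M)) (Yr Y c) M t|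
      then (1 : ℝ) else 0) ≤ η

/-- the modulus of continuity is uniformly small in probability -/
def ModC (μ : ℕ → Measure Pa) : Prop := ∀ ε η : ℝ, 0 < ε → 0 < η → ∃ (δ : ℝ) (i0 : ℕ), 0 < δ ∧
  ∀ i ≥ i0, μ i {w | ∃ s t : unitInterval, |(s : ℝ) - t| ≤ δ ∧ ε ≤ |w s - w t|} ≤ ENNReal.ofReal η

/-- tightness criterion -/
def S_TIGHT : Prop := ∀ μ : ℕ → Measure Pa, (∀ i, IsProbabilityMeasure (μ i)) →
  (∀ i, ∀ᵐ w ∂(μ i), w 0 = 0) → ModC μ → IsTightMeasureSet (Set.range μ)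

/-- characteristic functions of the increments of standard Brownian motion -/
noncomputable def chB {k : ℕ} (t : Fin (k + 1) → unitInterval) (θ : Fin k → ℝ) : ℂ :=
  Complex.exp (((-∑ j : Fin k, θ j ^ 2 * ((t j.succ : ℝ) - t j.castSucc) / 2 : ℝ) : ℂ))

/-- the characteristic function of the increments of a random path -/
noncomputable def chI (μ : Measure Pa) {k : ℕ} (t : Fin (k + 1) → unitInterval)
    (θ : Fin k → ℝ) : ℂ :=
  ∫ w, Complex.exp (((∑ j : Fin k, θ j * (w (t j.succ) - w (t j.castSucc)) : ℝ) : ℂ)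
    * Complex.I) ∂μ

/-- the characteristic functions determine the law of the increments -/
def S_BMC : Prop := ∀ (W : Measure Pa) [IsProbabilityMeasure W], (∀ᵐ w ∂W, w 0 = 0) →
  (∀ (k : ℕ) (t : Fin (k + 1) → unitInterval) (θ : Fin k → ℝ), Monotone t →
    chI W t θ = chB t θ) → IsBM 1 W

/-- the criterion for convergence to Brownian motion -/
structure Crit (μ : ℕ → ProbabilityMeasure Pa) : Prop where
  zero : ∀ i, ∀ᵐ w ∂(μ i : Measure Pa), w 0 = 0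
  modc : ModC (fun i => (μ i : Measure Pa))
  char : ∀ (k : ℕ) (t : Fin (k + 1) → unitInterval) (θ : Fin k → ℝ), Monotone t →
    Tendsto (fun i => chI (μ i : Measure Pa) t θ) atTop (𝓝 (chB t θ))

/-- convergence to Brownian motion -/
def S_DON : Prop := ∀ μ0 : ℕ → ProbabilityMeasure Pa, Crit μ0 → ∃ W : ProbabilityMeasure Pa,
  IsBM 1 (W : Measure Pa) ∧ ∀ μ : ℕ → ProbabilityMeasure Pa, Crit μ → Tendsto μ atTop (𝓝 W)

/-- sequences of almost additive functionals -/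
structure Fam (δ0 : ℝ) (α : ℕ → Type) [∀ i, Fintype (α i)] [∀ i, Nonempty (α i)]
    (Y : ∀ i M : ℕ, (Fin M → α i) → ℝ) (B D : ℕ → ℝ) (m0 M : ℕ → ℕ) : Prop where
  qa : ∀ i, Qa (Y i) (B i) (D i) (m0 i)
  osc : ∀ i, Osc (Y i) (B i) (m0 i)
  low : ∀ i, δ0 * B i ^ 2 ≤ D i * m0 i
  len : Tendsto (fun i => (M i : ℝ) / m0 i) atTop atTop

/-- the laws of the normalised polygonal paths converge to Brownian motion -/
def S_INV : Prop := ∀ δ0 : ℝ, 0 < δ0 → ∀ (α₀ : ℕ → Type) [∀ i, Fintype (α₀ i)]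
  [∀ i, Nonempty (α₀ i)] (Y₀ : ∀ i M : ℕ, (Fin M → α₀ i) → ℝ) (B₀ D₀ : ℕ → ℝ) (m₀ M₀ : ℕ → ℕ),
  Fam δ0 α₀ Y₀ B₀ D₀ m₀ M₀ → ∃ W : Measure Pa, IsBM 1 W ∧
  ∀ (α : ℕ → Type) [∀ i, Fintype (α i)] [∀ i, Nonempty (α i)]
    (Y : ∀ i M : ℕ, (Fin M → α i) → ℝ) (B D : ℕ → ℝ) (m0 M : ℕ → ℕ), Fam δ0 α Y B D m0 M →
    ∀ F : BoundedContinuousFunction Pa ℝ,
      Tendsto (fun i => Ea (M i) (fun c =>
        F (pth (1 / √(D i * M i)) (Yr (Y i) c) (M i)))) atTop (𝓝 (∫ w, F w ∂W))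

end Y994.KW
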