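import Pool.Agent.Y994.KW.T1Q

/-!
# Slabs crossed by one strand have positive probability, III
-/

set_option autoImplicit false

namespace Y994.KW

open Finset

theorem pr_eq (n M : ℕ) (A : (Fin M → Fin (2 * n + 1) → Bool) → Prop) [DecidablePred A] :
    pr n M A = ((univ.filter A).card : ℝ) / 2 ^ ((2 * n + 1) * M) := by
  classical
  unfold pr H906K.Ex
  congr 1
  rw [Finset.card_filter]
  push_cast
  apply Finset.sum_congr rfl
  intro c _
  by_cases h : A c <;> simp [h]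

theorem card_curry (n : ℕ) (A : (Fin (2 * n + 1) → Fin (2 * n + 1) → Bool) → Prop) :
    open Classical in
    ((univ : Finset (Fin (2 * n + 1) × Fin (2 * n + 1) → Bool)).filter
      (fun ω => A (fun t j => ω (t, j)))).card = (univ.filter A).card := by
  classical
  apply Finset.card_bij (fun ω _ => fun t j => ω (t, j))
  · intro ω hω
    simpa using hω
  · intro ω _ ω' _ h
    funext x
    exact congrFun (congrFun h x.1) x.2
  · intro c hc
    exact ⟨fun x => c x.1 x.2, by simpa using hc, rfl⟩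

open Classical in
theorem count_eq (n : ℕ) (A : (Fin (2 * n + 1) → Fin (2 * n + 1) → Bool) → Prop) :
    pr n (2 * n + 1) A = (((univ : Finset (Fin (2 * n + 1) × Fin (2 * n + 1) → Bool)).filter
      (fun ω => A (fun t j => ω (t, j)))).card : ℝ) / 2 ^ ((2 * n + 1) * (2 * n + 1)) := by
  rw [pr_eq, card_curry n A]

theorem exists_r {C q : ℝ} (hC : 0 < C) (h0 : 0 < q) (h1 : q < 1) : ∃ r : ℕ,
    C * q ^ ((r : ℝ) / C) ≤ 1 / 2 := by
  have h2 : q ^ (1 / C) < 1 := Real.rpow_lt_one h0.le h1 (by positivity)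
  have h3 : 0 < q ^ (1 / C) := Real.rpow_pos_of_pos h0 _
  obtain ⟨r, hr⟩ := exists_pow_lt_of_lt_one (show (0:ℝ) < 1 / (2 * C) by positivity) h2
  refine ⟨r, ?_⟩
  have h4 : q ^ ((r : ℝ) / C) = (q ^ (1 / C)) ^ r := by
    rw [← Real.rpow_natCast, ← Real.rpow_mul h0.le]
    congr 1; ring
  rw [h4]
  calc C * (q ^ (1 / C)) ^ r ≤ C * (1 / (2 * C)) := by gcongr
    _ = 1 / 2 := by field_simp

theorem arith {c V : ℝ} {a g W t : ℕ} (hV : 0 ≤ V) (h1 : a * g ≤ 2 ^ W * t)
    (h2 : c * 2 ^ W ≤ a) (h3 : V ≤ g) : c * V ≤ t := by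
  have h1' : (a : ℝ) * g ≤ 2 ^ W * t := by exact_mod_cast h1
  have h4 : c * 2 ^ W * V ≤ (a : ℝ) * g :=
    mul_le_mul h2 h3 hV (Nat.cast_nonneg _)
  have h5 : (0 : ℝ) < 2 ^ W := by positivity
  have h6 : 2 ^ W * (c * V) ≤ (2 : ℝ) ^ W * t := by linarith
  exact le_of_mul_le_mul_left h6 h5

open Classical in
theorem t_T1P (hF : S_FLOW) (hT : S_TRAVG) (hE : S_EXT) (hD : S_DCP) (hR : S_RSW) : S_T1P := by
  obtain ⟨C, q, hC, hq0, hq1, hDC⟩ := hD
  obtain ⟨r0, hr0⟩ := exists_r hC hq0 hq1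
  set K0 : ℕ := 4 * (r0 + 4) + 2 with hK0
  obtain ⟨c, hc, hcR⟩ := hR K0 (by omega)
  refine ⟨c / 2, by positivity, ?_⟩
  intro n hn
  set N : ℕ := 2 * n + 1 with hN
  set B : ℕ := 2 * N * (r0 + 4) with hB
  have hB2 : (B : ℤ) % 2 = 0 := by
    rw [hB]; push_cast
    rw [mul_assoc]; exact Int.mul_emod_right 2 _
  have hK : 2 * (B : ℤ) + (2 * n + 1) < ((K0 * N : ℕ) : ℤ) := by
    rw [hB, hK0, hN]; push_cast
    nlinarith
  set P0 : Finset ℕ := (range (2 * N)).filter (fun p => p % 2 = 0) with hP0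
  set En : ℕ := ((Tl (K0 * N) N).powerset.filter (HC 1 (K0 * N))).card with hEn
  let a : ℕ → ℕ := fun p => ((univ : Finset (Fin (2 * n + 1) × Fin (2 * n + 1) → Bool)).filter
    (Gp n B p)).card
  let b : ℕ → ℕ := fun p => ((univ : Finset (Fin (2 * n + 1) × Fin (2 * n + 1) → Bool)).filter
          (fun ω => Gp n B p ω ∧ T1 n (sg n ω) 0 (2 * n + 1))).card
  have hab : ∀ p ∈ P0, En * a p ≤ 2 ^ (Tl (K0 * N) N).card * b p := by
    intro p hp
    rw [hP0, mem_filter] at hp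
    exact step_T1 n hF B hB2 (K0 * N) hK p (by omega)
  -- the number of configurations with one strand
  set t1 : ℕ := ((univ : Finset (Fin (2 * n + 1) × Fin (2 * n + 1) → Bool)).filter
          (fun ω => T1 n (sg n ω) 0 (2 * n + 1))).card with ht1
  set g : ℕ := ((univ : Finset (Fin (2 * n + 1) × Fin (2 * n + 1) → Bool)).filter
          (fun ω => ∃ p ∈ P0, Gp n B p ω)).card with hg
  have hb : ∑ p ∈ P0, b p ≤ t1 := by
    rw [← Finset.card_biUnion]
    · apply Finset.card_le_card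
      intro ω hω
      rw [mem_biUnion] at hω
      obtain ⟨p, -, hω⟩ := hω
      rw [mem_filter] at hω ⊢
      exact ⟨hω.1, hω.2.2⟩
    · intro p hp p' hp' hne
      show Disjoint _ _
      rw [Finset.disjoint_left]
      intro ω h1 h2
      rw [mem_filter] at h1 h2
      obtain ⟨-, ⟨m, q, S, -⟩, p1, -, hu⟩ := h1
      obtain ⟨-, ⟨m', q', S', -⟩, -⟩ := h2
      have e1 := hu p q ⟨m, S.mpos, S.fin, S.inn⟩
      have e2 := hu p' q' ⟨m', S'.mpos, S'.fin, S'.inn⟩
      have e3 : (2 * n + 1 : ℤ) ∣ (p : ℤ) - p' := by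
        have := dvd_sub e1 e2
        rwa [show (p : ℤ) - p1 - ((p' : ℤ) - p1) = p - p' by ring] at this
      obtain ⟨z, hz⟩ := e3
      simp only [hP0, coe_filter, mem_range, Set.mem_ofPred_eq] at hp hp'
      obtain ⟨k, hk⟩ : ∃ k : ℤ, z = 2 * k := by
        have h6 : ((p : ℤ) - p') % 2 = 0 := by omega
        have h7 : ((2 * (n:ℤ) + 1) * z) % 2 = 0 := by rw [← hz]; exact h6
        have h8 : z % 2 = 0 := by
          have : (2 * (n:ℤ) + 1) * z = 2 * (n * z) + z := by ring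
          omega
        exact ⟨z / 2, by omega⟩
      subst hk
      have hk0 : k = 0 := by
        have h9 : (2 * (n:ℤ) + 1) * (2 * k) = (2 * N : ℕ) * k := by
          rw [hN]; push_cast; ring
        rw [h9] at hz
        by_contra hk
        rcases lt_or_gt_of_ne hk with h | h
        · have : ((2 * N : ℕ) : ℤ) * k ≤ -((2 * N : ℕ) : ℤ) := by nlinarith
          omega
        · have : ((2 * N : ℕ) : ℤ) ≤ ((2 * N : ℕ) : ℤ) * k := by nlinarith
          omega
      rw [hk0] at hz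
      apply hne
      have : (p : ℤ) = p' := by simp at hz; linarith
      exact_mod_cast this
  have ha : g ≤ ∑ p ∈ P0, a p := by
    refine le_trans ?_ Finset.card_biUnion_le
    apply Finset.card_le_card
    intro ω hω
    rw [mem_filter] at hω
    obtain ⟨-, p, hp, h⟩ := hω
    rw [mem_biUnion]
    exact ⟨p, hp, mem_filter.2 ⟨mem_univ _, h⟩⟩
  have hmain : En * g ≤ 2 ^ (Tl (K0 * N) N).card * t1 := by
    calc En * g ≤ En * ∑ p ∈ P0, a p := Nat.mul_le_mul_left _ ha
      _ = ∑ p ∈ P0, En * a p := Finset.mul_sum _ _ _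
      _ ≤ ∑ p ∈ P0, 2 ^ (Tl (K0 * N) N).card * b p := Finset.sum_le_sum hab
      _ = 2 ^ (Tl (K0 * N) N).card * ∑ p ∈ P0, b p := (Finset.mul_sum _ _ _).symm
      _ ≤ _ := Nat.mul_le_mul_left _ hb
  -- bounded strands exist with probability at least one half
  have hgood : ∀ ω : Fin (2 * n + 1) × Fin (2 * n + 1) → Bool,
      ¬ DC (2 * n + 1) 0 (2 * n + 1) 1 r0 (sg n ω) → ∃ p ∈ P0, Gp n B p ω := by
    intro ω hω
    obtain ⟨p, q', hp0, hp1, hp2, m, hm, hfin, hinn⟩ := hE n (sg n ω) 0 (2 * n + 1) hn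
      (per_sg n ω) (by omega)
    have S : Sd (sg n ω) (2 * n + 1) p q' m := ⟨by omega, hm, hfin, hinn⟩
    refine ⟨p.toNat, ?_, m, q', ?_, ?_⟩
    · rw [hP0, mem_filter, mem_range]
      omega
    · rw [Int.toNat_of_nonneg hp0]; exact S
    · rw [Int.toNat_of_nonneg hp0]
      intro i hi
      have h1 := range_of hT hn (per_sg n ω) S (by omega) hω hi
      have h2 := ok_near (w_ok (sg n ω) p i)
      rw [abs_lt] at h1
      have h3 : (B : ℤ) = 2 * (2 * n + 1) * (r0 + 2) + 4 * (2 * n + 1) := by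
        rw [hB, hN]; push_cast; ring
      refine ⟨?_, ?_, ?_, ?_⟩ <;> linarith
  have hpd := hDC n (2 * n + 1) 0 (2 * n + 1) 1 1 r0 hn le_rfl le_rfl (by omega)
    (by push_cast; omega) (by push_cast; omega)
  rw [count_eq] at hpd
  change (((univ : Finset (Fin (2 * n + 1) × Fin (2 * n + 1) → Bool)).filter
        (fun ω => DC (2 * n + 1) 0 (2 * n + 1) 1 r0 (sg n ω))).card : ℝ) / _ ≤ _ at hpd
  have hhalf : (1 : ℝ) / 2 * 2 ^ (N * N) ≤ g := by
    have e2 : ((univ : Finset (Fin (2 * n + 1) × Fin (2 * n + 1) → Bool)).filter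
        (fun ω => ¬ DC (2 * n + 1) 0 (2 * n + 1) 1 r0 (sg n ω))).card ≤ g := by
      apply Finset.card_le_card
      intro ω hω
      rw [mem_filter] at hω ⊢
      exact ⟨hω.1, hgood ω hω.2⟩
    have e3 := Finset.card_filter_add_card_filter_not (s := (univ : Finset (Fin (2 * n + 1) ×
      Fin (2 * n + 1) → Bool))) (fun ω => DC (2 * n + 1) 0 (2 * n + 1) 1 r0 (sg n ω))
    have e4 : (univ : Finset (Fin (2 * n + 1) × Fin (2 * n + 1) → Bool)).card = 2 ^ (N * N) := by
      rw [Finset.card_univ, Fintype.card_fun, Fintype.card_prod, Fintype.card_fin,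
        Fintype.card_bool]
    rw [e4] at e3
    have e6 : (((univ : Finset (Fin (2 * n + 1) × Fin (2 * n + 1) → Bool)).filter
        (fun ω => DC (2 * n + 1) 0 (2 * n + 1) 1 r0 (sg n ω))).card : ℝ) ≤ 1 / 2 * 2 ^ (N * N) := by
      have h1 : C * ((1 : ℕ) : ℝ) * q ^ (((r0 : ℕ) : ℝ) / (C * ((1 : ℕ) : ℝ))) ≤ 1 / 2 := by
        simpa using hr0
      have h2 := hpd.trans h1
      rw [div_le_iff₀ (by positivity)] at h2
      exact h2
    have e7 : ((2 ^ (N * N) : ℕ) : ℝ) ≤ 1 / 2 * 2 ^ (N * N) + g := by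
      rw [← e3]
      push_cast
      have : (((univ : Finset (Fin (2 * n + 1) × Fin (2 * n + 1) → Bool)).filter
        (fun ω => ¬ DC (2 * n + 1) 0 (2 * n + 1) 1 r0 (sg n ω))).card : ℝ) ≤ g := by
        exact_mod_cast e2
      linarith
    push_cast at e7
    linarith
  -- conclusion
  have hEc : c * 2 ^ (Tl (K0 * N) N).card ≤ En := by
    have := (hcR N 1 (by omega)).1
    unfold prF at this
    rw [le_div_iff₀ (by positivity)] at this
    exact this
  have hfin : c * (1 / 2 * 2 ^ (N * N)) ≤ t1 := arith (by positivity) hmain hEc hhalf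
  rw [count_eq, le_div_iff₀ (by positivity)]
  change _ ≤ (t1 : ℝ)
  calc c / 2 * 2 ^ ((2 * n + 1) * (2 * n + 1)) = c * (1 / 2 * 2 ^ (N * N)) := by rw [hN]; ring
    _ ≤ t1 := hfin

end Y994.KW
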