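import Pool.Agent.Y994.KW.Stm
import Pool.Agent.Y932.KW.Walk
import Pool.Agent.Y37.KW.XD
import Pool.Agent.Y153.KW.Sym
import Pool.Agent.Y141.KW.Ext
import Pool.Agent.Y665.KW.Flow
import Pool.Agent.Y721.KW.Rsw
import Pool.Agent.Y32.KW.Excl
import Pool.Agent.Y280.KW.BKX
import Pool.Agent.Y961.KW.Dcp
import Pool.Agent.Y941.KW.Tail
import Pool.Agent.Y949.KW.Mom
import Pool.Agent.Y484.KW.Qam
import Pool.Agent.Y290.KW.C
import Pool.Agent.Y781.KW.Trav
import Pool.Agent.Y454.KW.Clt2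
import Pool.Agent.Y994.KW.T1R

/-!
# Project KW: all steps, without hypotheses

The walker: helper932; displacement: helper37; symmetry: helper153; slabs: helper141; stream
functions: helper665; crossings from displacements: helper781; RSW: helper721; exclusion: helper32;
BK inequality: helper280; the cylinder: helper961; composition: helper290; tails: helper941;
moments: helper949; abstract moments: helper484; central limit theorem: helper454; one strand:
helper994.
-/

set_option autoImplicit false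

namespace Y994.KW.All

open Y994.KW

theorem VAL : S_VAL := Pool.Agent.Y932.KW.t_VAL
theorem INJ : S_INJ := Pool.Agent.Y932.KW.t_INJ
theorem INJT : S_INJT := Pool.Agent.Y932.KW.t_INJT
theorem HIT : S_HIT := Pool.Agent.Y932.KW.t_HIT
theorem LOC : S_LOC := Pool.Agent.Y37.KW.loc
theorem XD : S_XD := Pool.Agent.Y37.KW.xd INJ HIT
theorem SYM : S_SYM := Y153.KW.t_SYM HIT VAL INJ LOC
theorem EXT : S_EXT := Y994.KW.t_EXT INJT
theorem T1MONO : S_T1MONO := Y994.KW.t_T1MONO INJT EXT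
theorem T1LOC : Pool.Agent.Y941.KW.S_T1LOC := Y994.KW.t_T1LOC
theorem FLOW : S_FLOW := Y665.KW.t_FLOW
theorem TRAVG : S_TRAVG := Pool.Agent.Y781.KW.t_TRAVG FLOW
theorem RSW : S_RSW := Pool.Agent.Y721.KW.t_RSW
theorem EXCL : S_EXCL := Y32.KW.t_EXCL
theorem BKX : S_BKX := Y280.KW.t_BKX RSW EXCL
theorem DCP : S_DCP := Pool.Agent.Y961.KW.t_DCP BKX
theorem T1P : S_T1P := Y994.KW.t_T1P FLOW TRAVG EXT DCP RSW
theorem COMP : S_COMP := Pool.Agent.Y290.KW.t_COMP VAL INJ HIT TRAVG
theorem TAIL : S_TAIL := Pool.Agent.Y941.KW.t_TAIL COMP DCP T1P LOC T1MONO T1LOC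
theorem TAIL0 : S_TAIL0 := Y949.KW.t_TAIL0 VAL INJ HIT TRAVG DCP
theorem MOM : S_MOM := Y949.KW.t_MOM TAIL TAIL0
theorem QAM : S_QAM := Pool.Agent.Y484.KW.t_QAM
theorem CLT : S_CLT := Pool.Agent.Y454.KW.t_CLT QAM

end Y994.KW.All
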