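import Pool.Agent.Y994.KW.Res

/-!
# Project KW: the main theorem
-/

set_option autoImplicit false

namespace Y994.KW

open Filter Topology MeasureTheory ProbabilityTheory

theorem pth_one (a : ℝ) (y : ℕ → ℝ) (M : ℕ) : pth a y M 1 = a * y M := by
  change a * (y 0 + ∑ i ∈ Finset.range M, (y (i + 1) - y i) *
    max 0 (min 1 (((1 : unitInterval) : ℝ) * M - i))) = a * y M
  have h : ∀ i ∈ Finset.range M, (y (i + 1) - y i) *
      max 0 (min 1 (((1 : unitInterval) : ℝ) * M - i)) = y (i + 1) - y i := by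
    intro i hi
    rw [Finset.mem_range] at hi
    have h1 : (i : ℝ) + 1 ≤ M := by exact_mod_cast hi
    rw [show (((1 : unitInterval) : ℝ)) = 1 from rfl, one_mul, min_eq_left (by linarith),
      max_eq_right (by norm_num), mul_one]
  rw [Finset.sum_congr rfl h, Finset.sum_range_sub]
  ring

theorem rst_self {α : Type} [Nonempty α] {M : ℕ} (c : Fin M → α) : rst M c = c := by
  funext t
  unfold rst
  rw [dif_pos t.2]

open Classical in
/-- the laws of real functions of words converge: convergence of the tails -/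
theorem tail_conv (α : ℕ → Type) [∀ i, Fintype (α i)] [∀ i, Nonempty (α i)] (M : ℕ → ℕ)
    (Z : ∀ i, (Fin (M i) → α i) → ℝ) (ν : ProbabilityMeasure ℝ) [NullSingletonClass (ν : Measure ℝ)]
    (h : ∀ F : BoundedContinuousFunction ℝ ℝ,
      Tendsto (fun i => Ea (M i) (fun c => F (Z i c))) atTop (𝓝 (∫ x, F x ∂(ν : Measure ℝ))))
    (x : ℝ) : Tendsto (fun i => Ea (M i) (fun c => if x ≤ Z i c then (1 : ℝ) else 0)) atTop
      (𝓝 ((ν : Measure ℝ).real (Set.Ici x))) := by
  have h1 : Tendsto (fun i => lwp (M i) (Z i)) atTop (𝓝 ν) := by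
    rw [ProbabilityMeasure.tendsto_iff_forall_integral_tendsto]
    intro F
    refine (h F).congr fun i => ?_
    exact (lw_int (M i) (Z i) F).symm
  have h2 := ProbabilityMeasure.tendsto_measure_of_null_frontier_of_tendsto' h1
    (E := Set.Ici x) (by
      rw [frontier_Ici]
      exact measure_singleton x)
  have h3 := (ENNReal.tendsto_toReal (measure_ne_top (ν : Measure ℝ) (Set.Ici x))).comp h2
  refine h3.congr fun i => ?_
  have h4 := lw_int (M i) (Z i) (Set.indicator (Set.Ici x) (fun _ => (1 : ℝ)))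
  rw [integral_indicator_const _ measurableSet_Ici, smul_eq_mul, mul_one] at h4
  change (lw (M i) (Z i)).real (Set.Ici x) = _
  rw [h4]
  congr 1

/-- integration of the final value -/
theorem bm_int (W : Measure Pa) (hW : IsBM 1 W) (F : BoundedContinuousFunction ℝ ℝ) :
    ∫ w, F (√6 * (w : Pa) 1) ∂W = ∫ x, F x ∂(gaussianReal 0 6) := by
  have h1 := bm_one W hW
  have h2 : ∫ w, F (√6 * (w : Pa) 1) ∂W = ∫ x, F (√6 * x) ∂(gaussianReal 0 1) := by
    rw [← h1, integral_map (by fun_prop : Continuous fun w : Pa => w 1).measurable.aemeasurable]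
    exact (by fun_prop : Continuous fun x : ℝ => F (√6 * x)).measurable.aestronglyMeasurable
  have h3 : (gaussianReal 0 1).map (fun x => √6 * x) = gaussianReal 0 6 := by
    rw [gaussianReal_map_const_mul]
    congr 1
    · simp
    · ext
      simp
  rw [h2, ← h3, integral_map (by fun_prop)]
  exact F.continuous.measurable.aestronglyMeasurable

/-- the diffusivity in angular units -/
noncomputable def kap (D : ℕ → ℝ) (n : ℕ) : ℝ := 2 * Real.pi * D n / (2 * n + 1)

theorem kap_pos (hX : S_XD) (hS : S_SYM) (hP : S_DPOS) {D : ℕ → ℝ} {K : ℝ} (hD : Dif D K) (n : ℕ)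
    (hn : 1 ≤ n) : 0 < kap D n := by
  have := D_pos hX hS hP hD n hn
  unfold kap
  positivity

theorem kap_lim {D : ℕ → ℝ} {K : ℝ} (hD : Dif D K) : Tendsto (kap D) atTop (𝓝 6) := by
  have h1 : Tendsto (fun n : ℕ => K / (2 * (n : ℝ) + 1)) atTop (𝓝 0) := by
    refine Tendsto.div_atTop tendsto_const_nhds ?_
    refine tendsto_atTop_add_const_right _ _ ?_
    exact Tendsto.const_mul_atTop (by norm_num) tendsto_natCast_atTop_atTop
  have h2 : Tendsto (fun n : ℕ => kap D n - 6) atTop (𝓝 0) :=
    squeeze_zero_norm (fun n => hD.six n) h1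
  have h3 := h2.add_const 6
  simpa using h3

open Classical in
theorem main (hI : S_INV) (hC : S_CRS) (hX : S_XD) (hS : S_SYM) (hM : S_MOM) (hP : S_DPOS)
    (hO : S_OSC) {D : ℕ → ℝ} {K : ℝ} (hD : Dif D K) : ∃ W : Measure Pa, IsBM 1 W ∧
    (∀ n M : ℕ → ℕ, (∀ i, 1 ≤ n i) → Tendsto (fun i => (M i : ℝ) / (2 * n i + 1)) atTop atTop →
      ∀ F : BoundedContinuousFunction Pa ℝ, Tendsto (fun i => H906K.Ex (n i) (M i)
        (fun c => F ((1 / √(kap D (n i))) • wnd (n i) (M i) c))) atTop (𝓝 (∫ w, F w ∂W))) ∧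
    ∀ n M : ℕ → ℕ, Tendsto n atTop atTop →
      Tendsto (fun i => (M i : ℝ) / (2 * n i + 1)) atTop atTop →
      (∀ F : BoundedContinuousFunction Pa ℝ, Tendsto (fun i => H906K.Ex (n i) (M i)
        (fun c => F (wnd (n i) (M i) c))) atTop (𝓝 (∫ w, F (√6 • w) ∂W))) ∧
      ∀ x : ℝ, Tendsto (fun i => H906K.Ex (n i) (M i) (fun c =>
        if ∃ p : ℤ, x * √((2 * n i + 1) * M i / (2 * Real.pi)) ≤ p ∧
          Con (n i) (M i) c (0, 0) (p, (M i : ℤ)) then (1 : ℝ) else 0)) atTop
        (𝓝 ((gaussianReal 0 6).real (Set.Ici x))) := by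
  obtain ⟨b, δ, hb, hδ, hF⟩ := fam_inst hX hS hM hP hO hD
  have hpi := Real.pi_pos
  -- the base sequence
  have hbase : Tendsto (fun i : ℕ => (((2 * (i + 1) + 1) * i : ℕ) : ℝ) / (2 * ((i + 1 : ℕ) : ℝ) + 1))
      atTop atTop := by
    refine tendsto_natCast_atTop_atTop.congr fun i => ?_
    push_cast
    field_simp
  obtain ⟨W, hW, hlim⟩ := hI δ hδ _ _ _ _ _ _ (hF (fun i => i + 1) (fun i => (2 * (i + 1) + 1) * i)
    (fun i => by omega) hbase)
  have hWp : IsProbabilityMeasure W := hW.1
  obtain ⟨Wp, rfl⟩ : ∃ Wp : ProbabilityMeasure Pa, (Wp : Measure Pa) = W := ⟨⟨W, hWp⟩, rfl⟩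
  obtain ⟨G, hG⟩ : ∃ G : ProbabilityMeasure ℝ, (G : Measure ℝ) = gaussianReal 0 6 :=
    ⟨⟨gaussianReal 0 6, inferInstance⟩, rfl⟩
  have hkp := kap_pos hX hS hP hD
  refine ⟨Wp, hW, ?_, ?_⟩
  · intro n M hn hM F
    refine (hlim _ _ _ _ _ _ (hF n M hn hM) F).congr fun i => ?_
    rw [Ea_eq]
    congr 1
    funext c
    rw [wnd_eq hC (n i) (M i) (hn i) (D (n i)) (D_pos hX hS hP hD (n i) (hn i)) c, smul_smul]
    have : 1 / √(kap D (n i)) * √(2 * Real.pi * D (n i) / (2 * n i + 1)) = 1 := by
      have h1 := hkp (n i) (hn i)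
      rw [show 2 * Real.pi * D (n i) / (2 * (n i : ℝ) + 1) = kap D (n i) from rfl]
      have h2 := Real.sqrt_pos.2 h1
      field_simp
    rw [this, one_smul]
  · intro n M hn hM
    -- the sequence with positive `n`
    set n' : ℕ → ℕ := fun i => max (n i) 1 with hn'
    have hn1 : ∀ i, 1 ≤ n' i := fun i => le_max_right _ _
    have hev : ∀ᶠ i in atTop, n i = n' i := by
      filter_upwards [hn.eventually_ge_atTop 1] with i hi
      exact (max_eq_left hi).symm
    have hn2 : Tendsto n' atTop atTop := hn.congr' hev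
    have hM' : Tendsto (fun i => (M i : ℝ) / (2 * n' i + 1)) atTop atTop := by
      refine hM.congr' ?_
      filter_upwards [hev] with i hi
      rw [← hi]
    have hfam := hF n' M hn1 hM'
    set P : ℕ → ProbabilityMeasure Pa := fun i => lwp (M i)
      (fun c : Fin (M i) → Fin (2 * n' i + 1) → Bool => pth (1 / √(D (n' i) * M i))
        (Yr (fun M (c : Fin M → Fin (2 * n' i + 1) → Bool) => (X (n' i) M c : ℝ)) c) (M i)) with hPdef
    have hPlim : Tendsto P atTop (𝓝 Wp) := by
      rw [ProbabilityMeasure.tendsto_iff_forall_integral_tendsto]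
      intro F
      refine (hlim _ _ _ _ _ _ hfam F).congr fun i => ?_
      exact (lw_int (M i) _ F).symm
    have hka : Tendsto (fun i => √(kap D (n' i))) atTop (𝓝 √6) :=
      (Real.continuous_sqrt.tendsto 6).comp ((kap_lim hD).comp hn2)
    have hwnd : ∀ i, ∀ c : Fin (M i) → Fin (2 * n' i + 1) → Bool, wnd (n' i) (M i) c =
        √(kap D (n' i)) • pth (1 / √(D (n' i) * M i))
          (Yr (fun M (c : Fin M → Fin (2 * n' i + 1) → Bool) => (X (n' i) M c : ℝ)) c) (M i) := by
      intro i c
      exact wnd_eq hC (n' i) (M i) (hn1 i) (D (n' i)) (D_pos hX hS hP hD (n' i) (hn1 i)) c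
    refine ⟨fun F => ?_, fun x => ?_⟩
    · have h1 := scal_gen P Wp hPlim (fun i => √(kap D (n' i))) (√6) hka
        (fun z : ℝ × Pa => z.1 • z.2) (by fun_prop) F
      refine h1.congr' ?_
      filter_upwards [hev] with i hi
      rw [hi, ← Ea_eq]
      change ∫ w, F (√(kap D (n' i)) • w) ∂(lw (M i) _) = _
      rw [lw_int (M i) _ (fun w => F (√(kap D (n' i)) • w))]
      congr 1
      funext c
      rw [hwnd]
    · -- the final values
      have hs : Tendsto (fun i => 2 * (n' i : ℝ) / √((2 * n' i + 1) * M i / (2 * Real.pi))) atTop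
          (𝓝 0) := by
        have h1 : Tendsto (fun i => √(2 * Real.pi / ((M i : ℝ) / (2 * n' i + 1)))) atTop (𝓝 0) := by
          have := (Real.continuous_sqrt.tendsto 0).comp
            ((tendsto_const_nhds (x := 2 * Real.pi)).div_atTop hM')
          rw [Real.sqrt_zero] at this
          exact this
        refine squeeze_zero' (Eventually.of_forall fun i => by positivity) ?_ h1
        filter_upwards [hM'.eventually_gt_atTop 0] with i hi
        have hN : (0 : ℝ) < 2 * (n' i : ℝ) + 1 := by positivity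
        have hMi : (0 : ℝ) < M i := by
          by_contra h
          push Not at h
          have : (M i : ℝ) / (2 * n' i + 1) ≤ 0 := div_nonpos_of_nonpos_of_nonneg h hN.le
          linarith
        have e1 : √(2 * Real.pi / ((M i : ℝ) / (2 * n' i + 1))) =
            (2 * n' i + 1) / √((2 * n' i + 1) * M i / (2 * Real.pi)) := by
          rw [eq_div_iff (by positivity), ← Real.sqrt_mul (by positivity)]
          rw [show 2 * Real.pi / ((M i : ℝ) / (2 * n' i + 1)) *
            ((2 * n' i + 1) * M i / (2 * Real.pi)) = (2 * (n' i : ℝ) + 1) ^ 2 by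
              field_simp]
          exact Real.sqrt_sq hN.le
        rw [e1]
        gcongr
        linarith
      set Z : ∀ i, (Fin (M i) → Fin (2 * n' i + 1) → Bool) → ℝ := fun i c =>
        ((X (n' i) (M i) c : ℝ) + 2 * n' i) / √((2 * n' i + 1) * M i / (2 * Real.pi)) with hZ
      have hZF : ∀ F : BoundedContinuousFunction ℝ ℝ, Tendsto (fun i => Ea (M i)
          (fun c => F (Z i c))) atTop
          (𝓝 (∫ x, F x ∂(G : Measure ℝ))) := by
        intro F
        have h1 := scal_gen P Wp hPlim (fun i => (√(kap D (n' i)),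
          2 * (n' i : ℝ) / √((2 * n' i + 1) * M i / (2 * Real.pi)))) (√6, 0)
          (hka.prodMk_nhds hs) (fun z : (ℝ × ℝ) × Pa => z.1.1 * z.2 1 + z.1.2) (by fun_prop) F
        have h2 : ∫ w, F (√6 * (w : Pa) 1 + 0) ∂(Wp : Measure Pa) =
            ∫ x, F x ∂(gaussianReal 0 6) := by
          simp only [add_zero]
          exact bm_int _ hW F
        rw [hG, ← h2]
        refine h1.congr' ?_
        filter_upwards [hM'.eventually_gt_atTop 0] with i hi
        change ∫ w : Pa, F (√(kap D (n' i)) * w 1 +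
          2 * (n' i : ℝ) / √((2 * n' i + 1) * M i / (2 * Real.pi))) ∂(lw (M i) _) = _
        rw [lw_int (M i) _ (fun w : Pa => F (√(kap D (n' i)) * w 1 +
          2 * (n' i : ℝ) / √((2 * n' i + 1) * M i / (2 * Real.pi))))]
        congr 1
        funext c
        congr 1
        rw [pth_one, hZ]
        have hN : (0 : ℝ) < 2 * (n' i : ℝ) + 1 := by positivity
        have hMi : (0 : ℝ) < M i := by
          by_contra h
          push Not at h
          have : (M i : ℝ) / (2 * n' i + 1) ≤ 0 := div_nonpos_of_nonpos_of_nonneg h hN.le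
          linarith
        have hDi := D_pos hX hS hP hD (n' i) (hn1 i)
        have e2 : √(kap D (n' i)) * (1 / √(D (n' i) * M i)) =
            1 / √((2 * n' i + 1) * M i / (2 * Real.pi)) := by
          unfold kap
          rw [mul_one_div, ← Real.sqrt_div (by positivity), ← Real.sqrt_one,
            ← Real.sqrt_div (by norm_num)]
          congr 1
          rw [Real.sqrt_one]
          field_simp
        have e3 : Yr (fun M (c : Fin M → Fin (2 * n' i + 1) → Bool) => (X (n' i) M c : ℝ)) c (M i) =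
            (X (n' i) (M i) c : ℝ) := by
          unfold Yr
          rw [rst_self]
        rw [e3, ← mul_assoc, e2]
        ring
      have hna : NullSingletonClass (G : Measure ℝ) := by
        rw [hG]
        exact nullSingletonClass_gaussianReal (by norm_num)
      have h5 := tail_conv (fun i => Fin (2 * n' i + 1) → Bool) M Z
        G hZF x
      rw [hG] at h5
      refine h5.congr' ?_
      filter_upwards [hev, hM'.eventually_gt_atTop 0] with i hi hi2
      rw [hi, ← Ea_eq]
      congr 1
      funext c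
      have hN : (0 : ℝ) < 2 * (n' i : ℝ) + 1 := by positivity
      have hMi : (0 : ℝ) < M i := by
        by_contra h
        push Not at h
        have : (M i : ℝ) / (2 * n' i + 1) ≤ 0 := div_nonpos_of_nonpos_of_nonneg h hN.le
        linarith
      have hsq : 0 < √((2 * n' i + 1) * M i / (2 * Real.pi)) := by positivity
      obtain ⟨-, hc2, hc3⟩ := hC (n' i) (M i) c (hn1 i)
      have hiff : x ≤ Z i c ↔ ∃ p : ℤ, x * √((2 * n' i + 1) * M i / (2 * Real.pi)) ≤ p ∧
          Con (n' i) (M i) c (0, 0) (p, (M i : ℤ)) := by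
        rw [hZ]
        simp only
        rw [le_div_iff₀ hsq]
        constructor
        · intro h
          refine ⟨X (n' i) (M i) c + 2 * n' i, ?_, hc2⟩
          push_cast
          exact h
        · rintro ⟨p, hp1, hp2⟩
          refine hp1.trans ?_
          exact_mod_cast (hc3 p hp2).2
      by_cases hx : x ≤ Z i c
      · rw [if_pos hx, if_pos (hiff.1 hx)]
      · rw [if_neg hx, if_neg (fun h => hx (hiff.2 h))]

end Y994.KW
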