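import Pool.Agent.Y994.KW.All
import Pool.Agent.Y994.KW.Main
import Pool.Agent.H70KW.Pos
import Pool.Agent.Y256.KW.Crs
import Pool.Agent.Y475.KW.Osct
import Pool.Agent.Y475.KW.Osc
import Pool.Agent.Y319.KW.Fdd
import Pool.Agent.Y495.KW.Modu
import Pool.Agent.Y473.KW.Modp
import Pool.Agent.Y606.KW.Tight
import Pool.Agent.Y454.KW.Bmc
import Pool.Agent.Y872.KW.Don
import Pool.Agent.Y286.KW.Inv
import Pool.Agent.H906R3.K6.Final

/-!
# Project KW: all steps of part two, without hypotheses

Nondegeneracy: helper70; crossings and the interface: helper256; oscillations: helper475;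
characteristic functions of increments: helper319; chaining: helper495; polygonal paths: helper473;
tightness: helper606; characteristic functions and laws: helper454; convergence: helper872;
invariance principle: helper286; exact diffusivity: starting library H906R3.K6.
-/

set_option autoImplicit false

namespace Y994.KW.All

open Y994.KW

theorem DPOS : S_DPOS := Pool.Agent.H70KW.t_DPOS H906K.final.1
theorem CRS : S_CRS := Pool.Agent.Y256.KW.t_CRS FLOW VAL HIT
theorem OSCT : S_OSCT := Pool.Agent.Y475.KW.t_OSCT VAL INJ HIT TRAVG COMP DCP T1P LOC T1MONO T1LOC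
theorem OSC : S_OSC := Pool.Agent.Y475.KW.t_OSC OSCT LOC
theorem FDD : S_FDD := Pool.Agent.Y319.KW.t_FDD QAM CLT
theorem MODU : S_MODU := Pool.Agent.Y495.KW.t_MODU QAM
theorem MODP : S_MODP := Pool.Agent.Y473.KW.t_MODP MODU
theorem TIGHT : S_TIGHT := Pool.Agent.Y606.KW.t_TIGHT
theorem BMC : S_BMC := Pool.Agent.Y454.KW.t_BMC
theorem DON : S_DON := Y872.KW.t_DON TIGHT BMC
theorem INV : S_INV := Y286.KW.t_INV FDD MODP DON

end Y994.KW.All
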