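import Mathlib
import Pool.Agent.H906R3.K6.Model

/-!
# Project KW: Brownian winding of the percolation interface on cylinders of odd circumference

Definitions.  Corners of the tiles are points of `Z x Z`, the tile `(j,t)` is the unit square with lower
left corner `(j,t)`.  In the state `false` its diagonal `(j,t) - (j+1,t+1)` is open, in the state
`true` its diagonal `(j+1,t) - (j,t+1)`.  A walker follows the strands of the medial lattice; its state
is the pair (corner on its left, corner on its right) of the edge which it crosses.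
-/

set_option autoImplicit false

namespace Y994.KW

/-- corners -/
abbrev Pt : Type := ℤ × ℤ

/-- states of the walker: (corner on the left, corner on the right) -/
abbrev St : Type := Pt × Pt

/-- configurations of the plane -/
abbrev Cfg : Type := ℤ → ℤ → Bool

/-- the configuration is periodic with period `2 n + 1` in the horizontal direction -/
def Per (n : ℕ) (σ : Cfg) : Prop := ∀ j t : ℤ, σ (j + (2 * n + 1)) t = σ j t

/-- the diagonal from `x` to `y` is open -/
def Op (σ : Cfg) (x y : Pt) : Prop :=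
  (y = x + (1, 1) ∧ σ x.1 x.2 = false) ∨ (x = y + (1, 1) ∧ σ y.1 y.2 = false) ∨
  (y = x + (-1, 1) ∧ σ y.1 x.2 = true) ∨ (x = y + (-1, 1) ∧ σ x.1 y.2 = true)

/-- rotation by 90 degrees counterclockwise -/
def rot (v : Pt) : Pt := (-v.2, v.1)

/-- the tile in front of the walker (lower left corner); the walker moves in the direction
`rot (s.2 - s.1)` -/
def tl (s : St) : Pt :=
  (min s.1.1 s.2.1 + min (rot (s.2 - s.1)).1 0, min s.1.2 s.2.2 + min (rot (s.2 - s.1)).2 0)

/-- one step of the walker: it turns to the right if the diagonal from the corner on the left is open,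
and to the left otherwise -/
def nxt (σ : Cfg) (s : St) : St :=
  if σ (tl s).1 (tl s).2 = decide (s.1.1 = s.2.1) then (s.2 + rot (s.2 - s.1), s.2)
  else (s.1, s.1 + rot (s.2 - s.1))

/-- the walker crosses the bottom edge of the tile `(q,t)` upwards -/
def up (q t : ℤ) : St := ((q, t), (q + 1, t))

/-- the walker crosses the bottom edge of the tile `(q,t)` downwards -/
def dn (q t : ℤ) : St := ((q + 1, t), (q, t))

/-- the reversed state -/
def rev (s : St) : St := (s.2, s.1)

/-- horizontal translation -/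
def sh (z : ℤ) (s : St) : St := ((s.1.1 + z, s.1.2), (s.2.1 + z, s.2.2))

/-- the walker on the cylinder `t ≥ a`, at the level `a` the edges `2i`, `2i+1`, `i < n`, of every
period `2n+1` are joined in pairs -/
def wk (n : ℕ) (a : ℤ) (σ : Cfg) (s : St) : St :=
  if s.1.2 = a ∧ s.2.2 = a ∧ s.1.1 = s.2.1 + 1 then
    (if (s.2.1 % (2 * n + 1)) % 2 = 0 then (s.1, (s.2.1 + 2, a)) else ((s.1.1 - 2, a), s.2))
  else nxt σ s

/-- the interface: the orbit which starts at the unpaired edge `2n` of the level `a` -/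
def orb (n : ℕ) (a : ℤ) (σ : Cfg) (i : ℕ) : St := (wk n a σ)^[i] (up (2 * n) a)

/-- the interface reaches the level `b` for the first time after `i` steps, with displacement `X` -/
def Hit (n : ℕ) (a b : ℤ) (σ : Cfg) (i : ℕ) (X : ℤ) : Prop :=
  orb n a σ i = up (2 * n + X) b ∧ ∀ k : ℕ, k < i → ∀ q : ℤ, orb n a σ k ≠ up q b

open Classical in
/-- the displacement of the interface between the levels `a` and `b` -/
noncomputable def dsp (n : ℕ) (a b : ℤ) (σ : Cfg) : ℤ :=
  if h : ∃ X : ℤ, ∃ i : ℕ, Hit n a b σ i X then Classical.choose h else 0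

/-- the state is strictly between the levels `u` and `v` -/
def Inn (u v : ℤ) (s : St) : Prop := 2 * u < s.1.2 + s.2.2 ∧ s.1.2 + s.2.2 < 2 * v

/-- the strand which enters the slab between the levels `u` and `v` at the bottom edge `p` leaves it at
the top edge `q` -/
def Thr (σ : Cfg) (u v p q : ℤ) : Prop :=
  ∃ m : ℕ, 0 < m ∧ (nxt σ)^[m] (up p u) = up q v ∧
    ∀ i : ℕ, 0 < i → i < m → Inn u v ((nxt σ)^[i] (up p u))

/-- exactly one strand per period crosses the slab -/
def T1 (n : ℕ) (σ : Cfg) (u v : ℤ) : Prop :=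
  ∃ p : ℤ, (∃ q : ℤ, Thr σ u v p q) ∧
    ∀ p' q' : ℤ, Thr σ u v p' q' → (2 * n + 1 : ℤ) ∣ p' - p

/-- the state consists of neighbouring corners -/
def Ok (s : St) : Prop := ∃ q t : ℤ, s = up q t ∨ s = dn q t ∨ s = ((q, t), (q, t + 1)) ∨
  s = ((q, t + 1), (q, t))

/-- a step inside a tile, in any configuration: to the right or to the left -/
def Stp (s s' : St) : Prop := s' = (s.2 + rot (s.2 - s.1), s.2) ∨ s' = (s.1, s.1 + rot (s.2 - s.1))

/-- the tiles of the rectangle `[x0,x1] x [u,v]` -/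
def TR (x0 x1 u v : ℤ) : Set Pt := {τ | x0 ≤ τ.1 ∧ τ.1 < x1 ∧ u ≤ τ.2 ∧ τ.2 < v}

/-- the corners of the rectangle `[x0,x1] x [u,v]` -/
def CR (x0 x1 u v : ℤ) : Set Pt := {x | x0 ≤ x.1 ∧ x.1 ≤ x1 ∧ u ≤ x.2 ∧ x.2 ≤ v}

open Classical in
/-- the flow of the path `s 0, …, s k` across the edge between the corners `x`, `y` -/
noncomputable def fl (s : ℕ → St) (k : ℕ) (x y : Pt) : ℤ :=
  (((Finset.range (k + 1)).filter (fun i => s i = (x, y))).card : ℤ)
    - (((Finset.range (k + 1)).filter (fun i => s i = (y, x))).card : ℤ)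

/-- `x` has the parity `ε` -/
def Pty (ε : ℤ) (x : Pt) : Prop := (x.1 + x.2 - ε) % 2 = 0

/-- the set `P` of corners contains an open crossing of the columns `0 ≤ j ≤ N` -/
def CrP (N : ℤ) (σ : Cfg) (P : Set Pt) : Prop :=
  ∃ x ∈ P, ∃ y ∈ P, x.1 = 0 ∧ y.1 = N ∧
    Relation.ReflTransGen (fun a b => a ∈ P ∧ b ∈ P ∧ Op σ a b) x y

/-- the rectangle of corners of parity `ε` -/
def Rc (N u v ε : ℤ) : Set Pt := {x | 0 ≤ x.1 ∧ x.1 ≤ N ∧ u ≤ x.2 ∧ x.2 ≤ v ∧ Pty ε x}

/-- `r` disjoint horizontal crossings of parity `ε` of the rectangle `[0,N] x [u,v]` -/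
def DC (N u v ε : ℤ) (r : ℕ) (σ : Cfg) : Prop :=
  ∃ P : Fin r → Set Pt, (∀ i, P i ⊆ Rc N u v ε) ∧ (∀ i j, i ≠ j → Disjoint (P i) (P j)) ∧
    ∀ i, CrP N σ (P i)

/-! ## sets of tiles -/

/-- the tiles of the rectangle `[0,w] x [0,h]` -/
def Tl (w h : ℕ) : Finset Pt :=
  (Finset.range w ×ˢ Finset.range h).image (fun p => ((p.1 : ℤ), (p.2 : ℤ)))

/-- `x`, `y` are joined by the diagonal of parity `ε` of a tile of `F` -/
def OB (ε : ℤ) (F : Finset Pt) (x y : Pt) : Prop :=
  Pty ε x ∧ Pty ε y ∧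
  ((y = x + (1, 1) ∧ x ∈ F) ∨ (x = y + (1, 1) ∧ y ∈ F) ∨
   (y = x + (-1, 1) ∧ (y.1, x.2) ∈ F) ∨ (x = y + (-1, 1) ∧ (x.1, y.2) ∈ F))

/-- horizontal crossing of the columns `0 ≤ j ≤ w` by diagonals of parity `ε` -/
def HC (ε : ℤ) (w : ℕ) (F : Finset Pt) : Prop :=
  ∃ x y : Pt, x.1 = 0 ∧ y.1 = w ∧ Relation.ReflTransGen (OB ε F) x y

/-- vertical crossing of the rows `0 ≤ t ≤ h` by diagonals of parity `ε` -/
def VC (ε : ℤ) (h : ℕ) (F : Finset Pt) : Prop :=
  ∃ x y : Pt, x.2 = 0 ∧ y.2 = h ∧ Relation.ReflTransGen (OB ε F) x y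

open Classical in
/-- proportion of the subsets of `S` with the property `A` -/
noncomputable def prF (S : Finset Pt) (A : Finset Pt → Prop) : ℝ :=
  ((S.powerset.filter A).card : ℝ) / 2 ^ S.card

/-! ## the cylinder -/

/-- the configuration of the plane given by `M` rows of the cylinder -/
def cfg (n M : ℕ) (c : Fin M → Fin (2 * n + 1) → Bool) : Cfg := fun j t =>
  if h : 0 ≤ t ∧ t < M then c ⟨t.toNat, by omega⟩ (H906K.jx (2 * n) j) else false

open Classical in
/-- probability for independent fair tiles -/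
noncomputable def pr (n M : ℕ) (A : (Fin M → Fin (2 * n + 1) → Bool) → Prop) : ℝ :=
  H906K.Ex n M (fun c => if A c then 1 else 0)

/-- displacement of the interface in `M` rows -/
noncomputable def X (n M : ℕ) (c : Fin M → Fin (2 * n + 1) → Bool) : ℤ := dsp n 0 M (cfg n M c)

end Y994.KW
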