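import Pool.Agent.Y994.KW.Hgt

/-!
# A slab in which a crossing joins a strand to its translate is crossed by one strand
-/

set_option autoImplicit false

namespace Y994.KW

open Finset

/-- `x` is a corner of the tile `τ` -/
def Cn (τ x : Pt) : Prop := (x.1 = τ.1 ∨ x.1 = τ.1 + 1) ∧ (x.2 = τ.2 ∨ x.2 = τ.2 + 1)

/-- `a`, `b` are opposite corners of the tile `τ` -/
def Dg (a b τ : Pt) : Prop := (b = a + (1, 1) ∧ τ = a) ∨ (a = b + (1, 1) ∧ τ = b) ∨
  (b = a + (-1, 1) ∧ τ = (b.1, a.2)) ∨ (a = b + (-1, 1) ∧ τ = (a.1, b.2))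

/-- the tile `τ` is visited by the strand -/
def Vs (σ : Cfg) (p : ℤ) (m : ℕ) (τ : Pt) : Prop := ∃ i < m, tl (w σ p i) = τ

theorem cn_tl {s : St} (h : Ok s) : Cn (tl s) s.1 ∧ Cn (tl s) s.2 := by
  obtain ⟨q, t, h | h | h | h⟩ := ok_cases h <;> subst h
  · rw [tl_up]; simp [Cn]
  · rw [tl_dn]; simp [Cn]
  · rw [tl_lf]; simp [Cn]
  · rw [tl_rt]; simp [Cn]

theorem dg_cn {a b τ : Pt} (h : Dg a b τ) : Cn τ a ∧ Cn τ b := by
  unfold Cn
  rcases h with ⟨h1, h2⟩ | ⟨h1, h2⟩ | ⟨h1, h2⟩ | ⟨h1, h2⟩ <;> subst h1 h2 <;> simp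

theorem op_pty {σ : Cfg} {a b : Pt} (h : Op σ a b) (ε : ℤ) : Pty ε a ↔ Pty ε b := by
  unfold Pty
  rcases h with ⟨h1, -⟩ | ⟨h1, -⟩ | ⟨h1, -⟩ | ⟨h1, -⟩ <;> subst h1 <;> simp <;> omega

theorem dg_pty {a b τ : Pt} (h : Dg a b τ) (ε : ℤ) : Pty ε a ↔ Pty ε b := by
  unfold Pty
  rcases h with ⟨h1, -⟩ | ⟨h1, -⟩ | ⟨h1, -⟩ | ⟨h1, -⟩ <;> subst h1 <;> simp <;> omega

theorem op_sh {n : ℕ} {σ : Cfg} (hσ : Per n σ) (z : ℤ) {a b : Pt} (h : Op σ a b) :
    Op σ (a.1 + (2 * n + 1) * z, a.2) (b.1 + (2 * n + 1) * z, b.2) := by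
  rcases h with ⟨h1, h2⟩ | ⟨h1, h2⟩ | ⟨h1, h2⟩ | ⟨h1, h2⟩ <;> subst h1
  · exact Or.inl ⟨by ext <;> simp; ring, by simp only; rwa [per_mul hσ]⟩
  · exact Or.inr (Or.inl ⟨by ext <;> simp; ring, by simp only; rwa [per_mul hσ]⟩)
  · exact Or.inr (Or.inr (Or.inl ⟨by ext <;> simp; ring, by simp only; rwa [per_mul hσ]⟩))
  · exact Or.inr (Or.inr (Or.inr ⟨by ext <;> simp; ring, by simp only; rwa [per_mul hσ]⟩))

/-- if a diagonal is closed, the other one is open -/
theorem other {σ : Cfg} {a b τ e e' : Pt} (h : Dg a b τ) (hc : ¬ Op σ a b) (ha : Pty 1 a)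
    (h1 : Cn τ e) (h2 : Cn τ e') (h3 : Pty 0 e) (h4 : Pty 0 e') : e = e' ∨ Op σ e e' := by
  obtain ⟨a1, a2⟩ := a
  obtain ⟨b1, b2⟩ := b
  obtain ⟨t1, t2⟩ := τ
  obtain ⟨e1, e2⟩ := e
  obtain ⟨f1, f2⟩ := e'
  unfold Cn at h1 h2
  unfold Pty at ha h3 h4
  simp only at h1 h2 ha h3 h4
  unfold Dg at h
  unfold Op at hc ⊢
  simp only [Prod.mk.injEq, Prod.mk_add_mk] at h hc ⊢
  have hb : ∀ x : Bool, x ≠ false → x = true := by intro x; cases x <;> simp
  have hb' : ∀ x : Bool, x ≠ true → x = false := by intro x; cases x <;> simp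
  rcases h with ⟨⟨g1, g2⟩, g3, g4⟩ | ⟨⟨g1, g2⟩, g3, g4⟩ | ⟨⟨g1, g2⟩, g3, g4⟩ | ⟨⟨g1, g2⟩, g3, g4⟩ <;>
    subst g1 g2 g3 g4
  · have h5 : σ t1 t2 = true := hb _ (fun h => hc (Or.inl ⟨⟨rfl, rfl⟩, h⟩))
    obtain ⟨r1 | r1, r2 | r2⟩ := h1 <;> obtain ⟨s1 | s1, s2 | s2⟩ := h2 <;> subst r1 r2 s1 s2 <;>
      first
      | (exfalso; omega)
      | (left; exact ⟨rfl, rfl⟩)
      | (right; right; right; left; exact ⟨⟨by ring, rfl⟩, by simpa using h5⟩)
      | (right; right; right; right; exact ⟨⟨by ring, rfl⟩, by simpa using h5⟩)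
  · have h5 : σ t1 t2 = true := hb _ (fun h => hc (Or.inr (Or.inl ⟨⟨rfl, rfl⟩, h⟩)))
    obtain ⟨r1 | r1, r2 | r2⟩ := h1 <;> obtain ⟨s1 | s1, s2 | s2⟩ := h2 <;> subst r1 r2 s1 s2 <;>
      first
      | (exfalso; omega)
      | (left; exact ⟨rfl, rfl⟩)
      | (right; right; right; left; exact ⟨⟨by ring, rfl⟩, by simpa using h5⟩)
      | (right; right; right; right; exact ⟨⟨by ring, rfl⟩, by simpa using h5⟩)
  · have h5 : σ (a1 + -1) _ = false := hb' _ (fun h => hc (Or.inr (Or.inr (Or.inl ⟨⟨rfl, rfl⟩, h⟩))))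
    obtain ⟨r1 | r1, r2 | r2⟩ := h1 <;> obtain ⟨s1 | s1, s2 | s2⟩ := h2 <;> subst r1 r2 s1 s2 <;>
      first
      | (exfalso; omega)
      | (left; exact ⟨rfl, rfl⟩)
      | (right; left; exact ⟨⟨by ring, rfl⟩, by simpa using h5⟩)
      | (right; right; left; exact ⟨⟨by ring, rfl⟩, by simpa using h5⟩)
  · have h5 : σ (b1 + -1) _ = false := hb' _ (fun h => hc (Or.inr (Or.inr (Or.inr ⟨⟨rfl, rfl⟩, h⟩))))
    obtain ⟨r1 | r1, r2 | r2⟩ := h1 <;> obtain ⟨s1 | s1, s2 | s2⟩ := h2 <;> subst r1 r2 s1 s2 <;>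
      first
      | (exfalso; omega)
      | (left; exact ⟨rfl, rfl⟩)
      | (right; left; exact ⟨⟨by ring, rfl⟩, by simpa using h5⟩)
      | (right; right; left; exact ⟨⟨by ring, rfl⟩, by simpa using h5⟩)

theorem ok_even {s : St} (h : Ok s) : Pty 0 s.1 ∨ Pty 0 s.2 := by
  unfold Pty
  obtain ⟨q, t, h | h | h | h⟩ := ok_cases h <;> subst h <;> simp <;> omega

theorem w_pty {σ : Cfg} {p : ℤ} (hp : p % 2 = 0) (i : ℕ) :
    Pty 0 (w σ p i).1 ∧ Pty 1 (w σ p i).2 := by
  induction i with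
  | zero => simp [w, up, Pty]; omega
  | succ i ih =>
    rw [w_succ]
    rcases step_op (σ := σ) (w_ok σ p i) with ⟨h1, h2⟩ | ⟨h1, h2⟩
    · rw [h1, ← op_pty h2]; exact ih
    · rw [h1, ← op_pty h2]; exact ih

/-! ### visited tiles -/

section

variable {σ : Cfg} {h p q : ℤ} {m : ℕ} (S : Sd σ h p q m)

include S

theorem vs_of {τ : Pt} (hτ : 0 ≤ τ.2 ∧ τ.2 < h) {i : ℕ} (hi : i ≤ m)
    (h1 : tl (w σ p i) = τ ∨ tl (rev (w σ p i)) = τ) : Vs σ p m τ := by
  rcases h1 with h1 | h1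
  · refine ⟨i, ?_, h1⟩
    by_contra hc
    rw [show i = m by omega, show w σ p m = up q h from S.fin, up, tl_up] at h1
    rw [← h1] at hτ; simp only at hτ; omega
  · rcases Nat.eq_zero_or_pos i with h0 | h0
    · exfalso
      subst h0
      rw [show rev (w σ p 0) = ((p + 1, 0), (p, 0)) from rfl, tl_dn] at h1
      rw [← h1] at hτ; simp only at hτ; omega
    · obtain ⟨k, rfl⟩ : ∃ k, i = k + 1 := ⟨i - 1, by omega⟩
      refine ⟨k, by omega, ?_⟩
      rw [← h1, w_succ, tl_rev_nxt (w_ok σ p k)]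

/-- the height is constant on a tile which is not visited -/
theorem vs_const (hF : S_FLOW) {τ : Pt} (hτ : 0 ≤ τ.2 ∧ τ.2 < h) (hv : ¬ Vs σ p m τ) {x : Pt}
    (hx : Cn τ x) : Hc (w σ p) m x = Hc (w σ p) m τ := by
  obtain ⟨j, t⟩ := τ
  simp only at hτ
  have hb : Hc (w σ p) m (j, t) = Hc (w σ p) m (j + 1, t) := by
    apply F6 hF S ⟨j, t, Or.inl rfl⟩ (by simp only; omega) (by simp only; omega)
    intro i hi
    constructor
    · intro h1; exact hv (vs_of S hτ hi (Or.inl (by rw [h1, tl_up])))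
    · intro h1; exact hv (vs_of S hτ hi (Or.inr (by rw [h1]; exact tl_up j t)))
  have hl : Hc (w σ p) m (j, t) = Hc (w σ p) m (j, t + 1) := by
    apply F6 hF S ⟨j, t, Or.inr (Or.inr (Or.inl rfl))⟩ (by simp only; omega) (by simp only; omega)
    intro i hi
    constructor
    · intro h1; exact hv (vs_of S hτ hi (Or.inr (by rw [h1]; exact tl_rt j t)))
    · intro h1; exact hv (vs_of S hτ hi (Or.inl (by rw [h1, tl_rt])))
  have hr : Hc (w σ p) m (j + 1, t) = Hc (w σ p) m (j + 1, t + 1) := by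
    apply F6 hF S ⟨j + 1, t, Or.inr (Or.inr (Or.inl rfl))⟩ (by simp only; omega) (by simp only; omega)
    intro i hi
    constructor
    · intro h1; exact hv (vs_of S hτ hi (Or.inl (by rw [h1, tl_lf]; simp)))
    · intro h1; exact hv (vs_of S hτ hi (Or.inr (by rw [h1]; show tl ((j + 1, t), (j + 1, t + 1)) = _; rw [tl_lf]; simp)))
  obtain ⟨x1, x2⟩ := x
  unfold Cn at hx
  simp only at hx
  obtain ⟨r1 | r1, r2 | r2⟩ := hx <;> subst r1 r2
  · rfl
  · exact hl.symm
  · exact hb.symm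
  · rw [← hr, ← hb]

end

/-! ### comparison and translation -/

/-- a strand further to the right has a smaller height function -/
theorem cmp (hF : S_FLOW) {σ : Cfg} {h p q p' q' : ℤ} {m m' : ℕ} (S : Sd σ h p q m)
    (S' : Sd σ h p' q' m') (hp : p < p') {x : Pt} (hx : 0 ≤ x.2 ∧ x.2 ≤ h)
    (h1 : Hc (w σ p') m' x = 1) : Hc (w σ p) m x = 1 := by
  obtain ⟨B, hB0, hB⟩ := exists_bound (w σ p') m'
  have key : ∀ k : ℕ, Hc (w σ p') m' (-B + k, x.2) = 1 → Hc (w σ p) m (-B + k, x.2) = 1 := by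
    intro k
    induction k with
    | zero =>
      intro h2
      rw [Hc_left hB (by simp)] at h2
      omega
    | succ k ih =>
      push_cast
      rw [show -B + ((k : ℤ) + 1) = -B + k + 1 by ring]
      intro h2
      have hok : Ok ((-B + k, x.2), (-B + k + 1, x.2)) := ⟨-B + k, x.2, Or.inl rfl⟩
      rcases F4 hF S' (x := (-B + k, x.2)) hx with h3 | h3
      · -- the edge is used by the second strand
        by_cases hu : ∀ i ≤ m', w σ p' i ≠ ((-B + k, x.2), (-B + k + 1, x.2)) ∧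
          w σ p' i ≠ ((-B + k + 1, x.2), (-B + k, x.2))
        · have := F6 hF S' hok hx hx hu
          omega
        · push Not at hu
          obtain ⟨i, hi, hu⟩ := hu
          have h4 := F7 hF S S' (by omega) hi
          rw [if_pos hp] at h4
          by_cases h5 : w σ p' i = ((-B + k, x.2), (-B + k + 1, x.2))
          · rw [h5] at h4; exact h4.2
          · rw [hu h5] at h4; exact h4.1
      · have h4 := ih h3
        by_cases hu : ∀ i ≤ m, w σ p i ≠ ((-B + k, x.2), (-B + k + 1, x.2)) ∧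
          w σ p i ≠ ((-B + k + 1, x.2), (-B + k, x.2))
        · have := F6 hF S hok hx hx hu
          omega
        · push Not at hu
          obtain ⟨i, hi, hu⟩ := hu
          have h4 := F7 hF S' S (by omega) hi
          rw [if_neg (by omega)] at h4
          exfalso
          by_cases h5 : w σ p i = ((-B + k, x.2), (-B + k + 1, x.2))
          · rw [h5] at h4; have := h4.1; simp only at this; omega
          · rw [hu h5] at h4; have := h4.2; simp only at this; omega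
  rcases le_or_gt x.1 (-B) with h2 | h2
  · rw [Hc_left hB h2] at h1; omega
  · have := key (x.1 + B).toNat
    rw [Int.toNat_of_nonneg (by omega), show -B + (x.1 + B) = x.1 by ring] at this
    exact this h1

theorem Hc_sh {n : ℕ} {σ : Cfg} (hσ : Per n σ) (p z : ℤ) (m : ℕ) (x : Pt) :
    Hc (w σ (p + (2 * n + 1) * z)) m (x.1 + (2 * n + 1) * z, x.2) = Hc (w σ p) m x := by
  classical
  unfold Hc
  apply Finset.sum_congr rfl
  intro i _
  have e1 : (∃ j : ℤ, j < x.1 + (2 * n + 1) * z ∧ w σ (p + (2 * n + 1) * z) i = up j x.2) ↔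
      ∃ j : ℤ, j < x.1 ∧ w σ p i = up j x.2 := by
    rw [w_shift hσ]
    constructor
    · rintro ⟨j, h1, h2⟩
      refine ⟨j - (2 * n + 1) * z, by linarith, ?_⟩
      have := congrArg (sh (-((2 * n + 1) * z))) h2
      rw [sh_sh, sh_up] at this
      simpa [sh_zero, sub_eq_add_neg] using this
    · rintro ⟨j, h1, h2⟩
      exact ⟨j + (2 * n + 1) * z, by linarith, by rw [h2, sh_up]⟩
  have e2 : (∃ j : ℤ, j < x.1 + (2 * n + 1) * z ∧ w σ (p + (2 * n + 1) * z) i = dn j x.2) ↔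
      ∃ j : ℤ, j < x.1 ∧ w σ p i = dn j x.2 := by
    rw [w_shift hσ]
    constructor
    · rintro ⟨j, h1, h2⟩
      refine ⟨j - (2 * n + 1) * z, by linarith, ?_⟩
      have := congrArg (sh (-((2 * n + 1) * z))) h2
      rw [sh_sh] at this
      simp only [add_neg_cancel, sh_zero] at this
      rw [this]
      unfold sh dn; ext <;> simp <;> ring
    · rintro ⟨j, h1, h2⟩
      exact ⟨j + (2 * n + 1) * z, by linarith, by rw [h2]; unfold sh dn; ext <;> simp; ring⟩
  simp only [e1, e2]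

/-- the tiles between the strand and its translate -/
def DD (n : ℕ) (h : ℤ) (s : ℕ → St) (m : ℕ) : Set Pt :=
  {τ | (0 ≤ τ.2 ∧ τ.2 < h) ∧ (¬ ∃ i < m, tl (s i) = τ) ∧
    (¬ ∃ i < m, tl (s i) = (τ.1 - (2 * n + 1), τ.2)) ∧
    Hc s m τ = 1 ∧ Hc s m (τ.1 - (2 * n + 1), τ.2) = 0}

/-- **one strand**: a path of diagonals of parity `1` from the far left to the far right, which is open
in the tiles between an (even) strand and its translate -/
theorem det (hF : S_FLOW) {n : ℕ} {σ : Cfg} (hσ : Per n σ) {h p q : ℤ} {m : ℕ}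
    (S : Sd σ h p q m) (hp : p % 2 = 0) {B : ℤ}
    (hB : ∀ i ≤ m, -B ≤ (w σ p i).1.1 ∧ (w σ p i).1.1 ≤ B ∧ -B ≤ (w σ p i).2.1 ∧
      (w σ p i).2.1 ≤ B) {x y : Pt} (hx : x.1 ≤ -B) (hx2 : 0 ≤ x.2 ∧ x.2 ≤ h)
    (hy : B + (2 * n + 1) < y.1) (hy2 : 0 ≤ y.2 ∧ y.2 ≤ h)
    (hxy : Relation.ReflTransGen (fun a b => ∃ τ, Dg a b τ ∧ Pty 1 a ∧ (0 ≤ τ.2 ∧ τ.2 < h) ∧
      (τ ∈ DD n h (w σ p) m → Op σ a b)) x y) : T1 n σ 0 h := by
  refine ⟨p, ⟨q, m, S.mpos, S.fin, S.inn⟩, ?_⟩
  rintro p' q' ⟨m', hm', hf', hi'⟩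
  by_contra hnd
  have S' : Sd σ h p' q' m' := ⟨S.hpos, hm', hf', hi'⟩
  -- the representative between `p` and `p + N`
  set N : ℤ := 2 * n + 1 with hN
  have hNpos : 0 < N := by omega
  obtain ⟨z, hz1, hz2⟩ : ∃ z : ℤ, p < p' + N * z ∧ p' + N * z < p + N := by
    have e1 := Int.emod_add_mul_ediv (p' - p) N
    have e2 := Int.emod_nonneg (p' - p) hNpos.ne'
    have e3 := Int.emod_lt_of_pos (p' - p) hNpos
    have e4 : (p' - p) % N ≠ 0 := fun h => hnd (Int.dvd_of_emod_eq_zero h)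
    refine ⟨-((p' - p) / N), ?_, ?_⟩
    · rw [mul_neg]; omega
    · rw [mul_neg]; omega
  set P := p' + N * z with hP
  have S2 : Sd σ h P (q' + N * z) m' := S'.shift hσ z
  have S3 : Sd σ h (P + N * (-1)) (q' + N * z + N * (-1)) m' := S2.shift hσ (-1)
  have S4 : Sd σ h (p + N * 1) (q + N * 1) m := S.shift hσ 1
  -- the height function of the second strand is constant along the path
  have hstep : ∀ a b : Pt, (∃ τ, Dg a b τ ∧ Pty 1 a ∧ (0 ≤ τ.2 ∧ τ.2 < h) ∧
      (τ ∈ DD n h (w σ p) m → Op σ a b)) → Hc (w σ P) m' a = Hc (w σ P) m' b := by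
    rintro a b ⟨τ, hdg, hpa, hτ, hD⟩
    obtain ⟨hca, hcb⟩ := dg_cn hdg
    have hrow : ∀ e, Cn τ e → 0 ≤ e.2 ∧ e.2 ≤ h := by
      intro e he; rcases he.2 with h1 | h1 <;> omega
    by_cases hop : Op σ a b
    · exact F2 hF S2 hop (hrow a hca) (hrow b hcb)
    by_cases hv : Vs σ P m' τ
    · exfalso
      obtain ⟨k, hk, hkt⟩ := hv
      have hkc := cn_tl (w_ok σ P k)
      rw [hkt] at hkc
      have f1 := F7 hF S S2 (by omega) (show k ≤ m' by omega)
      rw [if_pos hz1] at f1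
      have f2 := F7 hF S S3 (by omega) (show k ≤ m' by omega)
      rw [if_neg (by omega), w_shift hσ] at f2
      have f2' : Hc (w σ p) m ((w σ P k).1.1 - N, (w σ P k).1.2) = 0 ∧
          Hc (w σ p) m ((w σ P k).2.1 - N, (w σ P k).2.2) = 0 := by
        have e1 : N * (-1) = -N := by ring
        unfold sh at f2
        rw [show ((2 * (n:ℤ) + 1) * -1) = -N by rw [hN]; ring] at f2
        simpa [sub_eq_add_neg] using f2
      by_cases hv1 : Vs σ p m τ
      · -- visited by the first strand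
        obtain ⟨i, hi, hit⟩ := hv1
        have hic := cn_tl (w_ok σ p i)
        rw [hit] at hic
        have g1 := (F3 hF S (show i ≤ m by omega)).1
        have hpar := (w_pty (σ := σ) hp i).1
        have hcmp : ∀ e, Cn τ e → Pty 0 e → Hc (w σ p) m e = 0 := by
          intro e he hpe
          rcases other hdg hop hpa hic.1 he hpar hpe with h5 | h5
          · rw [← h5]; exact g1
          · rw [← F2 hF S h5 (hrow _ hic.1) (hrow _ he)]; exact g1
        rcases ok_even (w_ok σ P k) with h5 | h5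
        · have := hcmp _ hkc.1 h5; rw [f1.1] at this; omega
        · have := hcmp _ hkc.2 h5; rw [f1.2] at this; omega
      · by_cases hv2 : Vs σ p m (τ.1 - N, τ.2)
        · obtain ⟨i, hi, hit⟩ := hv2
          have hic := cn_tl (w_ok σ p i)
          rw [hit] at hic
          have g1 := (F3 hF S (show i ≤ m by omega)).2
          have hpar := (w_pty (σ := σ) hp i).2
          -- the corner on the right, translated by `N`
          set r : Pt := ((w σ p i).2.1 + N, (w σ p i).2.2) with hr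
          have hrc : Cn τ r := by
            have := hic.2
            unfold Cn at this ⊢
            simp only [hr] at this ⊢
            omega
          have hrp : Pty 0 r := by
            unfold Pty at hpar ⊢
            simp only [hr]
            omega
          have hcmp : ∀ e, Cn τ e → Pty 0 e → Hc (w σ p) m (e.1 - N, e.2) = 1 := by
            intro e he hpe
            have e0 : ((r.1 + N * (-1) : ℤ), r.2) = (w σ p i).2 := by
              simp [hr]
            rcases other hdg hop hpa hrc he hrp hpe with h5 | h5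
            · rw [← h5, show ((r.1 - N : ℤ), r.2) = (w σ p i).2 by simp [hr]]
              exact g1
            · have h6 := op_sh hσ (-1) h5
              rw [← hN] at h6
              rw [e0, show ((e.1 + N * (-1) : ℤ), e.2) = (e.1 - N, e.2) by ring_nf] at h6
              rw [← F2 hF S h6 ⟨(S.lev (show i ≤ m by omega)).2.2.1, (S.lev (show i ≤ m by omega)).2.2.2⟩
                ⟨(hrow e he).1, (hrow e he).2⟩]
              exact g1
          rcases ok_even (w_ok σ P k) with h5 | h5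
          · have := hcmp _ hkc.1 h5; rw [f2'.1] at this; omega
          · have := hcmp _ hkc.2 h5; rw [f2'.2] at this; omega
        · -- the tile is between the strand and its translate
          apply hop
          apply hD
          refine ⟨hτ, hv1, hv2, ?_, ?_⟩
          · rw [← vs_const S hF hτ hv1 hkc.1]; exact f1.1
          · have hcc : Cn (τ.1 - N, τ.2) ((w σ P k).1.1 - N, (w σ P k).1.2) := by
              have := hkc.1
              unfold Cn at this ⊢
              simp only at this ⊢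
              omega
            have := vs_const S hF (τ := (τ.1 - N, τ.2)) hτ hv2 hcc
            rw [← this]; exact f2'.1
    · rw [vs_const S2 hF hτ hv hca, vs_const S2 hF hτ hv hcb]
  have hconst : ∀ y' : Pt, Relation.ReflTransGen (fun a b => ∃ τ, Dg a b τ ∧ Pty 1 a ∧
      (0 ≤ τ.2 ∧ τ.2 < h) ∧ (τ ∈ DD n h (w σ p) m → Op σ a b)) x y' →
      Hc (w σ P) m' x = Hc (w σ P) m' y' := by
    intro y' hxy'
    induction hxy' with
    | refl => rfl
    | tail _ hbc ih => exact ih.trans (hstep _ _ hbc)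
  have hconst := hconst y hxy
  -- the end points
  have hl : Hc (w σ P) m' x = 0 := by
    rcases F4 hF S2 hx2 with h1 | h1
    · exact h1
    · have := cmp hF S S2 hz1 hx2 h1
      rw [Hc_left hB hx] at this; omega
  have hr : Hc (w σ P) m' y = 1 := by
    apply cmp hF S2 S4 (by omega) hy2
    have := Hc_sh hσ p 1 m (y.1 - N, y.2)
    rw [← hN] at this
    rw [show (((y.1 - N, y.2) : Pt).1 + N * 1, ((y.1 - N, y.2) : Pt).2) = y by simp] at this
    rw [this]
    exact F5r hF S hB (by simp only; omega) hy2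
  omega

end Y994.KW
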