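import Pool.Agent.Y994.KW.Stm2

/-!
# Project KW: the displacement of the interface as an almost additive functional
-/

set_option autoImplicit false

namespace Y994.KW

open Filter Topology

theorem Ea_eq (n M : ℕ) (f : (Fin M → Fin (2 * n + 1) → Bool) → ℝ) :
    Ea M f = H906K.Ex n M f := by
  unfold Ea H906K.Ex
  congr 1
  rw [Fintype.card_fun, Fintype.card_bool, Fintype.card_fin]
  push_cast
  rw [← pow_mul]

theorem Ex_mono (n M : ℕ) {f g : (Fin M → Fin (2 * n + 1) → Bool) → ℝ} (h : ∀ c, f c ≤ g c) :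
    H906K.Ex n M f ≤ H906K.Ex n M g := by
  unfold H906K.Ex
  exact div_le_div_of_nonneg_right (Finset.sum_le_sum fun c _ => h c) (by positivity)

/-- the displacement is an almost additive functional -/
theorem qa_inst (hX : S_XD) (hS : S_SYM) (hM : S_MOM) : ∃ b : ℝ, 0 < b ∧ ∀ n : ℕ, 1 ≤ n →
    ∀ D : ℝ, Tendsto (fun M : ℕ => H906K.VarX n M / M) atTop (𝓝 D) → ∀ b' : ℝ, b ≤ b' →
    Qa (fun M (c : Fin M → Fin (2 * n + 1) → Bool) => (X n M c : ℝ)) (b' * (2 * n + 1)) D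
      (2 * n + 1) := by
  obtain ⟨b, hb, h⟩ := hM
  refine ⟨b, hb, fun n hn D hD b' hb' => ?_⟩
  obtain ⟨h1, h2⟩ := h n hn
  have hb0 : 0 < b' := lt_of_lt_of_le hb hb'
  have hN : (0 : ℝ) < 2 * (n : ℝ) + 1 := by positivity
  have hle : (b * (2 * (n : ℝ) + 1)) ^ 4 ≤ (b' * (2 * (n : ℝ) + 1)) ^ 4 := by gcongr
  refine ⟨by positivity, by omega, fun M => ?_, fun M M' => ?_, fun M hM => ?_, ?_⟩
  · rw [Ea_eq]
    exact hS n M hn
  · rw [Ea_eq]
    exact (h1 M M').trans hle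
  · rw [Ea_eq]
    exact (h2 M hM).trans hle
  · refine hD.congr fun M => ?_
    rw [Ea_eq]
    unfold H906K.VarX
    have e1 : (fun c : Fin M → Fin (2 * n + 1) → Bool => (H906K.Xd n M c : ℝ)) =
        fun c => (X n M c : ℝ) := by
      funext c
      rw [hX n M c hn]
    have e2 : (fun c : Fin M → Fin (2 * n + 1) → Bool => (H906K.Xd n M c : ℝ) ^ 2) =
        fun c => (X n M c : ℝ) ^ 2 := by
      funext c
      rw [hX n M c hn]
    rw [e1, e2, hS n M hn]
    simp

end Y994.KW
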