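import Pool.Agent.Y994.KW.Law
import Pool.Agent.Y994.KW.Inst

/-!
# Project KW: the final assembly
-/

set_option autoImplicit false

namespace Y994.KW

open Filter Topology MeasureTheory ProbabilityTheory

/-! ## the diffusivities -/

/-- the data of the starting library -/
structure Dif (D : ℕ → ℝ) (K : ℝ) : Prop where
  lim : ∀ n, Tendsto (fun M : ℕ => H906K.VarX n M / M) atTop (𝓝 (D n))
  six : ∀ n : ℕ, |2 * Real.pi * D n / (2 * n + 1) - 6| ≤ K / (2 * n + 1)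

theorem D_pos (hX : S_XD) (hS : S_SYM) (hP : S_DPOS) {D : ℕ → ℝ} {K : ℝ} (hD : Dif D K) (n : ℕ)
    (hn : 1 ≤ n) : 0 < D n := by
  have h1 : ∀ M : ℕ, 1 ≤ M → 2 / 2 ^ (2 * n + 1) ≤ H906K.VarX n M / M := by
    intro M hM
    have h2 := hP n M hn
    have e1 : (fun c : Fin M → Fin (2 * n + 1) → Bool => (H906K.Xd n M c : ℝ)) =
        fun c => (X n M c : ℝ) := by
      funext c
      rw [hX n M c hn]
    have h3 : H906K.VarX n M = H906K.Ex n M (fun c => (H906K.Xd n M c : ℝ) ^ 2) := by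
      unfold H906K.VarX
      rw [e1, hS n M hn]
      simp
    have hM0 : (0 : ℝ) < M := by exact_mod_cast hM
    rw [h3, le_div_iff₀ hM0]
    calc (2 : ℝ) / 2 ^ (2 * n + 1) * M = 2 * M / 2 ^ (2 * n + 1) := by ring
      _ ≤ _ := h2
  have h4 : (2 : ℝ) / 2 ^ (2 * n + 1) ≤ D n :=
    ge_of_tendsto (hD.lim n) (eventually_atTop.2 ⟨1, h1⟩)
  exact lt_of_lt_of_le (by positivity) h4

theorem low_fin (r : ℕ → ℝ) (hr : ∀ n, 1 ≤ n → 0 < r n) (n1 : ℕ) :
    ∃ δ : ℝ, 0 < δ ∧ ∀ n, 1 ≤ n → n < n1 → δ ≤ r n := by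
  induction n1 with
  | zero => exact ⟨1, one_pos, fun n _ h => absurd h (Nat.not_lt_zero n)⟩
  | succ k ih =>
    obtain ⟨δ, hδ, h⟩ := ih
    rcases Nat.eq_zero_or_pos k with hk | hk
    · subst hk
      exact ⟨1, one_pos, fun n h1 h2 => by omega⟩
    · refine ⟨min δ (r k), lt_min hδ (hr k hk), fun n h1 h2 => ?_⟩
      rcases Nat.lt_or_ge n k with h3 | h3
      · exact (min_le_left _ _).trans (h n h1 h3)
      · have : n = k := by omega
        subst this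
        exact min_le_right _ _

/-- uniform lower bound of the diffusivities -/
theorem D_low (hX : S_XD) (hS : S_SYM) (hP : S_DPOS) {D : ℕ → ℝ} {K : ℝ} (hD : Dif D K) (b : ℝ)
    (hb : 0 < b) : ∃ δ : ℝ, 0 < δ ∧ ∀ n : ℕ, 1 ≤ n →
      δ * (b * (2 * n + 1)) ^ 2 ≤ D n * ((2 * n + 1 : ℕ) : ℝ) := by
  have hpos := D_pos hX hS hP hD
  obtain ⟨n1, hn1⟩ := exists_nat_gt K
  obtain ⟨δ1, hδ1, h1⟩ := low_fin (fun n => D n / (2 * n + 1)) (fun n hn => by
    have := hpos n hn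
    positivity) n1
  have hpi := Real.pi_pos
  refine ⟨min δ1 (5 / (2 * Real.pi)) / b ^ 2, by positivity, fun n hn => ?_⟩
  have hN : (0 : ℝ) < 2 * (n : ℝ) + 1 := by positivity
  have key : min δ1 (5 / (2 * Real.pi)) ≤ D n / (2 * n + 1) := by
    rcases Nat.lt_or_ge n n1 with h | h
    · exact (min_le_left _ _).trans (h1 n hn h)
    · refine (min_le_right _ _).trans ?_
      have h2 := hD.six n
      have h3 : K / (2 * (n : ℝ) + 1) ≤ 1 := by
        rw [div_le_one hN]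
        have : (n1 : ℝ) ≤ n := by exact_mod_cast h
        nlinarith
      have h4 := (abs_le.1 (h2.trans h3)).1
      have h5 : 5 ≤ 2 * Real.pi * D n / (2 * (n : ℝ) + 1) := by linarith
      rw [div_le_iff₀ (by positivity)]
      calc (5 : ℝ) ≤ 2 * Real.pi * D n / (2 * (n : ℝ) + 1) := h5
        _ = D n / (2 * (n : ℝ) + 1) * (2 * Real.pi) := by ring
  have h6 : min δ1 (5 / (2 * Real.pi)) * (2 * (n : ℝ) + 1) ≤ D n := by
    rwa [le_div_iff₀ hN] at key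
  push_cast
  calc min δ1 (5 / (2 * Real.pi)) / b ^ 2 * (b * (2 * (n : ℝ) + 1)) ^ 2
      = (min δ1 (5 / (2 * Real.pi)) * (2 * (n : ℝ) + 1)) * (2 * (n : ℝ) + 1) := by
        field_simp
    _ ≤ D n * (2 * (n : ℝ) + 1) := by gcongr

/-- the family of the displacements -/
theorem fam_inst (hX : S_XD) (hS : S_SYM) (hM : S_MOM) (hP : S_DPOS) (hO : S_OSC)
    {D : ℕ → ℝ} {K : ℝ} (hD : Dif D K) : ∃ b δ : ℝ, 0 < b ∧ 0 < δ ∧ ∀ n M : ℕ → ℕ,
    (∀ i, 1 ≤ n i) → Tendsto (fun i => (M i : ℝ) / (2 * n i + 1)) atTop atTop →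
    Fam δ (fun i => Fin (2 * n i + 1) → Bool) (fun i M c => (X (n i) M c : ℝ))
      (fun i => b * (2 * n i + 1)) (fun i => D (n i)) (fun i => 2 * n i + 1) M := by
  obtain ⟨b1, hb1, h1⟩ := qa_inst hX hS hM
  obtain ⟨b2, hb2, h2⟩ := hO
  have hb : 0 < max b1 b2 := lt_max_of_lt_left hb1
  obtain ⟨δ, hδ, h3⟩ := D_low hX hS hP hD (max b1 b2) hb
  refine ⟨max b1 b2, δ, hb, hδ, fun n M hn hM => ⟨fun i => ?_, fun i => ?_, fun i => ?_, ?_⟩⟩
  · exact h1 (n i) (hn i) (D (n i)) (hD.lim (n i)) _ (le_max_left _ _)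
  · intro m
    obtain ⟨g, hg1, hg2⟩ := h2 (n i) (hn i) m
    refine ⟨g, hg1, hg2.trans ?_⟩
    have : b2 ≤ max b1 b2 := le_max_right _ _
    gcongr
  · exact h3 (n i) (hn i)
  · refine hM.congr fun i => ?_
    push_cast
    rfl

end Y994.KW
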