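import Pool.Agent.Y994.KW.Std

/-!
# The height function of a strand which crosses a slab
-/

set_option autoImplicit false

namespace Y994.KW

open Finset

theorem fl_zero_of {s : ℕ → St} {m : ℕ} {x y : Pt} (h : ∀ i ≤ m, s i ≠ (x, y) ∧ s i ≠ (y, x)) :
    fl s m x y = 0 := by
  classical
  rw [fl_eq]
  apply Finset.sum_eq_zero
  intro i hi
  have := h i (by simpa [Nat.lt_succ_iff] using hi)
  rw [if_neg this.1, if_neg this.2]; ring

theorem Hc_left {s : ℕ → St} {m : ℕ} {x : Pt} {B : ℤ} (hB : ∀ i ≤ m, -B ≤ (s i).1.1 ∧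
    (s i).1.1 ≤ B ∧ -B ≤ (s i).2.1 ∧ (s i).2.1 ≤ B) (hx : x.1 ≤ -B) : Hc s m x = 0 := by
  classical
  unfold Hc
  apply Finset.sum_eq_zero
  intro i hi
  have h1 := hB i (by simpa [Nat.lt_succ_iff] using hi)
  rw [if_neg, if_neg]
  · ring
  · rintro ⟨j, h2, h3⟩
    rw [h3] at h1; simp only [dn] at h1; omega
  · rintro ⟨j, h2, h3⟩
    rw [h3] at h1; simp only [up] at h1; omega

/-- the height function of `S_FLOW` is `Hc` -/
theorem Hc_flow (hF : S_FLOW) {σ : Cfg} {h p q : ℤ} {m : ℕ} (S : Sd σ h p q m) {B : ℤ}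
    (hB : ∀ i ≤ m, -B ≤ (w σ p i).1.1 ∧ (w σ p i).1.1 ≤ B ∧ -B ≤ (w σ p i).2.1 ∧
      (w σ p i).2.1 ≤ B) {X : ℤ} (hX : B < X) (hX0 : 0 ≤ X) :
    (∀ x ∈ CR (-X) X 0 h, ∀ y ∈ CR (-X) X 0 h, Ok (x, y) →
      Hc (w σ p) m y - Hc (w σ p) m x = fl (w σ p) m x y) ∧
    ∀ x ∈ CR (-X) X 0 h, ∀ y ∈ CR (-X) X 0 h, Op σ x y → Hc (w σ p) m x = Hc (w σ p) m y := by
  have hh := S.hpos
  obtain ⟨H, h0, h1, h2⟩ := hF (-X) X 0 h (w σ p) m (by omega) (by omega)
    (fun i _ => w_ok σ p i) (fun i _ => Or.inl (by rw [w_succ]; exact stp_nxt _ _))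
    (by
      rw [show w σ p m = up q h from S.fin, up, tl_up]
      rintro ⟨-, -, -, h4⟩
      simp only at h4; omega)
    (by
      show tl (rev (up p 0)) ∉ _
      rw [show rev (up p 0) = ((p + 1, 0), (p, 0)) from rfl, tl_dn]
      rintro ⟨-, -, h4, -⟩
      simp only at h4; omega)
  have h3 := h2 σ (fun i _ _ => w_succ σ p i)
  -- the left line
  have hl : ∀ t : ℕ, (t : ℤ) ≤ h → H (-X, t) = 0 := by
    intro t
    induction t with
    | zero => intro _; simpa using h0
    | succ t ih =>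
      intro ht
      push_cast at ht
      have e1 := h1 (-X, (t : ℤ)) ⟨by simp, by simp; omega, by simp, by simp; omega⟩
        (-X, (t : ℤ) + 1) ⟨by simp, by simp; omega, by simp; omega, by simp; omega⟩
        ⟨-X, t, Or.inr (Or.inr (Or.inl rfl))⟩
      rw [ih (by omega), fl_zero_of] at e1
      · push_cast; linarith
      · intro i hi
        have h5 := hB i hi
        constructor <;>
        · intro h6
          rw [h6] at h5; simp only at h5; omega
  have hH : ∀ k : ℕ, -X + k ≤ X → ∀ t : ℕ, (t : ℤ) ≤ h → H (-X + k, t) = Hc (w σ p) m (-X + k, t) := by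
    intro k
    induction k with
    | zero =>
      intro _ t ht
      rw [Hc_left hB (by simp; omega)]
      simpa using hl t ht
    | succ k ih =>
      intro hk t ht
      push_cast at hk
      have e1 := h1 (-X + k, (t : ℤ)) ⟨by simp, by simp; omega, by simp, by simp; omega⟩
        (-X + k + 1, (t : ℤ)) ⟨by simp; omega, by simp; omega, by simp, by simp; omega⟩
        ⟨-X + k, t, Or.inl rfl⟩
      rw [← Hc_h, ih (by omega) t ht] at e1
      push_cast
      rw [show -X + ((k : ℤ) + 1) = -X + k + 1 by ring]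
      linarith
  have hH' : ∀ x ∈ CR (-X) X 0 h, H x = Hc (w σ p) m x := by
    rintro ⟨a, t⟩ ⟨g1, g2, g3, g4⟩
    simp only at g1 g2 g3 g4
    have := hH (a + X).toNat (by omega) t.toNat (by omega)
    rw [Int.toNat_of_nonneg g3, Int.toNat_of_nonneg (by omega)] at this
    rw [show -X + (a + X) = a by ring] at this
    exact this
  constructor
  · intro x hx y hy ho
    rw [← hH' x hx, ← hH' y hy]
    exact h1 x hx y hy ho
  · intro x hx y hy ho
    rw [← hH' x hx, ← hH' y hy]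
    exact h3 x hx y hy ho

section

variable (hF : S_FLOW) {σ : Cfg} {h p q : ℤ} {m : ℕ} (S : Sd σ h p q m)

include hF S

theorem F1 {x y : Pt} (ho : Ok (x, y)) (hx : 0 ≤ x.2 ∧ x.2 ≤ h) (hy : 0 ≤ y.2 ∧ y.2 ≤ h) :
    Hc (w σ p) m y - Hc (w σ p) m x = fl (w σ p) m x y := by
  obtain ⟨B, hB0, hB⟩ := exists_bound (w σ p) m
  have h1 := neg_abs_le x.1
  have h2 := le_abs_self x.1
  have h3 := neg_abs_le y.1
  have h4 := le_abs_self y.1
  have h5 := abs_nonneg x.1
  have h6 := abs_nonneg y.1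
  exact (Hc_flow hF S hB (X := B + |x.1| + |y.1| + 1) (by omega) (by omega)).1 x
    ⟨by omega, by omega, hx.1, hx.2⟩ y ⟨by omega, by omega, hy.1, hy.2⟩ ho

theorem F2 {x y : Pt} (ho : Op σ x y) (hx : 0 ≤ x.2 ∧ x.2 ≤ h) (hy : 0 ≤ y.2 ∧ y.2 ≤ h) :
    Hc (w σ p) m x = Hc (w σ p) m y := by
  obtain ⟨B, hB0, hB⟩ := exists_bound (w σ p) m
  have h1 := neg_abs_le x.1
  have h2 := le_abs_self x.1
  have h3 := neg_abs_le y.1
  have h4 := le_abs_self y.1
  have h5 := abs_nonneg x.1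
  have h6 := abs_nonneg y.1
  exact (Hc_flow hF S hB (X := B + |x.1| + |y.1| + 1) (by omega) (by omega)).2 x
    ⟨by omega, by omega, hx.1, hx.2⟩ y ⟨by omega, by omega, hy.1, hy.2⟩ ho

omit hF in
/-- heights at the bottom -/
theorem F0 (j : ℤ) : Hc (w σ p) m (j, 0) = if p < j then 1 else 0 := by
  classical
  unfold Hc
  rw [Finset.sum_eq_single 0]
  · have e1 : (∃ k : ℤ, k < j ∧ w σ p 0 = up k 0) ↔ p < j := by
      constructor
      · rintro ⟨k, h1, h2⟩
        have := (up_inj (show up p 0 = up k 0 from h2)).1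
        omega
      · intro h1; exact ⟨p, h1, rfl⟩
    have e2 : ¬ (∃ k : ℤ, k < j ∧ w σ p 0 = dn k 0) := by
      rintro ⟨k, h1, h2⟩
      exact up_ne_dn _ _ _ _ (show up p 0 = dn k 0 from h2)
    simp only [e1, if_neg e2]; ring
  · intro i hi h0
    have him : i ≤ m := by simpa [Nat.lt_succ_iff] using hi
    rw [if_neg, if_neg]
    · ring
    · rintro ⟨k, h1, h2⟩
      simp only at h2
      rcases Nat.lt_or_ge i m with h3 | h3
      · have := S.inn i (by omega) h3
        rw [show (nxt σ)^[i] (up p 0) = dn k 0 from h2] at this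
        exact not_inn_dn this
      · rw [show i = m by omega] at h2
        have := S.fin
        rw [show (nxt σ)^[m] (up p 0) = dn k 0 from h2] at this
        exact up_ne_dn _ _ _ _ this.symm
    · rintro ⟨k, h1, h2⟩
      simp only at h2
      rcases Nat.lt_or_ge i m with h3 | h3
      · have := S.inn i (by omega) h3
        rw [show (nxt σ)^[i] (up p 0) = up k 0 from h2] at this
        exact not_inn_up this
      · rw [show i = m by omega] at h2
        have := S.fin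
        rw [show (nxt σ)^[m] (up p 0) = up k 0 from h2] at this
        have h5 := (up_inj this).2
        have := S.hpos
        omega
  · intro h1; simp at h1

omit hF in
theorem fl_one {i : ℕ} (hi : i ≤ m) : fl (w σ p) m (w σ p i).1 (w σ p i).2 = 1 := by
  classical
  rw [fl_eq, Finset.sum_eq_single i]
  · rw [if_pos rfl, if_neg]
    · ring
    · exact S.ne_rev S hi hi
  · intro k hk hki
    have hkm : k ≤ m := by simpa [Nat.lt_succ_iff] using hk
    rw [if_neg, if_neg]
    · ring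
    · exact S.ne_rev S hkm hi
    · exact S.ne S hkm hi (Or.inr hki)
  · intro h1; exact absurd (Finset.mem_range.2 (Nat.lt_succ_of_le hi)) h1

/-- **heights along the strand** -/
theorem F3 {i : ℕ} (hi : i ≤ m) : Hc (w σ p) m (w σ p i).1 = 0 ∧ Hc (w σ p) m (w σ p i).2 = 1 := by
  have hl : ∀ i ≤ m, Hc (w σ p) m (w σ p i).1 = 0 := by
    intro i
    induction i with
    | zero =>
      intro _
      show Hc (w σ p) m (p, 0) = 0
      rw [F0 S, if_neg (by omega)]
    | succ i ih =>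
      intro hi
      have h1 := S.lev (show i ≤ m by omega)
      have h2 := S.lev hi
      rw [w_succ] at h2 ⊢
      rcases step_op (σ := σ) (w_ok σ p i) with ⟨-, h3⟩ | ⟨h3, -⟩
      · rw [← F2 hF S h3 ⟨h1.1, h1.2.1⟩ ⟨h2.1, h2.2.1⟩]
        exact ih (by omega)
      · rw [h3]; exact ih (by omega)
  have h1 := S.lev hi
  have h2 := F1 hF S (w_ok σ p i) ⟨h1.1, h1.2.1⟩ ⟨h1.2.2.1, h1.2.2.2⟩
  rw [fl_one S hi, hl i hi] at h2
  exact ⟨hl i hi, by linarith⟩

/-- **heights along another strand** -/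
theorem F7 {p' q' : ℤ} {m' : ℕ} (S' : Sd σ h p' q' m') (hne : p ≠ p') {k : ℕ} (hk : k ≤ m') :
    Hc (w σ p) m (w σ p' k).1 = (if p < p' then 1 else 0) ∧
    Hc (w σ p) m (w σ p' k).2 = (if p < p' then 1 else 0) := by
  induction k with
  | zero =>
    constructor
    · show Hc (w σ p) m (p', 0) = _
      rw [F0 S]
    · show Hc (w σ p) m (p' + 1, 0) = _
      rw [F0 S]
      congr 1
      exact propext ⟨fun h1 => by omega, fun h1 => by omega⟩
  | succ k ih =>
    have ih := ih (by omega)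
    have h1 := S'.lev (show k ≤ m' by omega)
    have h2 := S'.lev hk
    rw [w_succ] at h2 ⊢
    rcases step_op (σ := σ) (w_ok σ p' k) with ⟨h4, h3⟩ | ⟨h4, h3⟩
    · rw [← F2 hF S h3 ⟨h1.1, h1.2.1⟩ ⟨h2.1, h2.2.1⟩, h4]
      exact ih
    · rw [← F2 hF S h3 ⟨h1.2.2.1, h1.2.2.2⟩ ⟨h2.2.2.1, h2.2.2.2⟩, h4]
      exact ih

omit hF S in
/-- far to the left -/
theorem F5l {B : ℤ} (hB : ∀ i ≤ m, -B ≤ (w σ p i).1.1 ∧ (w σ p i).1.1 ≤ B ∧ -B ≤ (w σ p i).2.1 ∧
      (w σ p i).2.1 ≤ B) {x : Pt} (hx : x.1 ≤ -B) : Hc (w σ p) m x = 0 := Hc_left hB hx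

/-- far to the right -/
theorem F5r {B : ℤ} (hB : ∀ i ≤ m, -B ≤ (w σ p i).1.1 ∧ (w σ p i).1.1 ≤ B ∧ -B ≤ (w σ p i).2.1 ∧
      (w σ p i).2.1 ≤ B) {x : Pt} (hx : B < x.1) (hx2 : 0 ≤ x.2 ∧ x.2 ≤ h) :
    Hc (w σ p) m x = 1 := by
  have key : ∀ t : ℕ, (t : ℤ) ≤ h → Hc (w σ p) m (x.1, t) = 1 := by
    intro t
    induction t with
    | zero =>
      intro _
      have := (hB 0 (by omega)).2.1
      simp only [w, Function.iterate_zero, id_eq, up] at this
      rw [show ((0 : ℕ) : ℤ) = 0 from rfl, F0 S, if_pos (by omega)]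
    | succ t ih =>
      intro ht
      push_cast at ht
      have e1 := F1 hF S (x := (x.1, (t : ℤ))) (y := (x.1, (t : ℤ) + 1))
        ⟨x.1, t, Or.inr (Or.inr (Or.inl rfl))⟩ ⟨by simp, by simp; omega⟩
        ⟨by simp; omega, by simp; omega⟩
      rw [ih (by omega), fl_zero_of] at e1
      · push_cast; linarith
      · intro i hi
        have h5 := hB i hi
        constructor <;>
        · intro h6
          rw [h6] at h5; simp only at h5; omega
  have := key x.2.toNat (by omega)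
  rw [Int.toNat_of_nonneg hx2.1] at this
  exact this

/-- an edge not used -/
theorem F6 {x y : Pt} (ho : Ok (x, y)) (hx : 0 ≤ x.2 ∧ x.2 ≤ h) (hy : 0 ≤ y.2 ∧ y.2 ≤ h)
    (hu : ∀ i ≤ m, w σ p i ≠ (x, y) ∧ w σ p i ≠ (y, x)) : Hc (w σ p) m x = Hc (w σ p) m y := by
  have := F1 hF S ho hx hy
  rw [fl_zero_of hu] at this
  linarith

/-- the heights are `0` and `1` -/
theorem F4 {x : Pt} (hx : 0 ≤ x.2 ∧ x.2 ≤ h) : Hc (w σ p) m x = 0 ∨ Hc (w σ p) m x = 1 := by
  obtain ⟨B, hB0, hB⟩ := exists_bound (w σ p) m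
  have key : ∀ k : ℕ, Hc (w σ p) m (-B + k, x.2) = 0 ∨ Hc (w σ p) m (-B + k, x.2) = 1 := by
    intro k
    induction k with
    | zero => left; exact Hc_left hB (by simp)
    | succ k ih =>
      by_cases hu : ∀ i ≤ m, w σ p i ≠ ((-B + k, x.2), (-B + k + 1, x.2)) ∧
          w σ p i ≠ ((-B + k + 1, x.2), (-B + k, x.2))
      · have := F6 hF S (x := (-B + k, x.2)) (y := (-B + k + 1, x.2)) ⟨-B + k, x.2, Or.inl rfl⟩ hx hx hu
        push_cast
        rw [show -B + ((k : ℤ) + 1) = -B + k + 1 by ring, ← this]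
        exact ih
      · push Not at hu
        obtain ⟨i, hi, hu⟩ := hu
        push_cast
        rw [show -B + ((k : ℤ) + 1) = -B + k + 1 by ring]
        have h3 := F3 hF S hi
        by_cases h1 : w σ p i = ((-B + k, x.2), (-B + k + 1, x.2))
        · rw [h1] at h3; right; exact h3.2
        · rw [hu h1] at h3; left; exact h3.1
  rcases le_or_gt x.1 (-B) with h1 | h1
  · left; exact Hc_left hB h1
  · have := key (x.1 + B).toNat
    rw [Int.toNat_of_nonneg (by omega), show -B + (x.1 + B) = x.1 by ring] at this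
    exact this

end

end Y994.KW
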