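import Pool.Agent.Y994.KW.Stm2

/-!
# Laws of functions of uniform words
-/

set_option autoImplicit false

namespace Y994.KW

open Filter Topology MeasureTheory ProbabilityTheory

section law

variable {E : Type} [MeasurableSpace E] [MeasurableSingletonClass E]

/-- the law of `g` under the uniform distribution on the words of length `M` -/
noncomputable def lw {α : Type} [Fintype α] (M : ℕ) (g : (Fin M → α) → E) : Measure E :=
  ∑ c, (((Fintype.card α : ENNReal) ^ M)⁻¹) • Measure.dirac (g c)

theorem card_words {α : Type} [Fintype α] (M : ℕ) :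
    (Finset.univ : Finset (Fin M → α)).card = Fintype.card α ^ M := by
  rw [Finset.card_univ, Fintype.card_fun, Fintype.card_fin]

instance lw_prob {α : Type} [Fintype α] [Nonempty α] (M : ℕ) (g : (Fin M → α) → E) :
    IsProbabilityMeasure (lw M g) := by
  constructor
  unfold lw
  rw [Measure.finsetSum_apply]
  simp only [Measure.smul_apply, measure_univ, smul_eq_mul, mul_one, Finset.sum_const, card_words,
    nsmul_eq_mul]
  push_cast
  refine ENNReal.mul_inv_cancel ?_ ?_
  · exact pow_ne_zero _ (Nat.cast_ne_zero.2 Fintype.card_ne_zero)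
  · exact ENNReal.pow_ne_top (ENNReal.natCast_ne_top _)

theorem lw_int {α : Type} [Fintype α] [Nonempty α] (M : ℕ) (g : (Fin M → α) → E) (F : E → ℝ) :
    ∫ x, F x ∂(lw M g) = Ea M (fun c => F (g c)) := by
  unfold lw Ea
  rw [integral_finsetSum_measure]
  · simp only [integral_smul_measure, integral_dirac, Finset.sum_div]
    refine Finset.sum_congr rfl fun c _ => ?_
    rw [smul_eq_mul, ENNReal.toReal_inv, ENNReal.toReal_pow, ENNReal.toReal_natCast]
    ring
  · intro c _
    refine (integrable_dirac (by simp [enorm_lt_top])).smul_measure ?_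
    rw [ne_eq, ENNReal.inv_eq_top]
    exact pow_ne_zero _ (Nat.cast_ne_zero.2 Fintype.card_ne_zero)

/-- as a probability measure -/
noncomputable def lwp {α : Type} [Fintype α] [Nonempty α] (M : ℕ) (g : (Fin M → α) → E) :
    ProbabilityMeasure E := ⟨lw M g, lw_prob M g⟩

end law

theorem scal_gen {X Y Z : Type} [TopologicalSpace X] [MeasurableSpace X] [BorelSpace X]
    [SecondCountableTopology X] [TopologicalSpace Y] [MeasurableSpace Y] [BorelSpace Y]
    [SecondCountableTopology Y] [TopologicalSpace Z]
    [TopologicalSpace.PseudoMetrizableSpace X] [TopologicalSpace.PseudoMetrizableSpace Y]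
    (P : ℕ → ProbabilityMeasure Y) (W : ProbabilityMeasure Y)
    (h : Tendsto P atTop (𝓝 W)) (a : ℕ → X) (a0 : X) (ha : Tendsto a atTop (𝓝 a0))
    (g : X × Y → Z) (hg : Continuous g) (F : BoundedContinuousFunction Z ℝ) :
    Tendsto (fun i => ∫ w, F (g (a i, w)) ∂(P i : Measure Y)) atTop
      (𝓝 (∫ w, F (g (a0, w)) ∂(W : Measure Y))) := by
  have h1 : Tendsto (fun i => (diracProba (a i)).prod (P i)) atTop
      (𝓝 ((diracProba a0).prod W)) := by
    have h2 : Tendsto (fun i => diracProba (a i)) atTop (𝓝 (diracProba a0)) :=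
      (continuous_diracProba.tendsto a0).comp ha
    exact (ProbabilityMeasure.continuous_prod.tendsto (diracProba a0, W)).comp (h2.prodMk_nhds h)
  rw [ProbabilityMeasure.tendsto_iff_forall_integral_tendsto] at h1
  have h3 := h1 (F.compContinuous ⟨g, hg⟩)
  have key : ∀ (x : X) (Q : ProbabilityMeasure Y),
      ∫ z, (F.compContinuous ⟨g, hg⟩) z ∂(((diracProba x).prod Q : ProbabilityMeasure (X × Y)) :
        Measure (X × Y)) = ∫ w, F (g (x, w)) ∂(Q : Measure Y) := by
    intro x Q
    have e : (((diracProba x).prod Q : ProbabilityMeasure (X × Y)) : Measure (X × Y)) =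
        Measure.map (Prod.mk x) (Q : Measure Y) := by
      rw [ProbabilityMeasure.toMeasure_prod]
      exact Measure.dirac_prod x
    rw [e, integral_map (by fun_prop)]
    · rfl
    · exact (BoundedContinuousFunction.continuous _).measurable.aestronglyMeasurable
  simpa only [key] using h3

end Y994.KW
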