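import Pool.Agent.Y994.KW.Fin

/-!
# Project KW: the main theorem in terms of crossings
-/

set_option autoImplicit false

namespace Y994.KW

open Filter Topology MeasureTheory ProbabilityTheory

/-- the first `m` rows of a configuration -/
def rows {n M : ℕ} (c : Fin M → Fin (2 * n + 1) → Bool) (m : ℕ) : Fin m → Fin (2 * n + 1) → Bool :=
  fun t j => if h : (t : ℕ) < M then c ⟨t, h⟩ j else false

/-- the leftmost point of the level `m` connected to the arc `[0, 2n]` of the bottom -/
noncomputable def Lft (n m : ℕ) (c : Fin m → Fin (2 * n + 1) → Bool) : ℤ :=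
  sInf {p : ℤ | Con n m c (0, 0) (p, (m : ℤ))}

/-- the winding of the crossings as a function of the height -/
noncomputable def wnd (n M : ℕ) (c : Fin M → Fin (2 * n + 1) → Bool) : Pa :=
  pth (2 * Real.pi / (2 * n + 1) / √(2 * Real.pi * M / (2 * n + 1)))
    (fun m => (Lft n m (rows c m) : ℝ)) M

theorem Lft_eq (hC : S_CRS) (n m : ℕ) (c : Fin m → Fin (2 * n + 1) → Bool) (hn : 1 ≤ n) :
    Lft n m c = X n m c := by
  obtain ⟨h1, -, h3⟩ := hC n m c hn
  have : IsLeast {p : ℤ | Con n m c (0, 0) (p, (m : ℤ))} (X n m c) :=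
    ⟨h1, fun p hp => (h3 p hp).1⟩
  exact this.csInf_eq

theorem rows_eq {n M : ℕ} (c : Fin M → Fin (2 * n + 1) → Bool) (m : ℕ) (h : m ≤ M) :
    rows c m = rst m c := by
  funext t j
  have := t.2
  unfold rows rst
  rw [dif_pos (by omega), dif_pos (by omega)]

theorem pth_congr (a : ℝ) (y y' : ℕ → ℝ) (M : ℕ) (h : ∀ i, i ≤ M → y i = y' i) :
    pth a y M = pth a y' M := by
  ext s
  change a * _ = a * _
  rw [h 0 (Nat.zero_le _)]
  congr 2
  refine Finset.sum_congr rfl fun i hi => ?_
  rw [Finset.mem_range] at hi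
  rw [h i (by omega), h (i + 1) (by omega)]

theorem pth_smul (a b : ℝ) (y : ℕ → ℝ) (M : ℕ) : pth (a * b) y M = a • pth b y M := by
  ext s
  change a * b * _ = a * (b * _)
  ring

theorem wnd_eq (hC : S_CRS) (n M : ℕ) (hn : 1 ≤ n) (D : ℝ) (hD : 0 < D)
    (c : Fin M → Fin (2 * n + 1) → Bool) :
    wnd n M c = √(2 * Real.pi * D / (2 * n + 1)) • pth (1 / √(D * M))
      (Yr (fun M (c : Fin M → Fin (2 * n + 1) → Bool) => (X n M c : ℝ)) c) M := by
  unfold wnd
  rw [← pth_smul]
  have hN : (0 : ℝ) < 2 * (n : ℝ) + 1 := by positivity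
  have hpi := Real.pi_pos
  have e : 2 * Real.pi / (2 * n + 1) / √(2 * Real.pi * M / (2 * n + 1)) =
      √(2 * Real.pi * D / (2 * n + 1)) * (1 / √(D * M)) := by
    rcases Nat.eq_zero_or_pos M with h0 | h0
    · subst h0
      simp
    · have hM : (0 : ℝ) < M := by exact_mod_cast h0
      have e1 : 2 * Real.pi / (2 * (n : ℝ) + 1) = √((2 * Real.pi / (2 * (n : ℝ) + 1)) ^ 2) := by
        rw [Real.sqrt_sq (by positivity)]
      conv_lhs => rw [e1]
      rw [← Real.sqrt_div (by positivity), mul_one_div, ← Real.sqrt_div (by positivity)]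
      congr 1
      field_simp
  rw [e]
  refine pth_congr _ _ _ _ fun i hi => ?_
  unfold Yr
  rw [Lft_eq hC n i _ hn, rows_eq c i hi]

/-- the value at `1` of standard Brownian motion is normal -/
theorem bm_one (W : Measure Pa) (hW : IsBM 1 W) :
    W.map (fun w : Pa => w 1) = gaussianReal 0 1 := by
  obtain ⟨hp, h0, h⟩ := hW
  have h1 := h 1 ![0, 1] (by
    intro a b hab
    fin_cases a <;> fin_cases b <;> simp_all)
  have h2 := congrArg (fun μ => Measure.map (fun x : Fin 1 → ℝ => x 0) μ) h1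
  rw [Measure.map_map (by fun_prop) (by fun_prop)] at h2
  have h3 : Measure.map (fun x : Fin 1 → ℝ => x 0) (Measure.pi (fun j : Fin 1 =>
      gaussianReal 0 (1 * Real.toNNReal (((![0, 1] : Fin 2 → unitInterval) j.succ : ℝ) -
        (![0, 1] : Fin 2 → unitInterval) j.castSucc)))) = gaussianReal 0 1 := by
    have h4 := (measurePreserving_eval (fun j : Fin 1 =>
      gaussianReal 0 (1 * Real.toNNReal (((![0, 1] : Fin 2 → unitInterval) j.succ : ℝ) -
        (![0, 1] : Fin 2 → unitInterval) j.castSucc))) 0).map_eq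
    rw [show (fun x : Fin 1 → ℝ => x 0) = Function.eval 0 from rfl, h4]
    simp
  rw [h3] at h2
  rw [← h2]
  refine Measure.map_congr ?_
  filter_upwards [h0] with w hw
  simp [hw]

end Y994.KW
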