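import Pool.Agent.Y994.KW.Wk

/-!
# Strands crossing a slab and their height functions
-/

set_option autoImplicit false

namespace Y994.KW

/-- the strand from the bottom edge `p` (level `0`) crosses the slab of height `h` in `m` steps -/
structure Sd (σ : Cfg) (h p q : ℤ) (m : ℕ) : Prop where
  hpos : 0 < h
  mpos : 0 < m
  fin : (nxt σ)^[m] (up p 0) = up q h
  inn : ∀ i : ℕ, 0 < i → i < m → Inn 0 h ((nxt σ)^[i] (up p 0))

/-- the states of a strand -/
abbrev w (σ : Cfg) (p : ℤ) (i : ℕ) : St := (nxt σ)^[i] (up p 0)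

theorem w_succ (σ : Cfg) (p : ℤ) (i : ℕ) : w σ p (i + 1) = nxt σ (w σ p i) :=
  Function.iterate_succ_apply' _ _ _

theorem w_ok (σ : Cfg) (p : ℤ) (i : ℕ) : Ok (w σ p i) := ok_iter (ok_up _ _) i

theorem iter_back {σ : Cfg} {s s' : St} (h : Ok s) (h' : Ok s') : ∀ {i k : ℕ}, i ≤ k →
    (nxt σ)^[i] s = (nxt σ)^[k] s' → s = (nxt σ)^[k - i] s' := by
  intro i
  induction i with
  | zero => intro k _ e; simpa using e
  | succ i ih =>
    intro k hk e
    obtain ⟨k, rfl⟩ : ∃ k', k = k' + 1 := ⟨k - 1, by omega⟩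
    rw [Function.iterate_succ_apply', Function.iterate_succ_apply'] at e
    have := ih (k := k) (by omega) (nxt_inj (ok_iter h _) (ok_iter h' _) e)
    rw [this]; congr 1; omega

theorem nxt_rev {σ : Cfg} {s : St} (h : Ok s) : nxt σ (rev (nxt σ s)) = rev s := by
  have := rev_nxt (σ := σ) h
  have h2 := congrArg rev this
  rwa [rev_rev] at h2

theorem iter_rev {σ : Cfg} {s : St} (h : Ok s) (k : ℕ) : ∀ j : ℕ, j ≤ k →
    (nxt σ)^[j] (rev ((nxt σ)^[k] s)) = rev ((nxt σ)^[k - j] s) := by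
  intro j
  induction j with
  | zero => intro _; simp
  | succ j ih =>
    intro hj
    rw [Function.iterate_succ_apply', ih (by omega)]
    obtain ⟨l, hl⟩ : ∃ l, k - j = l + 1 := ⟨k - j - 1, by omega⟩
    rw [hl, Function.iterate_succ_apply', nxt_rev (ok_iter h l)]
    congr 2; omega

theorem not_inn_up {h p : ℤ} : ¬ Inn 0 h (up p 0) := by
  unfold Inn up; simp

theorem not_inn_dn {h p : ℤ} : ¬ Inn 0 h (dn p 0) := by
  unfold Inn dn; simp

theorem not_inn_dnh {h p : ℤ} : ¬ Inn 0 h (dn p h) := by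
  unfold Inn dn; simp; intro; omega

theorem up_ne_dn (p q a b : ℤ) : up p a ≠ dn q b := by
  unfold up dn; intro h
  simp only [Prod.mk.injEq] at h; omega

theorem up_inj {p q a b : ℤ} (h : up p a = up q b) : p = q ∧ a = b := by
  unfold up at h; simp only [Prod.mk.injEq] at h; omega

namespace Sd

variable {σ : Cfg} {h p q : ℤ} {m : ℕ}

/-- two strands use different edges -/
theorem ne (S : Sd σ h p q m) {p' q' : ℤ} {m' : ℕ} (S' : Sd σ h p' q' m') {i k : ℕ} (hi : i ≤ m)
    (hk : k ≤ m') (hne : p ≠ p' ∨ i ≠ k) : w σ p i ≠ w σ p' k := by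
  have key : ∀ {p p' q q' : ℤ} {m m' i k : ℕ}, Sd σ h p q m → Sd σ h p' q' m' → i ≤ m → k ≤ m' →
      i ≤ k → (p ≠ p' ∨ i ≠ k) → w σ p i ≠ w σ p' k := by
    intro p p' q q' m m' i k S S' hi hk hik hne e
    have h1 := iter_back (ok_up p 0) (ok_up p' 0) hik e
    rcases Nat.eq_zero_or_pos (k - i) with h0 | h0
    · rw [h0] at h1
      have := (up_inj h1).1
      rcases hne with h2 | h2
      · exact h2 this
      · omega
    · rcases Nat.lt_or_ge (k - i) m' with h2 | h2
      · have := S'.inn _ h0 h2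
        rw [← h1] at this
        exact not_inn_up this
      · have h3 : k - i = m' := by omega
        rw [h3, S'.fin] at h1
        have := (up_inj h1).2
        have := S.hpos
        omega
  rcases Nat.le_total i k with hik | hik
  · exact key S S' hi hk hik hne
  · intro e
    exact key S' S hk hi hik (hne.imp Ne.symm Ne.symm) e.symm

/-- not even in opposite directions -/
theorem ne_rev (S : Sd σ h p q m) {p' q' : ℤ} {m' : ℕ} (S' : Sd σ h p' q' m') {i k : ℕ}
    (hi : i ≤ m) (hk : k ≤ m') : w σ p i ≠ rev (w σ p' k) := by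
  intro e
  rcases Nat.lt_or_ge m (i + k) with h1 | h1
  · -- the first strand leaves through the top
    have h2 : (nxt σ)^[m - i] (w σ p i) = up q h := by
      rw [← Function.iterate_add_apply, Nat.sub_add_cancel hi, S.fin]
    rw [e, iter_rev (ok_up p' 0) k (m - i) (by omega)] at h2
    have h3 : w σ p' (k - (m - i)) = dn q h := by
      have := congrArg rev h2
      rw [rev_rev] at this
      exact this
    rcases Nat.lt_or_ge (k - (m - i)) m' with h4 | h4
    · have := S'.inn _ (by omega) h4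
      rw [show (nxt σ)^[k - (m - i)] (up p' 0) = dn q h from h3] at this
      exact not_inn_dnh this
    · have h5 : k - (m - i) = m' := by omega
      rw [h5] at h3
      have := S'.fin
      rw [show (nxt σ)^[m'] (up p' 0) = dn q h from h3] at this
      exact up_ne_dn _ _ _ _ this.symm
  · have h2 : (nxt σ)^[k] (w σ p i) = w σ p (k + i) := by
      rw [← Function.iterate_add_apply]
    rw [e, iter_rev (ok_up p' 0) k k le_rfl] at h2
    simp only [Nat.sub_self, Function.iterate_zero, id_eq] at h2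
    have h3 : w σ p (k + i) = dn p' 0 := h2.symm
    rcases Nat.eq_zero_or_pos (k + i) with h4 | h4
    · rw [h4] at h3
      exact up_ne_dn _ _ _ _ h3
    · rcases Nat.lt_or_ge (k + i) m with h5 | h5
      · have := S.inn _ h4 h5
        rw [show (nxt σ)^[k + i] (up p 0) = dn p' 0 from h3] at this
        exact not_inn_dn this
      · have h6 : k + i = m := by omega
        rw [h6] at h3
        have := S.fin
        rw [show (nxt σ)^[m] (up p 0) = dn p' 0 from h3] at this
        exact up_ne_dn _ _ _ _ this.symm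

theorem lev (S : Sd σ h p q m) {i : ℕ} (hi : i ≤ m) : 0 ≤ (w σ p i).1.2 ∧ (w σ p i).1.2 ≤ h ∧
    0 ≤ (w σ p i).2.2 ∧ (w σ p i).2.2 ≤ h := by
  have hp := S.hpos
  rcases Nat.eq_zero_or_pos i with h0 | h0
  · subst h0
    simp [w, up]; omega
  · rcases Nat.lt_or_ge i m with h1 | h1
    · have h2 := S.inn i h0 h1
      obtain ⟨a, t, h3 | h3 | h3 | h3⟩ := ok_cases (w_ok σ p i) <;>
      · rw [show (nxt σ)^[i] (up p 0) = w σ p i from rfl, h3] at h2
        rw [h3]
        unfold Inn at h2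
        simp only at h2 ⊢
        omega
    · have : i = m := by omega
      subst this
      rw [show w σ p i = up q h from S.fin]
      simp [up]; omega

/-- the tiles used are in the slab -/
theorem tl_lev (S : Sd σ h p q m) {i : ℕ} (hi : i < m) :
    0 ≤ (tl (w σ p i)).2 ∧ (tl (w σ p i)).2 < h := by
  have h1 := S.lev hi.le
  have h2 := S.lev (show i + 1 ≤ m from hi)
  rw [w_succ] at h2
  obtain ⟨a, t, h3 | h3 | h3 | h3⟩ := ok_cases (w_ok σ p i)
  · rw [h3] at h1 h2 ⊢
    rw [nxt_up] at h2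
    rw [tl_up]
    split_ifs at h2 <;> simp only at h1 h2 ⊢ <;> omega
  · rw [h3] at h1 h2 ⊢
    rw [nxt_dn] at h2
    rw [tl_dn]
    split_ifs at h2 <;> simp only at h1 h2 ⊢ <;> omega
  · rw [h3] at h1 h2 ⊢
    rw [nxt_lf] at h2
    rw [tl_lf]
    split_ifs at h2 <;> simp only at h1 h2 ⊢ <;> omega
  · rw [h3] at h1 h2 ⊢
    rw [nxt_rt] at h2
    rw [tl_rt]
    split_ifs at h2 <;> simp only at h1 h2 ⊢ <;> omega

theorem shift {n : ℕ} (hσ : Per n σ) (S : Sd σ h p q m) (z : ℤ) :
    Sd σ h (p + (2 * n + 1) * z) (q + (2 * n + 1) * z) m := by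
  have e : ∀ i, (nxt σ)^[i] (up (p + (2 * n + 1) * z) 0) =
      sh ((2 * n + 1) * z) ((nxt σ)^[i] (up p 0)) := by
    intro i
    rw [← iter_sh hσ, sh_up]
  refine ⟨S.hpos, S.mpos, ?_, ?_⟩
  · rw [e, S.fin, sh_up]
  · intro i h1 h2
    rw [e]
    have := S.inn i h1 h2
    unfold Inn sh at *
    simpa using this

end Sd

theorem w_shift {n : ℕ} {σ : Cfg} (hσ : Per n σ) (p z : ℤ) (i : ℕ) :
    w σ (p + (2 * n + 1) * z) i = sh ((2 * n + 1) * z) (w σ p i) := by
  unfold w
  rw [← iter_sh hσ, sh_up]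

/-! ### the height function -/

open Classical in
/-- upward minus downward passages to the left of `x` on the line of `x` -/
noncomputable def Hc (s : ℕ → St) (m : ℕ) (x : Pt) : ℤ :=
  ∑ i ∈ Finset.range (m + 1),
    ((if ∃ j : ℤ, j < x.1 ∧ s i = up j x.2 then (1 : ℤ) else 0)
      - (if ∃ j : ℤ, j < x.1 ∧ s i = dn j x.2 then (1 : ℤ) else 0))

theorem fl_eq (s : ℕ → St) (m : ℕ) (x y : Pt) : fl s m x y = ∑ i ∈ Finset.range (m + 1),
    ((open Classical in if s i = (x, y) then (1 : ℤ) else 0)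
      - (open Classical in if s i = (y, x) then (1 : ℤ) else 0)) := by
  classical
  unfold fl
  rw [Finset.sum_sub_distrib]
  simp only [Finset.sum_ite, Finset.sum_const_zero, add_zero, Finset.sum_const, nsmul_eq_mul,
    mul_one]

theorem dn_inj {p q a b : ℤ} (h : dn p a = dn q b) : p = q ∧ a = b := by
  unfold dn at h; simp only [Prod.mk.injEq] at h; omega

/-- horizontal increments -/
theorem Hc_h (s : ℕ → St) (m : ℕ) (j t : ℤ) :
    Hc s m (j + 1, t) - Hc s m (j, t) = fl s m (j, t) (j + 1, t) := by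
  classical
  rw [fl_eq]
  unfold Hc
  rw [← Finset.sum_sub_distrib]
  apply Finset.sum_congr rfl
  intro i _
  have e1 : (∃ k : ℤ, k < j + 1 ∧ s i = up k t) ↔ ((∃ k : ℤ, k < j ∧ s i = up k t) ∨ s i = up j t) := by
    constructor
    · rintro ⟨k, h1, h2⟩
      rcases lt_or_ge k j with h3 | h3
      · exact Or.inl ⟨k, h3, h2⟩
      · right; rw [h2, show k = j by omega]
    · rintro (⟨k, h1, h2⟩ | h2)
      · exact ⟨k, by omega, h2⟩
      · exact ⟨j, by omega, h2⟩
  have e2 : (∃ k : ℤ, k < j + 1 ∧ s i = dn k t) ↔ ((∃ k : ℤ, k < j ∧ s i = dn k t) ∨ s i = dn j t) := by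
    constructor
    · rintro ⟨k, h1, h2⟩
      rcases lt_or_ge k j with h3 | h3
      · exact Or.inl ⟨k, h3, h2⟩
      · right; rw [h2, show k = j by omega]
    · rintro (⟨k, h1, h2⟩ | h2)
      · exact ⟨k, by omega, h2⟩
      · exact ⟨j, by omega, h2⟩
  have e3 : ¬ ((∃ k : ℤ, k < j ∧ s i = up k t) ∧ s i = up j t) := by
    rintro ⟨⟨k, h1, h2⟩, h3⟩
    have := (up_inj (h2.symm.trans h3)).1
    omega
  have e4 : ¬ ((∃ k : ℤ, k < j ∧ s i = dn k t) ∧ s i = dn j t) := by
    rintro ⟨⟨k, h1, h2⟩, h3⟩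
    have := (dn_inj (h2.symm.trans h3)).1
    omega
  have e5 : (s i = ((j, t), (j + 1, t))) ↔ s i = up j t := Iff.rfl
  have e6 : (s i = ((j + 1, t), (j, t))) ↔ s i = dn j t := Iff.rfl
  have e7 : ∀ {A B : Prop} [Decidable A] [Decidable B] [Decidable (A ∨ B)], ¬ (A ∧ B) →
      (if A ∨ B then (1 : ℤ) else 0) = (if A then 1 else 0) + (if B then 1 else 0) := by
    intro A B _ _ _ hAB
    by_cases a1 : A <;> by_cases a2 : B <;> simp_all
  simp only [e1, e2, e5, e6]
  rw [e7 e3, e7 e4]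
  ring

theorem exists_bound (s : ℕ → St) (m : ℕ) : ∃ B : ℤ, 0 ≤ B ∧ ∀ i ≤ m, -B ≤ (s i).1.1 ∧
    (s i).1.1 ≤ B ∧ -B ≤ (s i).2.1 ∧ (s i).2.1 ≤ B := by
  induction m with
  | zero =>
    refine ⟨|(s 0).1.1| + |(s 0).2.1|, by positivity, ?_⟩
    intro i hi
    have : i = 0 := by omega
    subst this
    have h1 := neg_abs_le (s 0).1.1
    have h2 := le_abs_self (s 0).1.1
    have h3 := neg_abs_le (s 0).2.1
    have h4 := le_abs_self (s 0).2.1
    have h5 := abs_nonneg (s 0).1.1
    have h6 := abs_nonneg (s 0).2.1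
    refine ⟨?_, ?_, ?_, ?_⟩ <;> linarith
  | succ m ih =>
    obtain ⟨B, hB, hB'⟩ := ih
    refine ⟨B + |(s (m+1)).1.1| + |(s (m+1)).2.1|, by positivity, ?_⟩
    intro i hi
    have h1 := neg_abs_le (s (m+1)).1.1
    have h2 := le_abs_self (s (m+1)).1.1
    have h3 := neg_abs_le (s (m+1)).2.1
    have h4 := le_abs_self (s (m+1)).2.1
    have h5 := abs_nonneg (s (m+1)).1.1
    have h6 := abs_nonneg (s (m+1)).2.1
    rcases Nat.lt_or_ge i (m + 1) with h | h
    · obtain ⟨g1, g2, g3, g4⟩ := hB' i (by omega)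
      refine ⟨?_, ?_, ?_, ?_⟩ <;> linarith
    · have : i = m + 1 := by omega
      subst this
      refine ⟨?_, ?_, ?_, ?_⟩ <;> linarith

end Y994.KW
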