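import Pool.Agent.Y994.KW.Defs

/-!
# Project KW: the steps (every step is a `Prop`, a file `T_X.lean` proves `t_X : S_X` from its
hypotheses)
-/

set_option autoImplicit false

namespace Y994.KW

open Filter Topology

/-! ## the walker -/

/-- the states of the interface: neighbouring corners, levels `≥ a`, parities -/
def S_VAL : Prop := ∀ (n : ℕ) (a : ℤ) (σ : Cfg) (i : ℕ), 1 ≤ n → Per n σ → Ok (orb n a σ i) ∧
  a ≤ (orb n a σ i).1.2 ∧ a ≤ (orb n a σ i).2.2 ∧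
  Pty a (orb n a σ i).1 ∧ Pty (a + 1) (orb n a σ i).2

/-- the interface does not meet its translates -/
def S_INJ : Prop := ∀ (n : ℕ) (a : ℤ) (σ : Cfg), 1 ≤ n → Per n σ → ∀ (i k : ℕ) (z : ℤ),
  (i ≠ k → orb n a σ k ≠ sh ((2 * n + 1) * z) (orb n a σ i)) ∧
  orb n a σ k ≠ sh ((2 * n + 1) * z) (rev (orb n a σ i))

/-- the same for a strand which crosses a slab -/
def S_INJT : Prop := ∀ (n : ℕ) (σ : Cfg) (u v p q : ℤ) (m : ℕ), 1 ≤ n → Per n σ → 0 < m →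
  (nxt σ)^[m] (up p u) = up q v → (∀ i : ℕ, 0 < i → i < m → Inn u v ((nxt σ)^[i] (up p u))) →
  ∀ (i k : ℕ) (z : ℤ), i ≤ m → k ≤ m →
    (i ≠ k → (nxt σ)^[k] (up p u) ≠ sh ((2 * n + 1) * z) ((nxt σ)^[i] (up p u))) ∧
    (nxt σ)^[k] (up p u) ≠ sh ((2 * n + 1) * z) (rev ((nxt σ)^[i] (up p u)))

/-- every level is reached -/
def S_HIT : Prop := ∀ (n : ℕ) (a b : ℤ) (σ : Cfg), 1 ≤ n → Per n σ → a ≤ b →
  ∃ i : ℕ, Hit n a b σ i (dsp n a b σ)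

/-- the displacement is the one of `H906K` -/
def S_XD : Prop := ∀ (n M : ℕ) (c : Fin M → Fin (2 * n + 1) → Bool), 1 ≤ n →
  H906K.Xd n M c = X n M c

/-- the displacement between two levels depends on the rows between them -/
def S_LOC : Prop := ∀ (n : ℕ) (a b h : ℤ) (σ σ' : Cfg), 1 ≤ n → a ≤ b →
  (∀ j t : ℤ, a ≤ t → t < b → σ' j (t + h) = σ j t) → dsp n (a + h) (b + h) σ' = dsp n a b σ

/-- the mean displacement is zero -/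
def S_SYM : Prop := ∀ n M : ℕ, 1 ≤ n → H906K.Ex n M (fun c => (X n M c : ℝ)) = 0

/-! ## slabs crossed by one strand -/

def S_T1MONO : Prop := ∀ (n : ℕ) (σ : Cfg) (u u' v' v : ℤ), 1 ≤ n → Per n σ → u ≤ u' → u' < v' →
  v' ≤ v → T1 n σ u' v' → T1 n σ u v

/-- some strand crosses the slab -/
def S_EXT : Prop := ∀ (n : ℕ) (σ : Cfg) (u v : ℤ), 1 ≤ n → Per n σ → u < v →
  ∃ p q : ℤ, 0 ≤ p ∧ p < 2 * (2 * n + 1) ∧ (p + u) % 2 = 0 ∧ Thr σ u v p q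

/-- the composition formula up to an error controlled by crossings near the level `s` -/
def S_COMP : Prop := ∀ (n : ℕ) (σ : Cfg) (a lo s hi b : ℤ), 1 ≤ n → Per n σ → a ≤ lo → lo ≤ s →
  s ≤ hi → hi ≤ b → (lo = a ∨ T1 n σ lo s) → (hi = b ∨ T1 n σ s hi) → ∀ r : ℕ,
  4 * (2 * n + 1) * (r + 2) ≤ |dsp n a b σ - dsp n a s σ - dsp n s b σ| →
  DC (2 * n + 1) lo hi (a + 1) r σ ∨ DC (2 * n + 1) s hi (s + 1) r σ

/-- **stream functions**: a path which neither starts nor ends in a tile of the rectangle has a height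
function on the rectangle; it is constant along the open diagonals -/
def S_FLOW : Prop := ∀ (x0 x1 u v : ℤ) (s : ℕ → St) (k : ℕ), x0 ≤ x1 → u ≤ v →
  (∀ i ≤ k, Ok (s i)) →
  (∀ i < k, Stp (s i) (s (i + 1)) ∨ (tl (s i) ∉ TR x0 x1 u v ∧ tl (rev (s (i + 1))) ∉ TR x0 x1 u v)) →
  tl (s k) ∉ TR x0 x1 u v → tl (rev (s 0)) ∉ TR x0 x1 u v →
  ∃ H : Pt → ℤ, H (x0, u) = 0 ∧
    (∀ x ∈ CR x0 x1 u v, ∀ y ∈ CR x0 x1 u v, Ok (x, y) → H y - H x = fl s k x y) ∧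
    ∀ σ : Cfg, (∀ i < k, tl (s i) ∈ TR x0 x1 u v → s (i + 1) = nxt σ (s i)) →
      ∀ x ∈ CR x0 x1 u v, ∀ y ∈ CR x0 x1 u v, Op σ x y → H x = H y

/-- **long displacements give many crossings** -/
def S_TRAVG : Prop := ∀ (n : ℕ) (σ : Cfg) (u v ρ : ℤ) (s : ℕ → St) (k r : ℕ), 1 ≤ n → Per n σ →
  (∀ i ≤ k, Ok (s i) ∧ u ≤ (s i).1.2 ∧ (s i).1.2 ≤ v ∧ u ≤ (s i).2.2 ∧ (s i).2.2 ≤ v ∧
    Pty ρ (s i).2) →
  (∀ i < k, s (i + 1) = wk n u σ (s i)) →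
  ((∀ i < k, ∀ q : ℤ, s i ≠ dn q u) ∨
    ((ρ - u) % 2 = 1 ∧ ∀ i < k, ∀ q : ℤ, s i = dn q u → ¬ (2 * n + 1 : ℤ) ∣ q - 2 * n)) →
  (∀ i ≤ k, ∀ l ≤ k, ∀ z : ℤ, (i ≠ l → s l ≠ sh ((2 * n + 1) * z) (s i)) ∧
    s l ≠ sh ((2 * n + 1) * z) (rev (s i))) →
  2 * (2 * n + 1) * (r + 2) ≤ |(s k).1.1 - (s 0).1.1| → DC (2 * n + 1) u v ρ r σ

/-! ## percolation -/

/-- RSW in the coordinates of the tiles -/
def S_RSW : Prop := ∀ K : ℕ, 1 ≤ K → ∃ c : ℝ, 0 < c ∧ ∀ (N : ℕ) (ε : ℤ), 1 ≤ N →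
  c ≤ prF (Tl (K * N) N) (HC ε (K * N)) ∧ c ≤ prF (Tl N (K * N)) (VC ε (K * N))

/-- crossings of different parities intersect -/
def S_EXCL : Prop := ∀ (w h : ℕ) (ε : ℤ) (F G : Finset Pt), 1 ≤ w → 1 ≤ h → F ⊆ Tl w h →
  G ⊆ Tl w h → Disjoint F G → HC ε w F → ¬ VC (ε + 1) h G

/-- many disjoint crossings of a long rectangle are unlikely -/
def S_BKX : Prop := ∃ C q : ℝ, 0 < C ∧ 0 < q ∧ q < 1 ∧ ∀ (N m r : ℕ) (ε : ℤ), 1 ≤ N → 1 ≤ m →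
  prF (Tl N (m * N)) (fun F => ∃ f : Fin r → Finset Pt, (∀ i, f i ⊆ F) ∧
    (∀ i j, i ≠ j → Disjoint (f i) (f j)) ∧ ∀ i, HC ε N (f i)) ≤ C * m * q ^ (r / (C * m) : ℝ)

/-- the same on the cylinder -/
def S_DCP : Prop := ∃ C q : ℝ, 0 < C ∧ 0 < q ∧ q < 1 ∧ ∀ (n M : ℕ) (u v ε : ℤ) (m r : ℕ), 1 ≤ n →
  1 ≤ m → 0 ≤ u → u ≤ v → v ≤ M → v - u ≤ m * (2 * n + 1) →
  pr n M (fun c => DC (2 * n + 1) u v ε r (cfg n M c)) ≤ C * m * q ^ (r / (C * m) : ℝ)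

/-- a slab is crossed by one strand with positive probability -/
def S_T1P : Prop := ∃ c : ℝ, 0 < c ∧ ∀ n : ℕ, 1 ≤ n →
  c ≤ pr n (2 * n + 1) (fun ω => T1 n (cfg n (2 * n + 1) ω) 0 (2 * n + 1))

/-! ## moments -/

/-- the first `M` rows -/
def lft {α : Type} (M M' : ℕ) (c : Fin (M + M') → α) : Fin M → α := fun i => c (Fin.castAdd M' i)

/-- the last `M'` rows -/
def rgt {α : Type} (M M' : ℕ) (c : Fin (M + M') → α) : Fin M' → α := fun i => c (Fin.natAdd M i)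

/-- tail of the error of the composition formula -/
def S_TAIL : Prop := ∃ C κ : ℝ, 0 < C ∧ 0 < κ ∧ ∀ (n M M' : ℕ) (x : ℝ), 1 ≤ n → 0 ≤ x →
  pr n (M + M') (fun c => x * (2 * n + 1) ≤
    |(X n (M + M') c : ℝ) - X n M (lft M M' c) - X n M' (rgt M M' c)|) ≤ C * Real.exp (-κ * √x)

/-- tail of the displacement in a short cylinder -/
def S_TAIL0 : Prop := ∃ C κ : ℝ, 0 < C ∧ 0 < κ ∧ ∀ (n M : ℕ) (x : ℝ), 1 ≤ n → 0 ≤ x →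
  M ≤ 2 * (2 * n + 1) →
  pr n M (fun c => x * (2 * n + 1) ≤ |(X n M c : ℝ)|) ≤ C * Real.exp (-κ * √x)

/-- fourth moments -/
def S_MOM : Prop := ∃ B : ℝ, 0 < B ∧ ∀ n : ℕ, 1 ≤ n →
  (∀ M M' : ℕ, H906K.Ex n (M + M') (fun c => ((X n (M + M') c : ℝ) - X n M (lft M M' c)
    - X n M' (rgt M M' c)) ^ 4) ≤ (B * (2 * n + 1)) ^ 4) ∧
  ∀ M : ℕ, M ≤ 2 * (2 * n + 1) → H906K.Ex n M (fun c => (X n M c : ℝ) ^ 4) ≤ (B * (2 * n + 1)) ^ 4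

/-! ## the abstract central limit theorem -/

/-- average over `M` independent uniform letters -/
noncomputable def Ea {α : Type} [Fintype α] (M : ℕ) (f : (Fin M → α) → ℝ) : ℝ :=
  (∑ c, f c) / (Fintype.card α : ℝ) ^ M

/-- the same for complex functions -/
noncomputable def Ec {α : Type} [Fintype α] (M : ℕ) (f : (Fin M → α) → ℂ) : ℂ :=
  (∑ c, f c) / (Fintype.card α : ℂ) ^ M

/-- hypotheses of the abstract theorem: almost additive functionals -/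
structure Qa {α : Type} [Fintype α] (Y : ∀ M : ℕ, (Fin M → α) → ℝ) (B D : ℝ) (m0 : ℕ) : Prop where
  Bpos : 0 < B
  mpos : 1 ≤ m0
  mean : ∀ M, Ea M (Y M) = 0
  err : ∀ M M' : ℕ, Ea (M + M') (fun c => (Y (M + M') c - Y M (lft M M' c)
    - Y M' (rgt M M' c)) ^ 4) ≤ B ^ 4
  short : ∀ M : ℕ, M ≤ 2 * m0 → Ea M (fun c => Y M c ^ 4) ≤ B ^ 4
  var : Tendsto (fun M : ℕ => Ea M (fun c => Y M c ^ 2) / M) atTop (𝓝 D)

/-- second and fourth moments -/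
def S_QAM : Prop := ∃ K : ℝ, 0 < K ∧ ∀ (α : Type) [Fintype α] [Nonempty α]
  (Y : ∀ M : ℕ, (Fin M → α) → ℝ) (B D : ℝ) (m0 : ℕ), Qa Y B D m0 →
  0 ≤ D ∧ (∀ M : ℕ, |√(Ea M (fun c => Y M c ^ 2)) - √(D * M)| ≤ K * B) ∧
  ∀ M : ℕ, m0 ≤ M → Ea M (fun c => Y M c ^ 4) ≤ K * (B ^ 2 + D * M) ^ 2 + K * (B ^ 2 * (M / m0)) ^ 2

/-- the central limit theorem -/
def S_CLT : Prop := ∀ (δ θ ε : ℝ), 0 < δ → 0 < ε → ∃ A : ℝ, 0 < A ∧ ∀ (α : Type) [Fintype α]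
  [Nonempty α] (Y : ∀ M : ℕ, (Fin M → α) → ℝ) (B D : ℝ) (m0 : ℕ), Qa Y B D m0 →
  δ * B ^ 2 ≤ D * m0 → ∀ M : ℕ, A * m0 ≤ M →
  ‖Ec M (fun c => Complex.exp (((θ * (Y M c / √(D * M)) : ℝ) : ℂ) * Complex.I))
    - Complex.exp (((-(θ ^ 2 / 2) : ℝ) : ℂ))‖ ≤ ε

end Y994.KW
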