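import Pool.Agent.Y994.KW.Det

/-!
# Exchanging coordinates
-/

set_option autoImplicit false

namespace Y994.KW

open Finset

open Classical in
/-- **exchange of coordinates** between a configuration and an independent random set -/
theorem swap {A : Type} [Fintype A] [DecidableEq A] (ι : Pt → A) (β : Pt → Bool) (W : Finset Pt)
    (G : (A → Bool) → Prop) (D : (A → Bool) → Finset Pt) (E : Finset Pt → Prop)
    (T : (A → Bool) → Prop) (hD : ∀ ω, G ω → D ω ⊆ W) (hinj : ∀ ω, G ω → Set.InjOn ι (D ω))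
    (hinv : ∀ ω, G ω → ∀ ω' : A → Bool, (∀ a, (∀ τ ∈ D ω, ι τ ≠ a) → ω' a = ω a) →
      G ω' ∧ D ω' = D ω)
    (hT : ∀ ω F, G ω → F ⊆ W → E F → (∀ τ ∈ D ω, (τ ∈ F ↔ ω (ι τ) = β τ)) → T ω) :
    (W.powerset.filter E).card * ((univ : Finset (A → Bool)).filter G).card ≤
      2 ^ W.card * ((univ : Finset (A → Bool)).filter (fun ω => G ω ∧ T ω)).card := by
  -- the new configuration
  let c1 : (A → Bool) → Finset Pt → (A → Bool) := fun ω F a =>
    if h : ∃ τ ∈ D ω, ι τ = a then (if h.choose ∈ F then β h.choose else ! β h.choose) else ω a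
  let c2 : (A → Bool) → Finset Pt → Finset Pt := fun ω F =>
    W.filter (fun τ => if τ ∈ D ω then ω (ι τ) = β τ else τ ∈ F)
  have e1 : ∀ ω, G ω → ∀ F, ∀ τ ∈ D ω, c1 ω F (ι τ) = if τ ∈ F then β τ else ! β τ := by
    intro ω hω F τ hτ
    have h : ∃ τ' ∈ D ω, ι τ' = ι τ := ⟨τ, hτ, rfl⟩
    have h2 : h.choose = τ := hinj ω hω h.choose_spec.1 hτ h.choose_spec.2
    show (if h : ∃ τ' ∈ D ω, ι τ' = ι τ then _ else _) = _
    rw [dif_pos h, h2]
  have e2 : ∀ ω, G ω → ∀ F a, (∀ τ ∈ D ω, ι τ ≠ a) → c1 ω F a = ω a := by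
    intro ω hω F a ha
    have h : ¬ ∃ τ' ∈ D ω, ι τ' = a := by
      rintro ⟨τ, h1, h2⟩; exact ha τ h1 h2
    show (if h : ∃ τ' ∈ D ω, ι τ' = a then _ else _) = _
    rw [dif_neg h]
  have e3 : ∀ ω, G ω → ∀ F, G (c1 ω F) ∧ D (c1 ω F) = D ω := fun ω hω F =>
    hinv ω hω _ (fun a ha => e2 ω hω F a ha)
  rw [← Finset.card_product, ← Finset.card_powerset W, ← Finset.card_product]
  apply Finset.card_le_card_of_injOn (fun x : Finset Pt × (A → Bool) => (c2 x.2 x.1, c1 x.2 x.1))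
  · rintro ⟨F, ω⟩ hx
    simp only [coe_product, Set.mem_prod, mem_coe, mem_filter, mem_powerset, mem_univ,
      true_and] at hx ⊢
    obtain ⟨⟨hF, hE⟩, hG⟩ := hx
    refine ⟨Finset.filter_subset _ _, (e3 ω hG F).1, ?_⟩
    apply hT _ F (e3 ω hG F).1 hF hE
    intro τ hτ
    rw [(e3 ω hG F).2] at hτ
    rw [e1 ω hG F τ hτ]
    constructor
    · intro h; rw [if_pos h]
    · intro h
      by_contra h2
      rw [if_neg h2] at h
      cases hb : β τ <;> simp [hb] at h
  · rintro ⟨F, ω⟩ hx ⟨F', ω'⟩ hx' he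
    simp only [coe_product, Set.mem_prod, mem_coe, mem_filter, mem_powerset, mem_univ,
      true_and] at hx hx'
    obtain ⟨⟨hF, hE⟩, hG⟩ := hx
    obtain ⟨⟨hF', hE'⟩, hG'⟩ := hx'
    simp only [Prod.mk.injEq] at he
    obtain ⟨h2, h1⟩ := he
    have hDD : D ω = D ω' := by
      rw [← (e3 ω hG F).2, h1, (e3 ω' hG' F').2]
    have hω : ω = ω' := by
      funext a
      by_cases ha : ∀ τ ∈ D ω, ι τ ≠ a
      · rw [← e2 ω hG F a ha, h1, e2 ω' hG' F' a (by rw [← hDD]; exact ha)]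
      · push Not at ha
        obtain ⟨τ, hτ, rfl⟩ := ha
        have hτW := hD ω hG hτ
        have m1 : τ ∈ c2 ω F ↔ ω (ι τ) = β τ := by
          show τ ∈ W.filter _ ↔ _
          rw [mem_filter]
          simp only [hτ, if_true]
          exact ⟨fun h => h.2, fun h => ⟨hτW, h⟩⟩
        have m2 : τ ∈ c2 ω' F' ↔ ω' (ι τ) = β τ := by
          have hτ' : τ ∈ D ω' := by rw [← hDD]; exact hτ
          show τ ∈ W.filter _ ↔ _
          rw [mem_filter]
          simp only [hτ', if_true]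
          exact ⟨fun h => h.2, fun h => ⟨hτW, h⟩⟩
        have h3 : (ω (ι τ) = β τ) ↔ (ω' (ι τ) = β τ) := by
          rw [← m1, ← m2, h2]
        cases h4 : ω (ι τ) <;> cases h5 : ω' (ι τ) <;> cases h6 : β τ <;> simp [h4, h5, h6] at h3 ⊢
    subst hω
    have hFF : F = F' := by
      ext τ
      by_cases hτ : τ ∈ D ω
      · have a1 := e1 ω hG F τ hτ
        have a2 := e1 ω hG F' τ hτ
        rw [h1, a2] at a1
        by_cases g1 : τ ∈ F <;> by_cases g2 : τ ∈ F' <;> simp [g1, g2] at a1 ⊢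
      · have b1 : τ ∈ c2 ω F ↔ τ ∈ F := by
          show τ ∈ W.filter _ ↔ _
          rw [mem_filter]
          simp only [hτ, if_false]
          exact ⟨fun h => h.2, fun h => ⟨hF h, h⟩⟩
        have b2 : τ ∈ c2 ω F' ↔ τ ∈ F' := by
          show τ ∈ W.filter _ ↔ _
          rw [mem_filter]
          simp only [hτ, if_false]
          exact ⟨fun h => h.2, fun h => ⟨hF' h, h⟩⟩
        rw [← b1, ← b2, h2]
    rw [hFF]

/-! ### the tiles between a strand and its translate -/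

section

variable (hF : S_FLOW) {n : ℕ} {σ : Cfg} (hσ : Per n σ) {h p q : ℤ} {m : ℕ} (S : Sd σ h p q m)

include hF hσ S

theorem dd_inj {τ : Pt} {z : ℤ} (h1 : τ ∈ DD n h (w σ p) m)
    (h2 : ((τ.1 + (2 * n + 1) * z : ℤ), τ.2) ∈ DD n h (w σ p) m) : z = 0 := by
  have key : ∀ (τ : Pt) (z : ℤ), 1 ≤ z → τ ∈ DD n h (w σ p) m →
      ((τ.1 + (2 * n + 1) * z : ℤ), τ.2) ∈ DD n h (w σ p) m → False := by
    rintro τ z hz ⟨a1, -, -, a4, -⟩ ⟨-, -, -, -, b5⟩
    simp only at b5
    have e := Hc_sh hσ (p - (2 * n + 1) * (z - 1)) (z - 1) m τ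
    rw [show p - (2 * (n:ℤ) + 1) * (z - 1) + (2 * n + 1) * (z - 1) = p by ring,
      show τ.1 + (2 * (n:ℤ) + 1) * (z - 1) = τ.1 + (2 * n + 1) * z - (2 * n + 1) by ring, b5] at e
    rcases eq_or_lt_of_le hz with hz1 | hz1
    · rw [← hz1, show p - (2 * (n:ℤ) + 1) * (1 - 1) = p by ring] at e
      omega
    · have S' : Sd σ h (p - (2 * n + 1) * (z - 1)) (q + (2 * n + 1) * (-(z - 1))) m := by
        have := S.shift hσ (-(z - 1))
        rwa [show p + (2 * (n:ℤ) + 1) * -(z - 1) = p - (2 * n + 1) * (z - 1) by ring] at this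
      have := cmp hF S' S (by nlinarith) ⟨a1.1, a1.2.le⟩ a4
      omega
  rcases lt_trichotomy z 0 with hz | hz | hz
  · exfalso
    apply key _ (-z) (by omega) h2
    have e : (((((τ.1 + (2 * n + 1) * z : ℤ), τ.2) : Pt).1 + (2 * n + 1) * -z : ℤ),
        (((τ.1 + (2 * n + 1) * z : ℤ), τ.2) : Pt).2) = τ := by
      ext <;> simp
    rw [e]; exact h1
  · exact hz
  · exact (key τ z (by omega) h1 h2).elim

theorem dd_vis {τ : Pt} {z : ℤ} {i : ℕ} (h1 : τ ∈ DD n h (w σ p) m) (hi : i < m)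
    (h2 : tl (w σ p i) = ((τ.1 + (2 * n + 1) * z : ℤ), τ.2)) : False := by
  obtain ⟨a1, a2, a3, a4, a5⟩ := h1
  -- the strand translated by `-z`
  have S' := S.shift hσ (-z)
  have hc := (cn_tl (w_ok σ p i)).1
  rw [h2] at hc
  rcases lt_trichotomy z 0 with hz | hz | hz
  · rcases eq_or_lt_of_le (show z ≤ -1 by omega) with hz1 | hz1
    · exact a3 ⟨i, hi, by rw [h2, hz1]; ext <;> simp; ring⟩
    · have S'' := S.shift hσ (-z - 1)
      have f := (F7 hF S S'' (by nlinarith) hi.le).1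
      rw [if_pos (by nlinarith), w_shift hσ] at f
      have hcn : Cn (τ.1 - (2 * n + 1), τ.2) (sh ((2 * n + 1) * (-z - 1)) (w σ p i)).1 := by
        unfold Cn sh at *
        simp only at hc ⊢
        refine ⟨?_, hc.2⟩
        rcases hc.1 with g | g
        · left; rw [g]; ring
        · right; rw [g]; ring
      have := vs_const S hF (τ := (τ.1 - (2 * n + 1), τ.2)) a1 a3 hcn
      omega
  · exact a2 ⟨i, hi, by rw [h2, hz]; ext <;> simp⟩
  · have f := (F7 hF S S' (by nlinarith) hi.le).1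
    rw [if_neg (by nlinarith), w_shift hσ] at f
    have hcn : Cn τ (sh ((2 * n + 1) * (-z)) (w σ p i)).1 := by
      unfold Cn sh at *
      simp only at hc ⊢
      refine ⟨?_, hc.2⟩
      rcases hc.1 with g | g
      · left; rw [g]; ring
      · right; rw [g]; ring
    have := vs_const S hF a1 a2 hcn
    omega

omit hF hσ in
/-- a configuration which agrees on the tiles of the strand has the same strand -/
theorem w_congr {σ' : Cfg} (hs : ∀ i < m, σ' (tl (w σ p i)).1 (tl (w σ p i)).2 =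
    σ (tl (w σ p i)).1 (tl (w σ p i)).2) : ∀ i ≤ m, w σ' p i = w σ p i := by
  intro i
  induction i with
  | zero => intro _; rfl
  | succ i ih =>
    intro hi
    rw [w_succ, w_succ, ih (by omega)]
    unfold nxt
    rw [hs i (by omega)]

end

theorem Hc_congr {s s' : ℕ → St} {m : ℕ} (h : ∀ i ≤ m, s i = s' i) (x : Pt) : Hc s m x = Hc s' m x := by
  unfold Hc
  apply Finset.sum_congr rfl
  intro i hi
  rw [h i (by simpa [Nat.lt_succ_iff] using hi)]

theorem DD_congr {n : ℕ} {h : ℤ} {s s' : ℕ → St} {m : ℕ} (hs : ∀ i ≤ m, s i = s' i) :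
    DD n h s m = DD n h s' m := by
  have e : ∀ τ : Pt, (∃ i < m, tl (s i) = τ) ↔ ∃ i < m, tl (s' i) = τ := by
    intro τ
    constructor
    · rintro ⟨i, h1, h2⟩; exact ⟨i, h1, by rw [← hs i h1.le]; exact h2⟩
    · rintro ⟨i, h1, h2⟩; exact ⟨i, h1, by rw [hs i h1.le]; exact h2⟩
  ext τ
  unfold DD
  simp only [Set.mem_setOf_eq, e, Hc_congr hs]

/-- the number of steps of a crossing strand is determined -/
theorem Sd.uniq {σ : Cfg} {h p q q' : ℤ} {m m' : ℕ} (S : Sd σ h p q m) (S' : Sd σ h p q' m') :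
    m = m' := by
  have key : ∀ {q q' : ℤ} {m m' : ℕ}, Sd σ h p q m → Sd σ h p q' m' → ¬ m < m' := by
    intro q q' m m' S S' hlt
    have := S'.inn m S.mpos hlt
    rw [S.fin] at this
    unfold Inn up at this
    simp only at this
    omega
  have h1 := key S S'
  have h2 := key S' S
  omega

end Y994.KW
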