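import Pool.Agent.Y994.KW.Swap

/-!
# Slabs crossed by one strand have positive probability
-/

set_option autoImplicit false

namespace Y994.KW

open Finset

/-- all the corners of the path are in the columns `-B, …, B` -/
def Bd (B : ℤ) (s : ℕ → St) (m : ℕ) : Prop := ∀ i ≤ m, -B ≤ (s i).1.1 ∧ (s i).1.1 ≤ B ∧
  -B ≤ (s i).2.1 ∧ (s i).2.1 ≤ B

theorem w_ne_dn {σ : Cfg} {h p q : ℤ} {m : ℕ} (S : Sd σ h p q m) {i : ℕ} (hi : i < m) (k : ℤ) :
    w σ p i ≠ dn k 0 := by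
  intro e
  rcases Nat.eq_zero_or_pos i with h0 | h0
  · subst h0; exact up_ne_dn _ _ _ _ (show up p 0 = dn k 0 from e)
  · have := S.inn i h0 hi
    rw [show (nxt σ)^[i] (up p 0) = dn k 0 from e] at this
    exact not_inn_dn this

/-- strands with a large extension come with many crossings -/
theorem range_of (hT : S_TRAVG) {n : ℕ} (hn : 1 ≤ n) {σ : Cfg} (hσ : Per n σ) {h p q : ℤ} {m : ℕ}
    (S : Sd σ h p q m) (hp : p % 2 = 0) {r : ℕ} (hr : ¬ DC (2 * n + 1) 0 h 1 r σ) {i : ℕ}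
    (hi : i ≤ m) : |(w σ p i).1.1 - p| < 2 * (2 * n + 1) * (r + 2) := by
  by_contra hc
  push Not at hc
  apply hr
  apply hT n σ 0 h 1 (w σ p) i r hn hσ
  · intro k hk
    have := S.lev (show k ≤ m by omega)
    exact ⟨w_ok σ p k, this.1, this.2.1, this.2.2.1, this.2.2.2, (w_pty hp k).2⟩
  · intro k hk
    rw [w_succ]
    unfold wk
    rw [if_neg]
    rintro ⟨h1, h2, h3⟩
    apply w_ne_dn S (show k < m by omega) (w σ p k).2.1
    unfold dn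
    ext
    · simp [h3]
    · simp [h1]
    · simp
    · simp [h2]
  · left
    intro k hk q'
    exact w_ne_dn S (show k < m by omega) q'
  · intro k hk l hl z
    have S' := S.shift hσ z
    constructor
    · intro hkl
      rw [← w_shift hσ]
      exact S.ne S' (by omega) (by omega) (Or.inr (Ne.symm hkl))
    · rw [sh_rev, ← w_shift hσ]
      exact S.ne_rev S' (by omega) (by omega)
  · exact hc

theorem ok_near {s : St} (h : Ok s) : s.2.1 ≤ s.1.1 + 1 ∧ s.1.1 ≤ s.2.1 + 1 := by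
  obtain ⟨q, t, h | h | h | h⟩ := ok_cases h <;> subst h <;> simp <;> omega

theorem per_cfg (n M : ℕ) (c : Fin M → Fin (2 * n + 1) → Bool) : Per n (cfg n M c) := by
  intro j t
  unfold cfg
  split_ifs
  · congr 1
    unfold H906K.jx
    simp only [Fin.mk.injEq]
    congr 1
    push_cast
    exact Int.add_emod_right j (2 * (n:ℤ) + 1)
  · rfl

theorem mem_Tl {w h : ℕ} {x : Pt} : x ∈ Tl w h ↔ 0 ≤ x.1 ∧ x.1 < w ∧ 0 ≤ x.2 ∧ x.2 < h := by
  unfold Tl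
  simp only [mem_image, mem_product, mem_range, Prod.exists]
  constructor
  · rintro ⟨a, b, ⟨h1, h2⟩, rfl⟩
    simp only
    omega
  · rintro ⟨h1, h2, h3, h4⟩
    exact ⟨x.1.toNat, x.2.toNat, ⟨by omega, by omega⟩,
      Prod.ext (Int.toNat_of_nonneg h1) (Int.toNat_of_nonneg h3)⟩

theorem op_iff_odd {σ : Cfg} {a b τ : Pt} (h : Dg a b τ) (ha : Pty 1 a) :
    Op σ a b ↔ σ τ.1 τ.2 = decide ((τ.1 + τ.2) % 2 = 0) := by
  obtain ⟨a1, a2⟩ := a
  obtain ⟨b1, b2⟩ := b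
  obtain ⟨t1, t2⟩ := τ
  unfold Pty at ha
  unfold Dg at h
  unfold Op
  simp only [Prod.mk.injEq, Prod.mk_add_mk] at h ha ⊢
  rcases h with ⟨⟨g1, g2⟩, g3, g4⟩ | ⟨⟨g1, g2⟩, g3, g4⟩ | ⟨⟨g1, g2⟩, g3, g4⟩ | ⟨⟨g1, g2⟩, g3, g4⟩
  · subst g1 g2 g3 g4
    have e : decide ((t1 + t2) % 2 = 0) = false := by
      rw [decide_eq_false_iff_not]; omega
    rw [e]
    constructor
    · rintro (⟨-, h⟩ | ⟨⟨h, -⟩, -⟩ | ⟨⟨h, -⟩, -⟩ | ⟨⟨-, h⟩, -⟩)
      · exact h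
      all_goals (exfalso; omega)
    · intro h; exact Or.inl ⟨⟨rfl, rfl⟩, h⟩
  · subst g1 g2 g3 g4
    have e : decide ((t1 + t2) % 2 = 0) = false := by
      rw [decide_eq_false_iff_not]; omega
    rw [e]
    constructor
    · rintro (⟨⟨h, -⟩, -⟩ | ⟨-, h⟩ | ⟨⟨h, h'⟩, -⟩ | ⟨⟨h, h'⟩, -⟩)
      · exfalso; omega
      · exact h
      all_goals (exfalso; omega)
    · intro h; exact Or.inr (Or.inl ⟨⟨rfl, rfl⟩, h⟩)
  · have e : decide ((t1 + t2) % 2 = 0) = true := by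
      rw [decide_eq_true_iff]; omega
    rw [e]
    constructor
    · rintro (⟨⟨h, -⟩, -⟩ | ⟨⟨h, h'⟩, -⟩ | ⟨-, h⟩ | ⟨⟨h, h'⟩, -⟩)
      · exfalso; omega
      · exfalso; omega
      · rw [g3, g4]; exact h
      · exfalso; omega
    · intro h; exact Or.inr (Or.inr (Or.inl ⟨⟨g1, g2⟩, by rw [← g3, ← g4]; exact h⟩))
  · have e : decide ((t1 + t2) % 2 = 0) = true := by
      rw [decide_eq_true_iff]; omega
    rw [e]
    constructor
    · rintro (⟨⟨h, h'⟩, -⟩ | ⟨⟨h, h'⟩, -⟩ | ⟨⟨h, h'⟩, -⟩ | ⟨-, h⟩)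
      · exfalso; omega
      · exfalso; omega
      · exfalso; omega
      · rw [g3, g4]; exact h
    · intro h; exact Or.inr (Or.inr (Or.inr ⟨⟨g1, g2⟩, by rw [← g3, ← g4]; exact h⟩))

section

variable (n : ℕ)

/-- the configuration of the plane of a word of bits -/
def sg (ω : Fin (2 * n + 1) × Fin (2 * n + 1) → Bool) : Cfg :=
  cfg n (2 * n + 1) (fun t j => ω (t, j))

/-- the coordinate of a tile (translated by `B`) -/
def io (B : ℤ) (τ : Pt) : Fin (2 * n + 1) × Fin (2 * n + 1) :=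
  (H906K.jx (2 * n) τ.2, H906K.jx (2 * n) (τ.1 - B))

theorem jx_val (x : ℤ) : (((H906K.jx (2 * n) x).val : ℕ) : ℤ) = x % (2 * n + 1) := by
  unfold H906K.jx
  simp only
  rw [Int.toNat_of_nonneg (Int.emod_nonneg x (show (((2 * n : ℕ) : ℤ) + 1) ≠ 0 by omega))]
  push_cast; rfl

theorem sg_io {B : ℤ} {ω : Fin (2 * n + 1) × Fin (2 * n + 1) → Bool} {τ : Pt}
    (hτ : 0 ≤ τ.2 ∧ τ.2 < 2 * n + 1) : sg n ω (τ.1 - B) τ.2 = ω (io n B τ) := by
  unfold sg cfg io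
  rw [dif_pos (by push_cast; exact hτ)]
  congr 1
  ext
  have := jx_val n τ.2
  rw [Int.emod_eq_of_lt hτ.1 hτ.2] at this
  simp only
  omega

theorem io_eq {B : ℤ} {τ τ' : Pt} (h1 : 0 ≤ τ.2 ∧ τ.2 < 2 * n + 1) (h2 : 0 ≤ τ'.2 ∧ τ'.2 < 2 * n + 1)
    (h : io n B τ = io n B τ') : τ.2 = τ'.2 ∧ ∃ z : ℤ, τ'.1 = τ.1 + (2 * n + 1) * z := by
  unfold io at h
  simp only [Prod.mk.injEq] at h
  obtain ⟨g1, g2⟩ := h
  constructor
  · have e1 := jx_val n τ.2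
    have e2 := jx_val n τ'.2
    rw [Int.emod_eq_of_lt h1.1 h1.2] at e1
    rw [Int.emod_eq_of_lt h2.1 h2.2] at e2
    rw [← e1, ← e2, g1]
  · have e1 := jx_val n (τ.1 - B)
    have e2 := jx_val n (τ'.1 - B)
    rw [g2] at e1
    have e3 : (τ'.1 - B) % (2 * n + 1) = (τ.1 - B) % (2 * n + 1) := by rw [← e1, ← e2]
    obtain ⟨z, hz⟩ := Int.ModEq.dvd (show (τ.1 - B) ≡ (τ'.1 - B) [ZMOD (2 * n + 1)] from e3.symm)
    exact ⟨z, by linarith⟩

end

end Y994.KW
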