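import Pool.Agent.Y994.KW.T1P

/-!
# Slabs crossed by one strand have positive probability, II
-/

set_option autoImplicit false

namespace Y994.KW

open Finset

section

variable (n : ℕ)

/-- there is a bounded strand which starts at `p` -/
def Gp (B : ℤ) (p : ℤ) (ω : Fin (2 * n + 1) × Fin (2 * n + 1) → Bool) : Prop :=
  ∃ (m : ℕ) (q : ℤ), Sd (sg n ω) (2 * n + 1) p q m ∧ Bd B (w (sg n ω) p) m

open Classical in
/-- the tiles between the strand and its translate (translated by `B`) -/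
noncomputable def Dp (B : ℤ) (W : Finset Pt) (p : ℤ)
    (ω : Fin (2 * n + 1) × Fin (2 * n + 1) → Bool) : Finset Pt :=
  W.filter (fun τ => ∃ (m : ℕ) (q : ℤ), Sd (sg n ω) (2 * n + 1) p q m ∧
    ((τ.1 - B, τ.2) : Pt) ∈ DD n (2 * n + 1) (w (sg n ω) p) m)

theorem mem_Dp {B : ℤ} {W : Finset Pt} {p q : ℤ} {ω : Fin (2 * n + 1) × Fin (2 * n + 1) → Bool}
    {m : ℕ} (S : Sd (sg n ω) (2 * n + 1) p q m) {τ : Pt} : τ ∈ Dp n B W p ω ↔ τ ∈ W ∧
      ((τ.1 - B, τ.2) : Pt) ∈ DD n (2 * n + 1) (w (sg n ω) p) m := by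
  classical
  unfold Dp
  rw [mem_filter]
  constructor
  · rintro ⟨h1, m', q', S', h2⟩
    rw [S.uniq S']
    exact ⟨h1, h2⟩
  · rintro ⟨h1, h2⟩
    exact ⟨h1, m, q, S, h2⟩

theorem per_sg (ω : Fin (2 * n + 1) × Fin (2 * n + 1) → Bool) : Per n (sg n ω) := per_cfg _ _ _

theorem step_T1 (hF : S_FLOW) (B : ℕ) (hB : (B : ℤ) % 2 = 0) (K : ℕ)
    (hK : 2 * (B : ℤ) + (2 * n + 1) < K) (p : ℤ) (hp : p % 2 = 0) :
    open Classical in
    ((Tl K (2 * n + 1)).powerset.filter (HC 1 K)).card *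
      ((univ : Finset (Fin (2 * n + 1) × Fin (2 * n + 1) → Bool)).filter (Gp n B p)).card ≤
      2 ^ (Tl K (2 * n + 1)).card *
        ((univ : Finset (Fin (2 * n + 1) × Fin (2 * n + 1) → Bool)).filter
          (fun ω => Gp n B p ω ∧ T1 n (sg n ω) 0 (2 * n + 1))).card := by
  classical
  apply swap (io n B) (fun τ => decide ((τ.1 - B + τ.2) % 2 = 0)) (Tl K (2 * n + 1)) (Gp n B p)
    (Dp n B (Tl K (2 * n + 1)) p) (HC 1 K) (fun ω => T1 n (sg n ω) 0 (2 * n + 1))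
  · intro ω _
    exact Finset.filter_subset _ _
  · -- injectivity
    rintro ω ⟨m, q, S, hb⟩ τ hτ τ' hτ' he
    rw [mem_coe, mem_Dp n S] at hτ hτ'
    have h1 := mem_Tl.1 hτ.1
    have h2 := mem_Tl.1 hτ'.1
    push_cast at h1 h2
    obtain ⟨e1, z, hz⟩ := io_eq n ⟨h1.2.2.1, h1.2.2.2⟩ ⟨h2.2.2.1, h2.2.2.2⟩ he
    have h3 := hτ'.2
    rw [← e1, show τ'.1 - (B : ℤ) = τ.1 - B + (2 * n + 1) * z by rw [hz]; ring] at h3
    have := dd_inj hF (per_sg n ω) S hτ.2 h3
    subst this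
    exact Prod.ext (by rw [hz]; ring) e1
  · -- invariance
    rintro ω ⟨m, q, S, hb⟩ ω' hω'
    have hs : ∀ i < m, sg n ω' (tl (w (sg n ω) p i)).1 (tl (w (sg n ω) p i)).2 =
        sg n ω (tl (w (sg n ω) p i)).1 (tl (w (sg n ω) p i)).2 := by
      intro i hi
      have hlev := S.tl_lev hi
      set t := tl (w (sg n ω) p i) with ht
      have e1 := sg_io n (B := B) (ω := ω) (τ := (t.1 + B, t.2)) hlev
      have e2 := sg_io n (B := B) (ω := ω') (τ := (t.1 + B, t.2)) hlev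
      simp only [add_sub_cancel_right] at e1 e2
      rw [e1, e2]
      apply hω'
      intro τ hτ he
      rw [mem_Dp n S] at hτ
      have h1 := mem_Tl.1 hτ.1
      push_cast at h1
      obtain ⟨e3, z, hz⟩ := io_eq n (τ' := (t.1 + B, t.2)) ⟨h1.2.2.1, h1.2.2.2⟩ hlev he
      simp only at e3 hz
      apply dd_vis hF (per_sg n ω) S (z := z) hτ.2 hi
      rw [← ht]
      exact Prod.ext (by simp only; linarith) e3.symm
    have hw := w_congr S hs
    have S' : Sd (sg n ω') (2 * n + 1) p q m := by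
      refine ⟨S.hpos, S.mpos, ?_, ?_⟩
      · rw [show (nxt (sg n ω'))^[m] (up p 0) = w (sg n ω') p m from rfl, hw m le_rfl]
        exact S.fin
      · intro i h1 h2
        rw [show (nxt (sg n ω'))^[i] (up p 0) = w (sg n ω') p i from rfl, hw i h2.le]
        exact S.inn i h1 h2
    refine ⟨⟨m, q, S', ?_⟩, ?_⟩
    · intro i hi
      rw [hw i hi]; exact hb i hi
    · ext τ
      rw [mem_Dp n S, mem_Dp n S', DD_congr hw]
  · -- one strand
    rintro ω F ⟨m, q, S, hb⟩ hFW ⟨x, y, hx, hy, hxy⟩ hag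
    -- the path in the plane
    have hOB : ∀ a b : Pt, OB 1 F a b → ∃ τ, Dg a b τ ∧ Pty 1 a ∧ τ ∈ F := by
      rintro a b ⟨h1, h2, h3 | h3 | h3 | h3⟩
      · exact ⟨a, Or.inl ⟨h3.1, rfl⟩, h1, h3.2⟩
      · exact ⟨b, Or.inr (Or.inl ⟨h3.1, rfl⟩), h1, h3.2⟩
      · exact ⟨(b.1, a.2), Or.inr (Or.inr (Or.inl ⟨h3.1, rfl⟩)), h1, h3.2⟩
      · exact ⟨(a.1, b.2), Or.inr (Or.inr (Or.inr ⟨h3.1, rfl⟩)), h1, h3.2⟩
    have hrow : ∀ a b : Pt, OB 1 F a b → (0 ≤ a.2 ∧ a.2 ≤ 2 * n + 1) ∧ (0 ≤ b.2 ∧ b.2 ≤ 2 * n + 1) := by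
      intro a b hab
      obtain ⟨τ, h1, h2, h3⟩ := hOB a b hab
      have h4 := mem_Tl.1 (hFW h3)
      push_cast at h4
      obtain ⟨h5, h6⟩ := dg_cn h1
      constructor
      · rcases h5.2 with g | g <;> omega
      · rcases h6.2 with g | g <;> omega
    have hne : x ≠ y := by
      intro h
      rw [h, hy] at hx
      omega
    have hends : (0 ≤ x.2 ∧ x.2 ≤ 2 * n + 1) ∧ (0 ≤ y.2 ∧ y.2 ≤ 2 * n + 1) := by
      constructor
      · rcases Relation.ReflTransGen.cases_head hxy with h | ⟨c, h1, -⟩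
        · exact absurd h hne
        · exact (hrow _ _ h1).1
      · rcases Relation.ReflTransGen.cases_tail hxy with h | ⟨c, -, h1⟩
        · exact absurd h.symm hne
        · exact (hrow _ _ h1).2
    apply det hF (per_sg n ω) S hp (B := B) hb (x := (x.1 - B, x.2)) (y := (y.1 - B, y.2))
    · simp only; omega
    · simpa using hends.1
    · simp only; rw [hy]; omega
    · simpa using hends.2
    · -- translate the path
      have hlift : ∀ {r r' : Pt → Pt → Prop} (f : Pt → Pt), (∀ a b, r a b → r' (f a) (f b)) →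
          ∀ {x y : Pt}, Relation.ReflTransGen r x y → Relation.ReflTransGen r' (f x) (f y) := by
        intro r r' f hf x y hxy
        induction hxy with
        | refl => exact Relation.ReflTransGen.refl
        | tail _ h ih => exact ih.tail (hf _ _ h)
      refine hlift (fun a : Pt => ((a.1 - B, a.2) : Pt)) ?_ hxy
      intro a b hab
      obtain ⟨τ, h1, h2, h3⟩ := hOB a b hab
      have h4 := mem_Tl.1 (hFW h3)
      push_cast at h4
      have hdg : Dg (a.1 - B, a.2) (b.1 - B, b.2) (τ.1 - B, τ.2) := by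
        rcases h1 with ⟨g1, g2⟩ | ⟨g1, g2⟩ | ⟨g1, g2⟩ | ⟨g1, g2⟩ <;> subst g1 g2
        · exact Or.inl ⟨by ext <;> simp; ring, rfl⟩
        · exact Or.inr (Or.inl ⟨by ext <;> simp; ring, rfl⟩)
        · exact Or.inr (Or.inr (Or.inl ⟨by ext <;> simp; ring, rfl⟩))
        · exact Or.inr (Or.inr (Or.inr ⟨by ext <;> simp; ring, rfl⟩))
      have hpa : Pty 1 ((a.1 - B, a.2) : Pt) := by
        unfold Pty at h2 ⊢
        simp only
        omega
      refine ⟨(τ.1 - B, τ.2), hdg, hpa, ⟨h4.2.2.1, h4.2.2.2⟩, ?_⟩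
      intro hτD
      rw [op_iff_odd hdg hpa]
      simp only
      rw [sg_io n ⟨h4.2.2.1, h4.2.2.2⟩]
      exact (hag τ ((mem_Dp n S).2 ⟨hFW h3, hτD⟩)).1 h3

end

end Y994.KW
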