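import Pool.Agent.Y994.KW.Stm

/-!
# The walker: elementary facts
-/

set_option autoImplicit false

namespace Y994.KW

theorem ok_cases {s : St} (h : Ok s) : ∃ q t : ℤ, s = ((q, t), (q + 1, t)) ∨ s = ((q + 1, t), (q, t)) ∨
    s = ((q, t), (q, t + 1)) ∨ s = ((q, t + 1), (q, t)) := h

theorem nxt_up (σ : Cfg) (q t : ℤ) : nxt σ ((q, t), (q + 1, t)) =
    if σ q t = false then ((q + 1, t + 1), (q + 1, t)) else ((q, t), (q, t + 1)) := by
  unfold nxt tl rot
  simp

theorem nxt_dn (σ : Cfg) (q t : ℤ) : nxt σ ((q + 1, t), (q, t)) =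
    if σ q (t - 1) = false then ((q, t - 1), (q, t)) else ((q + 1, t), (q + 1, t - 1)) := by
  unfold nxt tl rot
  simp [sub_eq_add_neg]

theorem nxt_lf (σ : Cfg) (q t : ℤ) : nxt σ ((q, t), (q, t + 1)) =
    if σ (q - 1) t = true then ((q - 1, t + 1), (q, t + 1)) else ((q, t), (q - 1, t)) := by
  unfold nxt tl rot
  simp [sub_eq_add_neg]

theorem nxt_rt (σ : Cfg) (q t : ℤ) : nxt σ ((q, t + 1), (q, t)) =
    if σ q t = true then ((q + 1, t), (q, t)) else ((q, t + 1), (q + 1, t + 1)) := by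
  unfold nxt tl rot
  simp

theorem tl_up (q t : ℤ) : tl ((q, t), (q + 1, t)) = (q, t) := by
  unfold tl rot; simp

theorem tl_dn (q t : ℤ) : tl ((q + 1, t), (q, t)) = (q, t - 1) := by
  unfold tl rot; simp [sub_eq_add_neg]

theorem tl_lf (q t : ℤ) : tl ((q, t), (q, t + 1)) = (q - 1, t) := by
  unfold tl rot; simp [sub_eq_add_neg]

theorem tl_rt (q t : ℤ) : tl ((q, t + 1), (q, t)) = (q, t) := by
  unfold tl rot; simp

theorem ok_rev {s : St} (h : Ok s) : Ok (rev s) := by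
  obtain ⟨q, t, h | h | h | h⟩ := h
  · exact ⟨q, t, Or.inr (Or.inl (by rw [h]; rfl))⟩
  · exact ⟨q, t, Or.inl (by rw [h]; rfl)⟩
  · exact ⟨q, t, Or.inr (Or.inr (Or.inr (by rw [h]; rfl)))⟩
  · exact ⟨q, t, Or.inr (Or.inr (Or.inl (by rw [h]; rfl)))⟩

theorem ok_nxt {σ : Cfg} {s : St} (h : Ok s) : Ok (nxt σ s) := by
  obtain ⟨q, t, h | h | h | h⟩ := ok_cases h <;> subst h
  · rw [nxt_up]; split_ifs
    · exact ⟨q + 1, t, Or.inr (Or.inr (Or.inr rfl))⟩
    · exact ⟨q, t, Or.inr (Or.inr (Or.inl rfl))⟩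
  · rw [nxt_dn]; split_ifs
    · exact ⟨q, t - 1, Or.inr (Or.inr (Or.inl (by simp)))⟩
    · exact ⟨q + 1, t - 1, Or.inr (Or.inr (Or.inr (by simp)))⟩
  · rw [nxt_lf]; split_ifs
    · exact ⟨q - 1, t + 1, Or.inl (by simp [up])⟩
    · exact ⟨q - 1, t, Or.inr (Or.inl (by simp [dn]))⟩
  · rw [nxt_rt]; split_ifs
    · exact ⟨q, t, Or.inr (Or.inl rfl)⟩
    · exact ⟨q, t + 1, Or.inl rfl⟩

theorem rev_rev (s : St) : rev (rev s) = s := rfl

/-- the steps can be reversed -/
theorem rev_nxt {σ : Cfg} {s : St} (h : Ok s) : rev (nxt σ (rev (nxt σ s))) = s := by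
  obtain ⟨q, t, h | h | h | h⟩ := ok_cases h <;> subst h
  · rw [nxt_up]; split_ifs with h1
    · show rev (nxt σ ((q + 1, t), (q + 1, t + 1))) = _
      rw [nxt_lf, if_neg (by simp [h1])]; simp [rev]
    · show rev (nxt σ ((q, t + 1), (q, t))) = _
      rw [nxt_rt, if_pos (by simpa using h1)]; simp [rev]
  · rw [nxt_dn]; split_ifs with h1
    · show rev (nxt σ ((q, t), (q, t - 1))) = _
      have := nxt_rt σ q (t - 1)
      rw [sub_add_cancel] at this
      rw [this, if_neg (by simp [h1])]; simp [rev]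
    · show rev (nxt σ ((q + 1, t - 1), (q + 1, t))) = _
      have := nxt_lf σ (q + 1) (t - 1)
      rw [sub_add_cancel, add_sub_cancel_right] at this
      rw [this, if_pos (by simpa using h1)]; simp [rev]
  · rw [nxt_lf]; split_ifs with h1
    · show rev (nxt σ ((q, t + 1), (q - 1, t + 1))) = _
      have := nxt_dn σ (q - 1) (t + 1)
      rw [sub_add_cancel, add_sub_cancel_right] at this
      rw [this, if_neg (by simp [h1])]; simp [rev]
    · show rev (nxt σ ((q - 1, t), (q, t))) = _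
      have := nxt_up σ (q - 1) t
      rw [sub_add_cancel] at this
      rw [this, if_pos (by simpa using h1)]; simp [rev]
  · rw [nxt_rt]; split_ifs with h1
    · show rev (nxt σ ((q, t), (q + 1, t))) = _
      rw [nxt_up, if_neg (by simp [h1])]; simp [rev]
    · show rev (nxt σ ((q + 1, t + 1), (q, t + 1))) = _
      rw [nxt_dn, if_pos (by simpa using h1)]; simp [rev]

/-- the tile behind the walker after a step -/
theorem tl_rev_nxt {σ : Cfg} {s : St} (h : Ok s) : tl (rev (nxt σ s)) = tl s := by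
  obtain ⟨q, t, h | h | h | h⟩ := ok_cases h <;> subst h
  · rw [nxt_up, tl_up]; split_ifs
    · show tl ((q + 1, t), (q + 1, t + 1)) = _
      rw [tl_lf]; simp
    · show tl ((q, t + 1), (q, t)) = _
      rw [tl_rt]
  · rw [nxt_dn, tl_dn]; split_ifs
    · show tl ((q, t), (q, t - 1)) = _
      have := tl_rt q (t - 1)
      rwa [sub_add_cancel] at this
    · show tl ((q + 1, t - 1), (q + 1, t)) = _
      have := tl_lf (q + 1) (t - 1)
      rwa [sub_add_cancel, add_sub_cancel_right] at this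
  · rw [nxt_lf, tl_lf]; split_ifs
    · show tl ((q, t + 1), (q - 1, t + 1)) = _
      have := tl_dn (q - 1) (t + 1)
      rwa [sub_add_cancel, add_sub_cancel_right] at this
    · show tl ((q - 1, t), (q, t)) = _
      have := tl_up (q - 1) t
      rwa [sub_add_cancel] at this
  · rw [nxt_rt, tl_rt]; split_ifs
    · show tl ((q, t), (q + 1, t)) = _
      rw [tl_up]
    · show tl ((q + 1, t + 1), (q, t + 1)) = _
      rw [tl_dn]; simp

theorem nxt_inj {σ : Cfg} {s s' : St} (h : Ok s) (h' : Ok s') (e : nxt σ s = nxt σ s') : s = s' := by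
  rw [← rev_nxt (σ := σ) h, e, rev_nxt h']

theorem stp_nxt (σ : Cfg) (s : St) : Stp s (nxt σ s) := by
  unfold nxt Stp
  split_ifs
  · exact Or.inl rfl
  · exact Or.inr rfl

/-- in a step one corner is fixed and the other one moves along an open diagonal -/
theorem step_op {σ : Cfg} {s : St} (h : Ok s) :
    ((nxt σ s).2 = s.2 ∧ Op σ s.1 (nxt σ s).1) ∨ ((nxt σ s).1 = s.1 ∧ Op σ s.2 (nxt σ s).2) := by
  obtain ⟨q, t, h | h | h | h⟩ := ok_cases h <;> subst h
  · rw [nxt_up]; split_ifs with h1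
    · left; refine ⟨rfl, Or.inl ⟨rfl, h1⟩⟩
    · right; refine ⟨rfl, Or.inr (Or.inr (Or.inl ⟨by simp, by simpa using h1⟩))⟩
  · rw [nxt_dn]; split_ifs with h1
    · left; refine ⟨rfl, Or.inr (Or.inl ⟨by simp, h1⟩)⟩
    · right; refine ⟨rfl, Or.inr (Or.inr (Or.inr ⟨by simp, by simpa using h1⟩))⟩
  · rw [nxt_lf]; split_ifs with h1
    · left; refine ⟨rfl, Or.inr (Or.inr (Or.inl ⟨by simp [sub_eq_add_neg], h1⟩))⟩
    · right; refine ⟨rfl, Or.inr (Or.inl ⟨by simp, by simpa using h1⟩)⟩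
  · rw [nxt_rt]; split_ifs with h1
    · left; refine ⟨rfl, Or.inr (Or.inr (Or.inr ⟨by simp, by simpa using h1⟩))⟩
    · right; refine ⟨rfl, Or.inl ⟨by simp, by simpa using h1⟩⟩

/-! ### translations -/

theorem ok_sh {s : St} (z : ℤ) (h : Ok s) : Ok (sh z s) := by
  obtain ⟨q, t, h | h | h | h⟩ := ok_cases h <;> subst h
  · exact ⟨q + z, t, Or.inl (by simp [sh, up]; ring)⟩
  · exact ⟨q + z, t, Or.inr (Or.inl (by simp [sh, dn]; ring))⟩
  · exact ⟨q + z, t, Or.inr (Or.inr (Or.inl (by simp [sh])))⟩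
  · exact ⟨q + z, t, Or.inr (Or.inr (Or.inr (by simp [sh])))⟩

theorem per_mul {n : ℕ} {σ : Cfg} (hσ : Per n σ) (z : ℤ) (j t : ℤ) :
    σ (j + (2 * n + 1) * z) t = σ j t := by
  have h1 : ∀ k : ℕ, ∀ j, σ (j + (2 * n + 1) * k) t = σ j t := by
    intro k
    induction k with
    | zero => intro j; simp
    | succ k ih =>
      intro j
      rw [show j + (2 * (n:ℤ) + 1) * ((k + 1 : ℕ) : ℤ) = (j + (2 * n + 1) * k) + (2 * n + 1) by
        push_cast; ring, hσ, ih]
  rcases Int.eq_nat_or_neg z with ⟨k, rfl | rfl⟩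
  · exact h1 k j
  · have := h1 k (j + (2 * n + 1) * (-(k : ℤ)))
    rw [show j + (2 * (n:ℤ) + 1) * (-(k : ℤ)) + (2 * n + 1) * k = j by ring] at this
    exact this.symm

theorem tl_sh (z : ℤ) (s : St) : tl (sh z s) = ((tl s).1 + z, (tl s).2) := by
  unfold tl sh rot
  simp only [Prod.fst_sub, Prod.snd_sub, add_sub_add_right_eq_sub, Prod.mk.injEq, and_true]
  rw [min_add_add_right]
  ring

theorem nxt_sh {n : ℕ} {σ : Cfg} (hσ : Per n σ) (z : ℤ) (s : St) :
    nxt σ (sh ((2 * n + 1) * z) s) = sh ((2 * n + 1) * z) (nxt σ s) := by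
  unfold nxt
  rw [tl_sh]
  simp only
  rw [per_mul hσ]
  have e1 : decide ((sh ((2 * (n:ℤ) + 1) * z) s).1.1 = (sh ((2 * n + 1) * z) s).2.1) =
      decide (s.1.1 = s.2.1) := by
    unfold sh; simp
  rw [e1]
  split_ifs
  · unfold sh rot
    ext <;> simp <;> ring
  · unfold sh rot
    ext <;> simp <;> ring

theorem sh_rev (z : ℤ) (s : St) : sh z (rev s) = rev (sh z s) := rfl

theorem sh_up (z q t : ℤ) : sh z (up q t) = up (q + z) t := by
  unfold sh up; simp; ring

theorem sh_sh (z w : ℤ) (s : St) : sh z (sh w s) = sh (w + z) s := by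
  unfold sh; ext <;> simp <;> ring

theorem sh_zero (s : St) : sh 0 s = s := by unfold sh; simp

theorem ok_up (q t : ℤ) : Ok (up q t) := ⟨q, t, Or.inl rfl⟩

theorem ok_iter {σ : Cfg} {s : St} (h : Ok s) (i : ℕ) : Ok ((nxt σ)^[i] s) := by
  induction i with
  | zero => exact h
  | succ i ih => rw [Function.iterate_succ_apply']; exact ok_nxt ih

theorem iter_sh {n : ℕ} {σ : Cfg} (hσ : Per n σ) (z : ℤ) (s : St) (i : ℕ) :
    (nxt σ)^[i] (sh ((2 * n + 1) * z) s) = sh ((2 * n + 1) * z) ((nxt σ)^[i] s) := by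
  induction i with
  | zero => rfl
  | succ i ih => rw [Function.iterate_succ_apply', ih, nxt_sh hσ, Function.iterate_succ_apply']

end Y994.KW
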